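import Pool.Agent.Q227.RC.Com

/-!
Project RC of helper120: tilted laws, common lemmas for TRC and LOX.
-/

set_option autoImplicit false

namespace Pool.Agent.Q227.RC

open Finset MeasureTheory Filter Pool.Agent.Q120.ET Pool.Agent.Q120.ME Pool.Agent.Q120.RC
open scoped Topology

open Classical in
/-- The `up` steps below `x` with `mx ≤ b`. -/
noncomputable def Wf (b : ℕ → ℝ) (S : Set ℕ) (x : ℕ) : Finset ℕ :=
  (range x).filter (fun n => up S n ∧ (mx S n : ℝ) ≤ b n)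

theorem mem_Wf {b : ℕ → ℝ} {S : Set ℕ} {x n : ℕ} :
    n ∈ Wf b S x ↔ n < x ∧ up S n ∧ (mx S n : ℝ) ≤ b n := by
  classical
  unfold Wf
  rw [mem_filter, mem_range]

theorem incb_eq (q b : ℕ → ℝ) (S : Set ℕ) (x : ℕ) : incb q b S x = ∑ n ∈ Wf b S x, q n := rfl

theorem tilt_pos_eq {p b v : ℕ → ℝ} {n : ℕ} {T : Finset ℕ} (h1 : up (T : Set ℕ) n)
    (h2 : (mx (T : Set ℕ) n : ℝ) ≤ b n) : tilt p b v n T = v n * p n := by
  unfold tilt
  rw [if_pos ⟨h1, h2⟩]

theorem tilt_neg_eq {p b v : ℕ → ℝ} {n : ℕ} {T : Finset ℕ}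
    (h : ¬ (up (T : Set ℕ) n ∧ (mx (T : Set ℕ) n : ℝ) ≤ b n)) : tilt p b v n T = p n := by
  unfold tilt
  rw [if_neg h]

theorem tilt_bd {p b v : ℕ → ℝ} (hp : ∀ n, 0 < p n ∧ p n < 1) (hv : ∀ n, 0 < v n)
    (hvp : ∀ n, v n * p n < 1) (n : ℕ) (T : Finset ℕ) : 0 ≤ tilt p b v n T ∧ tilt p b v n T ≤ 1 := by
  by_cases h : up (T : Set ℕ) n ∧ (mx (T : Set ℕ) n : ℝ) ≤ b n
  · rw [tilt_pos_eq h.1 h.2]
    exact ⟨mul_nonneg (hv n).le (hp n).1.le, (hvp n).le⟩
  · rw [tilt_neg_eq h]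
    exact ⟨(hp n).1.le, (hp n).2.le⟩

theorem kl_self {a : ℝ} (h0 : 0 < a) (h1 : a < 1) : kl a a = 0 := by
  unfold kl
  rw [div_self h0.ne', div_self (by linarith), Real.log_one]
  ring

theorem sum_kl {p b v : ℕ → ℝ} (hp : ∀ n, 0 < p n ∧ p n < 1) (T : Finset ℕ) (x : ℕ) :
    ∑ n ∈ range x, kl (tilt p b v n (pre T n)) (p n) =
      ∑ n ∈ Wf b (T : Set ℕ) x, kl (v n * p n) (p n) := by
  classical
  unfold Wf
  rw [sum_filter]
  refine sum_congr rfl fun n _ => ?_
  by_cases h : up (T : Set ℕ) n ∧ (mx (T : Set ℕ) n : ℝ) ≤ b n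
  · rw [if_pos h, tilt_pos_eq ((up_pre T n).2 h.1) (by rw [mx_pre]; exact h.2)]
  · rw [if_neg h, tilt_neg_eq (by rw [up_pre, mx_pre]; exact h), kl_self (hp n).1 (hp n).2]

theorem relEnt_eq (hCRE : J_CRE) {p b v : ℕ → ℝ} (hp : ∀ n, 0 < p n ∧ p n < 1) (hv : ∀ n, 0 < v n)
    (hvp : ∀ n, v n * p n < 1) {Ω : Type} [MeasurableSpace Ω] (μ : Measure Ω) (A : Ω → Set ℕ) (x : ℕ)
    (hlaw : ∀ T, T ⊆ range x → lawOn μ A (range x) T = seqlaw (tilt p b v) x T) :
    relEnt p μ A (range x) = ∑ T ∈ (range x).powerset, seqlaw (tilt p b v) x T *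
      ∑ n ∈ Wf b (T : Set ℕ) x, kl (v n * p n) (p n) := by
  unfold relEnt
  have h1 := hCRE (tilt p b v) (tilt_bd hp hv hvp) p hp x
  have h2 : ∑ T ∈ (range x).powerset, lawOn μ A (range x) T *
      Real.log (lawOn μ A (range x) T / bern p (range x) T) =
      ∑ T ∈ (range x).powerset, seqlaw (tilt p b v) x T *
        Real.log (seqlaw (tilt p b v) x T / bern p (range x) T) := by
    refine sum_congr rfl fun T hT => ?_
    rw [hlaw T (mem_powerset.1 hT)]
  rw [h2, h1]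
  refine sum_congr rfl fun T _ => ?_
  rw [sum_kl hp]

theorem seqlaw_nonneg {r : ℕ → Finset ℕ → ℝ} (hr : ∀ n T, 0 ≤ r n T ∧ r n T ≤ 1) (x : ℕ)
    (T : Finset ℕ) : 0 ≤ seqlaw r x T := by
  unfold seqlaw
  refine prod_nonneg fun n _ => ?_
  have := hr n (pre T n)
  split_ifs <;> linarith

theorem sum_seqlaw {Ω : Type} [MeasurableSpace Ω] {μ : Measure Ω} [IsProbabilityMeasure μ]
    {A : Ω → Set ℕ} (hA : IsRandomSet A) {r : ℕ → Finset ℕ → ℝ} {x : ℕ}
    (hlaw : ∀ T, T ⊆ range x → lawOn μ A (range x) T = seqlaw r x T) :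
    ∑ T ∈ (range x).powerset, seqlaw r x T = 1 := by
  rw [← sum_law (μ := μ) hA (range x)]
  exact sum_congr rfl fun T hT => (hlaw T (mem_powerset.1 hT)).symm

theorem hfun_le_sq {u : ℝ} (hu : 0 ≤ u) : hfun u ≤ (u - 1) ^ 2 := by
  unfold hfun
  rcases hu.eq_or_lt with h | h
  · rw [← h]; norm_num
  · have := Real.log_le_sub_one_of_pos h
    nlinarith

theorem hfun_nonneg {u : ℝ} (hu : 0 ≤ u) : 0 ≤ hfun u := by
  unfold hfun
  rcases hu.eq_or_lt with h | h
  · rw [← h]; norm_num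
  · have h1 := Real.log_le_sub_one_of_pos (inv_pos.2 h)
    rw [Real.log_inv] at h1
    have h2 : u * (-Real.log u) ≤ u * (u⁻¹ - 1) := mul_le_mul_of_nonneg_left h1 hu
    have h3 : u * (u⁻¹ - 1) = 1 - u := by field_simp
    linarith

/-- `hfun` is smaller at points nearer to `1`. -/
theorem hfun_between {w y : ℝ} (hw : 0 < w) (hy : 0 ≤ y) (h : 0 ≤ (y - w) * Real.log w) :
    hfun w ≤ hfun y := by
  unfold hfun
  rcases hy.eq_or_lt with h0 | h0
  · rw [← h0] at h ⊢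
    simp only [zero_mul, zero_sub, neg_mul] at h ⊢
    linarith
  · have h1 := Real.log_le_sub_one_of_pos (div_pos hw h0)
    rw [Real.log_div hw.ne' h0.ne'] at h1
    have h2 := mul_le_mul_of_nonneg_left h1 hy
    have h3 : y * (w / y - 1) = w - y := by field_simp
    rw [h3] at h2
    nlinarith

/-- From the powers of `2` to all integers. -/
theorem dyadic {f : ℕ → ℝ} (hf : Monotone f) (hf0 : ∀ n, 0 ≤ f n) {L : ℝ}
    (h : Tendsto (fun k : ℕ => f (2 ^ k) / Real.log ((2 ^ k : ℕ) : ℝ)) atTop (𝓝 L)) :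
    Tendsto (fun x : ℕ => f x / Real.log x) atTop (𝓝 L) := by
  have hl2 : 0 < Real.log 2 := Real.log_pos (by norm_num)
  have hlog : ∀ k : ℕ, Real.log ((2 ^ k : ℕ) : ℝ) = k * Real.log 2 := by
    intro k
    push_cast
    rw [Real.log_pow]
  have hk : Tendsto (fun k : ℕ => (k : ℝ) / (k + 1)) atTop (𝓝 1) := tendsto_natCast_div_add_atTop 1
  have hlo : Tendsto (fun k : ℕ => f (2 ^ k) / ((k + 1) * Real.log 2)) atTop (𝓝 L) := by
    have h1 := h.mul hk
    rw [mul_one] at h1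
    refine h1.congr' ?_
    filter_upwards [eventually_ge_atTop 1] with k hk
    rw [hlog]
    have : (k : ℝ) ≠ 0 := by positivity
    field_simp
  have hhi : Tendsto (fun k : ℕ => f (2 ^ (k + 1)) / (k * Real.log 2)) atTop (𝓝 L) := by
    have h1 := (h.comp (tendsto_add_atTop_nat 1)).mul (hk.inv₀ one_ne_zero)
    rw [inv_one, mul_one] at h1
    refine h1.congr' ?_
    filter_upwards [eventually_ge_atTop 1] with k hk
    simp only [Function.comp]
    rw [hlog]
    push_cast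
    have : (k : ℝ) ≠ 0 := by positivity
    field_simp
  have hlt : Tendsto (fun x : ℕ => Nat.log 2 x) atTop atTop := by
    rw [tendsto_atTop]
    intro k
    filter_upwards [eventually_ge_atTop (2 ^ k)] with x hx
    exact Nat.le_log_of_pow_le (by norm_num) hx
  refine tendsto_of_tendsto_of_tendsto_of_le_of_le' (hlo.comp hlt) (hhi.comp hlt) ?_ ?_
  · filter_upwards [eventually_ge_atTop 2] with x hx
    simp only [Function.comp]
    have h1 : 2 ^ Nat.log 2 x ≤ x := Nat.pow_log_le_self 2 (by omega)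
    have h2 : x < 2 ^ (Nat.log 2 x + 1) := Nat.lt_pow_succ_log_self (by norm_num) x
    have hx0 : (0 : ℝ) < x := by positivity
    have hx1 : (1 : ℝ) < x := by exact_mod_cast (by omega : 1 < x)
    have h3 : Real.log x ≤ (Nat.log 2 x + 1) * Real.log 2 := by
      have : Real.log x ≤ Real.log ((2 ^ (Nat.log 2 x + 1) : ℕ) : ℝ) :=
        Real.log_le_log hx0 (by exact_mod_cast h2.le)
      rw [hlog] at this
      push_cast at this
      exact this
    exact div_le_div₀ (hf0 x) (hf h1) (Real.log_pos hx1) h3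
  · filter_upwards [eventually_ge_atTop 2] with x hx
    simp only [Function.comp]
    have h1 : 2 ^ Nat.log 2 x ≤ x := Nat.pow_log_le_self 2 (by omega)
    have h2 : x < 2 ^ (Nat.log 2 x + 1) := Nat.lt_pow_succ_log_self (by norm_num) x
    have h4 : 0 < Nat.log 2 x := Nat.log_pos (by norm_num) hx
    have h4' : (0 : ℝ) < Nat.log 2 x := by exact_mod_cast h4
    have h3 : (Nat.log 2 x : ℝ) * Real.log 2 ≤ Real.log x := by
      rw [← hlog]
      exact Real.log_le_log (by positivity) (by exact_mod_cast h1)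
    exact div_le_div₀ (hf0 _) (hf h2.le) (by positivity) h3

end Pool.Agent.Q227.RC
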