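import Pool.Agent.Q120.RC.Stm

/-!
Project RC of helper120, job CMP: two ways to count record gaps.
-/

set_option autoImplicit false

namespace Pool.Agent.Q227.RC

open Finset Pool.Agent.Q120.RC

theorem isRec_of_up {S : Set ℕ} {n a0 : ℕ} (hn : n ∈ S) (h : up S n) (ha : a0 ∈ S) (han : a0 < n) :
    IsRec S n := by
  classical
  refine ⟨hn, ?_⟩
  have hex : ∃ k, k ∈ S ∧ k < n := ⟨a0, ha, han⟩
  -- the predecessor
  have h0 : ∃ m, m ∈ S ∧ m < n ∧ ∀ j, m < j → j < n → j ∉ S := by
    let m := Nat.findGreatest (fun k => k ∈ S ∧ k < n) n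
    have hm : m ∈ S ∧ m < n := Nat.findGreatest_spec (P := fun k => k ∈ S ∧ k < n) han.le
      ⟨ha, han⟩
    refine ⟨m, hm.1, hm.2, fun j h1 h2 h3 => ?_⟩
    exact Nat.findGreatest_is_greatest (P := fun k => k ∈ S ∧ k < n) h1 h2.le ⟨h3, h2⟩
  obtain ⟨m, hmS, hmn, hm⟩ := h0
  refine ⟨m, hmS, hmn, hm, ?_⟩
  intro a ha b hb hab hbm hc
  have h1 : m < n - mx S n := by
    by_contra h2
    rw [not_lt] at h2
    exact up_run h m h2 hmn hmS
  have h2 : b - a - 1 ≤ mx S (n - 1) := by
    rw [le_mx_iff]
    exact ⟨a + 1, by omega, fun j h3 h4 => hc j (by omega) (by omega)⟩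
  have h3 : mx S (n - 1) < mx S n := h
  omega

theorem up_of_isRec {S : Set ℕ} {n m : ℕ} (hmS : m ∈ S) (hmn : m < n)
    (hm : ∀ j, m < j → j < n → j ∉ S)
    (hrec : ∀ a ∈ S, ∀ b ∈ S, a < b → b ≤ m → (∀ j, a < j → j < b → j ∉ S) → b - a < n - m)
    (hlong : sInf S < n - m - 1) : up S n := by
  classical
  have h1 : n - m - 1 ≤ mx S n := by
    rw [le_mx_iff]
    exact ⟨m + 1, by omega, fun j h3 h4 => hm j (by omega) (by omega)⟩
  have h2 : mx S (n - 1) < n - m - 1 := by
    obtain ⟨s, hs, hr⟩ := hasRun_mx S (n - 1)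
    set g := mx S (n - 1) with hg
    rcases Nat.eq_zero_or_pos g with h0 | h0
    · omega
    rcases lt_or_ge m s with h3 | h3
    · omega
    · have h4 : s + g ≤ m := by
        by_contra h5
        exact hr m h3 (by omega) hmS
      -- the least element above
      have hexb : ∃ b, b ∈ S ∧ s + g ≤ b := ⟨m, hmS, h4⟩
      obtain ⟨hbS, hbg⟩ := Nat.find_spec hexb
      have hbm : Nat.find hexb ≤ m := Nat.find_min' hexb ⟨hmS, h4⟩
      have hbmin : ∀ j, s + g ≤ j → j < Nat.find hexb → j ∉ S := fun j h5 h6 h7 =>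
        Nat.find_min hexb h6 ⟨h7, h5⟩
      by_cases hexa : ∃ a, a ∈ S ∧ a < s
      · obtain ⟨a1, ha1, ha2⟩ := hexa
        let a := Nat.findGreatest (fun k => k ∈ S ∧ k < s) s
        have haa : a ∈ S ∧ a < s := Nat.findGreatest_spec (P := fun k => k ∈ S ∧ k < s) ha2.le
          ⟨ha1, ha2⟩
        have hamax : ∀ j, a < j → j < s → j ∉ S := fun j h5 h6 h7 =>
          Nat.findGreatest_is_greatest (P := fun k => k ∈ S ∧ k < s) h5 h6.le ⟨h7, h6⟩
        have h8 := hrec a haa.1 _ hbS (by omega) hbm (fun j h5 h6 => by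
          rcases lt_or_ge j s with h7 | h7
          · exact hamax j h5 h7
          · rcases lt_or_ge j (s + g) with h9 | h9
            · exact hr j h7 h9
            · exact hbmin j h9 h6)
        omega
      · push Not at hexa
        have h5 : sInf S ∈ S := Nat.sInf_mem ⟨m, hmS⟩
        have h6 := hexa _ h5
        have h7 : s + g ≤ sInf S := by
          by_contra h8
          exact hr _ h6 (by omega) h5
        omega
  unfold up
  omega

/-- Job CMP. -/
theorem t_CMP : J_CMP := by
  classical
  intro S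
  rcases S.eq_empty_or_nonempty with hS | hS
  · refine ⟨0, fun x => ?_⟩
    have h1 : rc S x = 0 := by
      unfold rc
      rw [card_eq_zero, filter_eq_empty_iff]
      intro n _ h
      have := h.1
      rw [hS] at this
      exact this
    have h2 : recS S x = 0 := by
      unfold recS
      rw [card_eq_zero, filter_eq_empty_iff]
      intro n _ h
      have := h.1
      rw [hS] at this
      exact this
    rw [h1, h2]
    simp
  · set a0 := sInf S with ha0
    have ha0S : a0 ∈ S := Nat.sInf_mem hS
    refine ⟨(a0 : ℝ) + 3, fun x => ?_⟩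
    set X := (range x).filter (fun n => IsRec S n) with hX
    set Y := (range x).filter (fun n => n ∈ S ∧ up S n) with hY
    have hrc : rc S x = X.card := rfl
    have hre : recS S x = Y.card := rfl
    -- Y \ X
    have h1 : (Y \ X).card ≤ 1 := by
      rw [card_le_one]
      have : ∀ n ∈ Y \ X, n = a0 := by
        intro n hn
        rw [mem_sdiff, hX, hY, mem_filter, mem_filter] at hn
        obtain ⟨⟨h2, h3, h4⟩, h5⟩ := hn
        by_contra h6
        have h7 : a0 ≤ n := Nat.sInf_le h3
        exact h5 ⟨h2, isRec_of_up h3 h4 ha0S (by omega)⟩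
      intro n hn n' hn'
      rw [this n hn, this n' hn']
    have h2 : (X \ Y).card ≤ a0 + 2 := by
      let δ : ℕ → ℕ := fun n => if h : IsRec S n then n - Classical.choose h.2 else 0
      have hδ : ∀ n, ∀ h : IsRec S n, δ n = n - Classical.choose h.2 := fun n h => dif_pos h
      have hmaps : ∀ n ∈ X \ Y, δ n ∈ range (a0 + 2) := by
        intro n hn
        rw [mem_sdiff, hX, hY, mem_filter, mem_filter] at hn
        obtain ⟨⟨h3, h4⟩, h5⟩ := hn
        rw [hδ n h4, mem_range]
        obtain ⟨g1, g2, g3, g4⟩ := Classical.choose_spec h4.2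
        by_contra h6
        exact h5 ⟨h3, h4.1, up_of_isRec g1 g2 g3 g4 (by omega)⟩
      have hinj : Set.InjOn δ (X \ Y : Finset ℕ) := by
        have key : ∀ n n', n < n' → IsRec S n → IsRec S n' → δ n < δ n' := by
          intro n n' hlt h3 h4
          rw [hδ n h3, hδ n' h4]
          obtain ⟨g1, g2, g3, g4⟩ := Classical.choose_spec h3.2
          obtain ⟨g1', g2', g3', g4'⟩ := Classical.choose_spec h4.2
          have h5 : n ≤ Classical.choose h4.2 := by
            by_contra h6
            exact g3' n (by omega) hlt h3.1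
          exact g4' _ g1 n h3.1 g2 h5 g3
        intro n hn n' hn' he
        rw [mem_coe, mem_sdiff, hX, mem_filter] at hn hn'
        rcases lt_trichotomy n n' with h3 | h3 | h3
        · have := key n n' h3 hn.1.2 hn'.1.2
          omega
        · exact h3
        · have := key n' n h3 hn'.1.2 hn.1.2
          omega
      have := Finset.card_le_card_of_injOn δ hmaps hinj
      rwa [card_range] at this
    have h3 : X.card ≤ Y.card + (a0 + 2) := by
      have := Finset.card_le_card_sdiff_add_card (s := X) (t := Y)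
      omega
    have h4 : Y.card ≤ X.card + 1 := by
      have := Finset.card_le_card_sdiff_add_card (s := Y) (t := X)
      omega
    rw [hrc, hre, abs_le]
    have h3' : (X.card : ℝ) ≤ Y.card + (a0 + 2) := by exact_mod_cast h3
    have h4' : (Y.card : ℝ) ≤ X.card + 1 := by exact_mod_cast h4
    have h5 : (0 : ℝ) ≤ a0 := by positivity
    constructor <;> linarith

end Pool.Agent.Q227.RC
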