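import Pool.Agent.Q120.RC.Stm
import Pool.Agent.Q222.ME.UPL

/-!
Project RC of helper120: common lemmas for UPR, TRC and LOX.
-/

set_option autoImplicit false

namespace Pool.Agent.Q227.RC

open Finset MeasureTheory Filter Pool.Agent.Q120.ET Pool.Agent.Q120.ME Pool.Agent.Q120.RC
open scoped Topology

theorem log_top : Tendsto (fun x : ℕ => Real.log x) atTop atTop :=
  Real.tendsto_log_atTop.comp tendsto_natCast_atTop_atTop

theorem log_nat_nonneg (n : ℕ) : 0 ≤ Real.log n := Real.log_natCast_nonneg n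

theorem b0_nonneg {κ c : ℝ} (hc : 0 < c) (n : ℕ) : 0 ≤ b0 κ c n := by
  unfold b0
  exact div_nonneg (Real.rpow_nonneg (log_nat_nonneg n) _) hc.le

theorem b0_mono {κ c : ℝ} (hκ : 0 < κ) (hc : 0 < c) : Monotone (b0 κ c) := by
  intro m n h
  unfold b0
  refine div_le_div_of_nonneg_right ?_ hc.le
  refine Real.rpow_le_rpow (log_nat_nonneg m) ?_ (by linarith)
  rcases Nat.eq_zero_or_pos m with h0 | h0
  · rw [h0]
    simp only [Nat.cast_zero, Real.log_zero]
    exact log_nat_nonneg n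
  · exact Real.log_le_log (by exact_mod_cast h0) (by exact_mod_cast h)

theorem b0_zero {κ c : ℝ} (hκ : 0 < κ) : b0 κ c 0 = 0 := by
  unfold b0
  rw [Nat.cast_zero, Real.log_zero, Real.zero_rpow (by linarith), zero_div]

theorem p_zero {κ c : ℝ} {p : ℕ → ℝ} (hκ : 0 < κ) (hM : Mod κ c p) : Tendsto p atTop (𝓝 0) := by
  have h1 : Tendsto (fun n : ℕ => Real.log n ^ κ) atTop atTop :=
    (tendsto_rpow_atTop hκ).comp log_top
  have h2 := hM.lim.div_atTop h1
  refine h2.congr' ?_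
  filter_upwards [h1.eventually_gt_atTop 0] with n hn
  field_simp

/-- The main sum. -/
noncomputable def S1 (κ c : ℝ) (p : ℕ → ℝ) (x : ℕ) : ℝ :=
  ∑ n ∈ Ico 1 x, p n * (b0 κ c n - b0 κ c (n - 1))

theorem scaled {κ c : ℝ} {p : ℕ → ℝ} (l : ℝ) (a x : ℕ) :
    ∑ n ∈ Ico a x, p n * (l * b0 κ c n - l * b0 κ c (n - 1)) =
      l * ∑ n ∈ Ico a x, p n * (b0 κ c n - b0 κ c (n - 1)) := by
  rw [mul_sum]
  exact sum_congr rfl fun n _ => by ring

theorem incb_le_S1 (hABU : J_ABU) {κ c : ℝ} {p : ℕ → ℝ} (hκ : 0 < κ) (hc : 0 < c) (hM : Mod κ c p)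
    {l : ℝ} (hl : 0 ≤ l) (S : Set ℕ) (x : ℕ) :
    incb p (fun n => l * b0 κ c n) S x ≤ l * S1 κ c p x := by
  have h1 := hABU p (fun n => l * b0 κ c n) (fun n => (hM.pos n).le) hM.anti
    (fun m n h => mul_le_mul_of_nonneg_left (b0_mono hκ hc h) hl)
    (fun n => mul_nonneg hl (b0_nonneg hc n)) S x
  rw [b0_zero hκ, mul_zero, mul_zero, zero_add, scaled] at h1
  exact h1

theorem incb_ev (hABU : J_ABU) (hASY : J_ASY) {κ c : ℝ} {p : ℕ → ℝ} (hκ : 0 < κ) (hc : 0 < c)
    (hM : Mod κ c p) {l : ℝ} (hl : 0 ≤ l) {ε : ℝ} (hε : 0 < ε) :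
    ∀ᶠ x : ℕ in atTop, ∀ S : Set ℕ,
      incb p (fun n => l * b0 κ c n) S x ≤ (l * (κ + 1) + ε) * Real.log x := by
  have h1 := (hASY κ c p hκ hc hM).const_mul l
  have h2 := h1.eventually (gt_mem_nhds (show l * (κ + 1) < l * (κ + 1) + ε by linarith))
  filter_upwards [h2, log_top.eventually_gt_atTop 0] with x h3 h4 S
  refine (incb_le_S1 hABU hκ hc hM hl S x).trans ?_
  have h5 : l * (S1 κ c p x / Real.log x) < l * (κ + 1) + ε := h3
  rw [← mul_div_assoc, div_lt_iff₀ h4] at h5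
  exact h5.le

theorem inc_ev (hABL : J_ABL) (hASY : J_ASY) {κ c : ℝ} {p : ℕ → ℝ} (hκ : 0 < κ) (hc : 0 < c)
    (hM : Mod κ c p) {l : ℝ} (hl : 0 ≤ l) (S : Set ℕ)
    (hS : ∀ᶠ n : ℕ in atTop, l * b0 κ c n ≤ mx S n) {ε : ℝ} (hε : 0 < ε) :
    ∀ᶠ x : ℕ in atTop, (l * (κ + 1) - ε) * Real.log x ≤ inc p S x := by
  obtain ⟨N, hN⟩ := eventually_atTop.1 hS
  have h1 := (hASY κ c p hκ hc hM).const_mul l
  have h2 : Tendsto (fun x : ℕ => l * S1 κ c p (N + 1) / Real.log x) atTop (𝓝 0) :=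
    tendsto_const_nhds.div_atTop log_top
  have h3 := h1.sub h2
  rw [sub_zero] at h3
  have h4 := h3.eventually (lt_mem_nhds (show l * (κ + 1) - ε < l * (κ + 1) by linarith))
  filter_upwards [h4, log_top.eventually_gt_atTop 0, eventually_ge_atTop (N + 1)] with x h5 h6 h7
  have h8 := hABL p (fun n => l * b0 κ c n) (fun n => (hM.pos n).le) hM.anti
    (fun m n h => mul_le_mul_of_nonneg_left (b0_mono hκ hc h) hl)
    (fun n => mul_nonneg hl (b0_nonneg hc n)) S N x (fun n h9 _ => hN n h9)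
  rw [scaled] at h8
  have h9 : S1 κ c p (N + 1) + ∑ n ∈ Ico (N + 1) x, p n * (b0 κ c n - b0 κ c (n - 1)) =
      S1 κ c p x := by
    unfold S1
    exact sum_Ico_consecutive _ (by omega) h7
  have h10 : l * (κ + 1) - ε < l * (S1 κ c p x / Real.log x) -
      l * S1 κ c p (N + 1) / Real.log x := h5
  have h11 : l * (S1 κ c p x / Real.log x) - l * S1 κ c p (N + 1) / Real.log x =
      l * (∑ n ∈ Ico (N + 1) x, p n * (b0 κ c n - b0 κ c (n - 1))) / Real.log x := by
    rw [← h9]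
    field_simp
    ring
  rw [h11, lt_div_iff₀ h6] at h10
  linarith

theorem sup_b (hSUP : J_SUP) (r : ℕ → Finset ℕ → ℝ) (hr : ∀ n T, 0 ≤ r n T ∧ r n T ≤ 1)
    (b : ℕ → ℝ) (q : ℕ → ℝ)
    (hq : ∀ n (T : Finset ℕ), up (T : Set ℕ) n → (mx (T : Set ℕ) n : ℝ) ≤ b n → r n T = q n)
    (s : ℝ) (x : ℕ) :
    ∑ T ∈ (range x).powerset, seqlaw r x T * Real.exp (s * recb b (T : Set ℕ) x -
      (Real.exp s - 1) * incb q b (T : Set ℕ) x) ≤ 1 := by
  classical
  have h1 := hSUP r hr (fun n T => up (T : Set ℕ) n ∧ (mx (T : Set ℕ) n : ℝ) ≤ b n) s x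
  refine le_trans (le_of_eq ?_) h1
  refine sum_congr rfl fun T _ => ?_
  have e1 : recb b (T : Set ℕ) x = ((range x).filter (fun n => n ∈ T ∧
      (up (pre T n : Set ℕ) n ∧ (mx (pre T n : Set ℕ) n : ℝ) ≤ b n))).card := by
    unfold recb
    congr 1
    ext n
    simp only [mem_filter, up_pre, mx_pre, mem_coe]
  have e2 : incb q b (T : Set ℕ) x = ∑ n ∈ (range x).filter (fun n =>
      up (pre T n : Set ℕ) n ∧ (mx (pre T n : Set ℕ) n : ℝ) ≤ b n), r n (pre T n) := by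
    unfold incb
    refine sum_congr ?_ ?_
    · ext n
      simp only [mem_filter, up_pre, mx_pre]
    · intro n hn
      rw [mem_filter] at hn
      exact (hq n _ hn.2.1 hn.2.2).symm
  rw [e1, e2]
  congr!

theorem sup_S (hSUP : J_SUP) (p : ℕ → ℝ) (hp : ∀ n, 0 ≤ p n ∧ p n ≤ 1) (s : ℝ) (x : ℕ) :
    ∑ T ∈ (range x).powerset, bern p (range x) T * Real.exp (s * recS (T : Set ℕ) x -
      (Real.exp s - 1) * inc p (T : Set ℕ) x) ≤ 1 := by
  classical
  have h1 := hSUP (fun n _ => p n) (fun n _ => hp n) (fun n T => up (T : Set ℕ) n) s x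
  refine le_trans (le_of_eq ?_) h1
  refine sum_congr rfl fun T _ => ?_
  rw [seqlaw_const]
  have e1 : recS (T : Set ℕ) x = ((range x).filter (fun n => n ∈ T ∧
      up (pre T n : Set ℕ) n)).card := by
    unfold recS
    congr 1
    ext n
    simp only [mem_filter, up_pre, mem_coe]
  have e2 : inc p (T : Set ℕ) x = ∑ n ∈ (range x).filter (fun n =>
      up (pre T n : Set ℕ) n), p n := by
    unfold inc
    refine sum_congr ?_ fun _ _ => rfl
    ext n
    simp only [mem_filter, up_pre]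
  rw [e1, e2]

theorem hK_eq (κ u : ℝ) (hκ : 0 < κ) : hK κ u = (κ + 1) * hfun (u / (κ + 1)) := by
  unfold hK hfun
  have : κ + 1 ≠ 0 := by linarith
  field_simp

/-- The integral of a function of the part below `x`. -/
theorem int_tr {Ω : Type} [MeasurableSpace Ω] (μ : Measure Ω) [IsProbabilityMeasure μ]
    {A : Ω → Set ℕ} (hA : IsRandomSet A) (F : Finset ℕ) (g : Finset ℕ → ℝ) :
    Measurable (fun ω => g (tr A F ω)) ∧
      ∫ ω, g (tr A F ω) ∂μ = ∑ T ∈ F.powerset, lawOn μ A F T * g T := by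
  classical
  have hme : ∀ T ∈ F.powerset, MeasurableSet {ω | tr A F ω = T} := by
    intro T hT
    rw [← law_set_eq A (mem_powerset.1 hT)]
    exact measurableSet_law hA F T
  have h1 : (fun ω => g (tr A F ω)) = fun ω => ∑ T ∈ F.powerset,
      ({ω | tr A F ω = T} : Set Ω).indicator (fun _ => g T) ω := by
    funext ω
    rw [sum_eq_single (tr A F ω)]
    · simp
    · intro T _ hT
      rw [Set.indicator_of_notMem]
      intro h
      exact hT (show tr A F ω = T from h).symm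
    · intro h
      exfalso
      apply h
      rw [mem_powerset]
      intro n hn
      exact (mem_tr.1 hn).1
  rw [h1]
  refine ⟨Finset.measurable_fun_sum _ fun T hT => measurable_const.indicator (hme T hT), ?_⟩
  rw [integral_finsetSum _ (fun T hT => (integrable_const (g T)).indicator (hme T hT))]
  refine sum_congr rfl fun T hT => ?_
  rw [integral_indicator_const _ (hme T hT), smul_eq_mul]
  congr 1
  unfold lawOn
  rw [law_set_eq A (mem_powerset.1 hT)]

theorem mem_tr_range {Ω : Type} [MeasurableSpace Ω] {A : Ω → Set ℕ} {x : ℕ} {ω : Ω} :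
    ∀ j < x, (j ∈ A ω ↔ j ∈ ((tr A (range x) ω : Finset ℕ) : Set ℕ)) := by
  intro j hj
  rw [mem_coe, mem_tr, mem_range]
  tauto

end Pool.Agent.Q227.RC
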