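import Mathlib

/-!
# Monomial automorphisms of linear codes
-/

set_option autoImplicit false

namespace Pool.Agent.Q227.RC

variable {F : Type} [Field F] {n : ℕ}

/-- The monomial map `((d_1, …, d_n), σ) · x = (d_i x_{σ⁻¹ i})_i`. -/
def mono (d : Fin n → Fˣ) (σ : Equiv.Perm (Fin n)) : (Fin n → F) →ₗ[F] (Fin n → F) where
  toFun x i := (d i : F) * x (σ⁻¹ i)
  map_add' x y := by
    funext i
    simp [mul_add]
  map_smul' c x := by
    funext i
    simp
    ring

/-- The monomial automorphisms of the code `C`. -/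
def Aut (C : Submodule F (Fin n → F)) : Set ((Fin n → F) →ₗ[F] (Fin n → F)) :=
  {φ | ∃ (d : Fin n → Fˣ) (σ : Equiv.Perm (Fin n)), φ = mono d σ ∧ C.map φ = C}

/-- The scalar maps. -/
def scalars (F : Type) [Field F] (n : ℕ) : Set ((Fin n → F) →ₗ[F] (Fin n → F)) :=
  {φ | ∃ c : Fˣ, φ = (c : F) • LinearMap.id}

end Pool.Agent.Q227.RC
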