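import Mathlib

/-!
# Counting subspaces of a finite vector space
-/

set_option autoImplicit false
set_option linter.unusedSectionVars false
set_option linter.style.haveILetI false

namespace Pool.Agent.Q227.RC

open Module

section

variable {F : Type} [Field F] [Fintype F] {V : Type} [AddCommGroup V] [Module F V] [Finite V]

noncomputable local instance instFinSub : Fintype (Submodule F V) := Fintype.ofFinite _

/-- The number of subspaces with a property. -/
noncomputable def cnt (p : Submodule F V → Prop) : ℕ := Nat.card {C : Submodule F V // p C}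

open scoped Classical in
theorem cnt_eq (p : Submodule F V → Prop) : cnt p = (Finset.univ.filter p).card := by
  rw [cnt, Nat.card_eq_fintype_card, Fintype.card_subtype]

theorem cnt_mono {p p' : Submodule F V → Prop} (h : ∀ C, p C → p' C) : cnt p ≤ cnt p' := by
  classical
  rw [cnt_eq, cnt_eq]
  exact Finset.card_le_card fun C hC => by
    simp only [Finset.mem_filter, Finset.mem_univ, true_and] at hC ⊢
    exact h C hC

theorem cnt_congr {p p' : Submodule F V → Prop} (h : ∀ C, p C ↔ p' C) : cnt p = cnt p' :=
  le_antisymm (cnt_mono fun C => (h C).1) (cnt_mono fun C => (h C).2)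

/-- Union bound. -/
theorem cnt_exists_le {ι : Type*} (s : Finset ι) {p : Submodule F V → Prop}
    (f : ι → Submodule F V → Prop) (h : ∀ C, p C → ∃ i ∈ s, f i C) :
    cnt p ≤ ∑ i ∈ s, cnt (f i) := by
  classical
  rw [cnt_eq]
  have : ∑ i ∈ s, cnt (f i) = ∑ i ∈ s, (Finset.univ.filter (f i)).card :=
    Finset.sum_congr rfl fun i _ => cnt_eq _
  rw [this]
  refine le_trans (Finset.card_le_card ?_) Finset.card_biUnion_le
  intro C hC
  simp only [Finset.mem_filter, Finset.mem_univ, true_and] at hC
  obtain ⟨i, hi, hf⟩ := h C hC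
  simp only [Finset.mem_biUnion, Finset.mem_filter, Finset.mem_univ, true_and]
  exact ⟨i, hi, hf⟩

theorem card_sub (C : Submodule F V) :
    Nat.card C = Fintype.card F ^ finrank F C := by
  rw [Module.natCard_eq_pow_finrank (K := F), Nat.card_eq_fintype_card]

/-- Double counting of pairs `(C, v)` with `v ∈ C`. -/
theorem double_count {k : ℕ} {p : Submodule F V → Prop} (hp : ∀ C, p C → finrank F C = k)
    [Fintype V] :
    cnt p * Fintype.card F ^ k = ∑ v : V, cnt (fun C => p C ∧ v ∈ C) := by
  classical
  have h := Finset.sum_card_bipartiteAbove_eq_sum_card_bipartiteBelow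
    (s := Finset.univ.filter p) (t := (Finset.univ : Finset V)) (fun C v => v ∈ C)
  have h1 : ∑ C ∈ Finset.univ.filter p,
      (Finset.bipartiteAbove (fun (C : Submodule F V) v => v ∈ C) Finset.univ C).card =
      cnt p * Fintype.card F ^ k := by
    rw [cnt_eq, ← smul_eq_mul, ← Finset.sum_const]
    refine Finset.sum_congr rfl fun C hC => ?_
    simp only [Finset.mem_filter, Finset.mem_univ, true_and] at hC
    rw [← hp C hC, ← card_sub, Nat.card_eq_fintype_card, Finset.bipartiteAbove,
      Fintype.card_subtype]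
  rw [← h1, h]
  refine Finset.sum_congr rfl fun v _ => ?_
  rw [cnt_eq]
  congr 1
  ext C
  simp [Finset.bipartiteBelow]

end

/-! ### Dimensions of preimages -/

section

variable {F : Type} [Field F] {V V' : Type} [AddCommGroup V] [Module F V] [AddCommGroup V']
  [Module F V'] [FiniteDimensional F V] [FiniteDimensional F V']

theorem finrank_comap_add (f : V →ₗ[F] V') (W : Submodule F V') :
    finrank F (W.comap f) = finrank F ((W.comap f).map f) + finrank F (LinearMap.ker f) := by
  have h := LinearMap.finrank_range_add_finrank_ker (f.domRestrict (W.comap f))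
  rw [LinearMap.range_domRestrict] at h
  rw [← h]
  congr 1
  have e : LinearMap.ker (f.domRestrict (W.comap f)) =
      (LinearMap.ker f).comap (W.comap f).subtype := by
    ext x
    simp
  rw [e]
  exact (Submodule.comapSubtypeEquivOfLe (LinearMap.ker_le_comap f)).finrank_eq

theorem finrank_comap_le (f : V →ₗ[F] V') (W : Submodule F V') :
    finrank F (W.comap f) ≤ finrank F W + finrank F (LinearMap.ker f) := by
  rw [finrank_comap_add]
  exact Nat.add_le_add_right (Submodule.finrank_mono (Submodule.map_comap_le f W)) _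

end

section

variable (F : Type) [Field F] [Fintype F]

/-- The number of `k`-dimensional subspaces of `F ^ n`. -/
noncomputable def G (n k : ℕ) : ℕ := cnt fun C : Submodule F (Fin n → F) => finrank F C = k

variable {F}

theorem card_of_equiv {V V' : Type} [AddCommGroup V] [Module F V] [Finite V]
    [AddCommGroup V'] [Module F V'] [Finite V'] (e : V ≃ₗ[F] V') (k : ℕ) :
    cnt (fun C : Submodule F V => finrank F C = k) =
      cnt (fun C : Submodule F V' => finrank F C = k) := by
  refine Nat.card_congr ((Submodule.orderIsoMapComap e).toEquiv.subtypeEquiv fun C => ?_)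
  have : finrank F ((Submodule.orderIsoMapComap e) C) = finrank F C := e.finrank_map_eq C
  show finrank F C = k ↔ finrank F ((Submodule.orderIsoMapComap e) C) = k
  rw [this]

theorem cnt_dim {V : Type} [AddCommGroup V] [Module F V] [Finite V] (k : ℕ) :
    cnt (fun C : Submodule F V => finrank F C = k) = G F (finrank F V) k := by
  haveI : FiniteDimensional F V := Module.Finite.of_finite
  exact card_of_equiv (LinearEquiv.ofFinrankEq V (Fin (finrank F V) → F) (by simp)) k

theorem cnt_above {V : Type} [AddCommGroup V] [Module F V] [Finite V] (D : Submodule F V)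
    (k : ℕ) : cnt (fun C : Submodule F V => finrank F C = k + finrank F D ∧ D ≤ C) =
      G F (finrank F V - finrank F D) k := by
  haveI : FiniteDimensional F V := Module.Finite.of_finite
  have h1 : finrank F (V ⧸ D) = finrank F V - finrank F D := by
    have := Submodule.finrank_quotient_add_finrank D
    omega
  haveI : Finite (V ⧸ D) := Quotient.finite _
  rw [← h1, ← cnt_dim]
  symm
  refine Nat.card_congr (Equiv.trans ((Submodule.comapMkQRelIso D).toEquiv.subtypeEquiv
    (q := fun C : Set.Ici D => finrank F C.1 = k + finrank F D) fun C => ?_) ?_)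
  · have h2 : finrank F (C.comap D.mkQ) = finrank F C + finrank F D := by
      rw [finrank_comap_add, Submodule.map_comap_eq, Submodule.range_mkQ, top_inf_eq,
        Submodule.ker_mkQ]
    show finrank F C = k ↔ finrank F (C.comap D.mkQ) = k + finrank F D
    rw [h2]
    omega
  · exact
      { toFun := fun C => ⟨C.1.1, C.2, C.1.2⟩
        invFun := fun C => ⟨⟨C.1, C.2.2⟩, C.2.1⟩
        left_inv := fun _ => rfl
        right_inv := fun _ => rfl }

theorem cnt_below {V : Type} [AddCommGroup V] [Module F V] [Finite V] (H : Submodule F V)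
    (k : ℕ) : cnt (fun C : Submodule F V => finrank F C = k ∧ C ≤ H) =
      G F (finrank F H) k := by
  haveI : FiniteDimensional F V := Module.Finite.of_finite
  rw [← cnt_dim]
  symm
  refine Nat.card_congr (Equiv.trans ((Submodule.MapSubtype.orderIso H).toEquiv.subtypeEquiv
    (q := fun C => finrank F C.1 = k) fun C => ?_) ?_)
  · have h2 : finrank F (C.map H.subtype) = finrank F C :=
      Submodule.finrank_map_subtype_eq H C
    show finrank F C = k ↔ finrank F (C.map H.subtype) = k
    rw [h2]
  · exact
      { toFun := fun C => ⟨C.1.1, C.2, C.1.2⟩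
        invFun := fun C => ⟨⟨C.1, C.2.2⟩, C.2.1⟩
        left_inv := fun _ => rfl
        right_inv := fun _ => rfl }

theorem G_zero_right (n : ℕ) : G F n 0 = 1 := by
  rw [G, cnt, Nat.card_eq_one_iff_unique]
  refine ⟨⟨fun a b => ?_⟩, ⟨⟨⊥, finrank_bot _ _⟩⟩⟩
  have h : ∀ C : Submodule F (Fin n → F), finrank F C = 0 → C = ⊥ := fun C hC =>
    Submodule.finrank_eq_zero.1 hC
  exact Subtype.ext ((h _ a.2).trans (h _ b.2).symm)

theorem G_eq_zero {n k : ℕ} (h : n < k) : G F n k = 0 := by
  rw [G, cnt, Nat.card_eq_zero]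
  left
  refine ⟨fun C => ?_⟩
  have h1 := Submodule.finrank_le C.1
  rw [C.2, Module.finrank_fin_fun] at h1
  omega

/-- The recursion. -/
theorem G_succ (n k : ℕ) : (Fintype.card F ^ (k + 1) - 1) * G F (n + 1) (k + 1) =
    (Fintype.card F ^ (n + 1) - 1) * G F n k := by
  classical
  have h := double_count (V := Fin (n + 1) → F) (k := k + 1)
    (p := fun C => finrank F C = k + 1) (fun C hC => hC)
  have h0 : ∀ v : Fin (n + 1) → F, v ≠ 0 →
      cnt (fun C : Submodule F (Fin (n + 1) → F) => finrank F C = k + 1 ∧ v ∈ C) =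
        G F n k := by
    intro v hv
    have h1 := cnt_above (Submodule.span F {v}) k
    rw [finrank_span_singleton hv, Module.finrank_fin_fun] at h1
    have e : n + 1 - 1 = n := rfl
    rw [e] at h1
    rw [← h1]
    exact cnt_congr fun C => by rw [Submodule.span_singleton_le_iff_mem]
  have h1 : cnt (fun C : Submodule F (Fin (n + 1) → F) =>
      finrank F C = k + 1 ∧ (0 : Fin (n + 1) → F) ∈ C) = G F (n + 1) (k + 1) :=
    cnt_congr fun C => by simp
  rw [← Finset.add_sum_erase _ _ (Finset.mem_univ (0 : Fin (n + 1) → F)), h1,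
    Finset.sum_congr rfl (fun v hv => h0 v (Finset.ne_of_mem_erase hv)), Finset.sum_const,
    Finset.card_erase_of_mem (Finset.mem_univ _), Finset.card_univ, Fintype.card_fun,
    Fintype.card_fin, smul_eq_mul] at h
  have h2 : cnt (fun C : Submodule F (Fin (n + 1) → F) => finrank F C = k + 1) =
    G F (n + 1) (k + 1) := rfl
  rw [h2] at h
  have h3 : 1 ≤ Fintype.card F ^ (k + 1) := Nat.one_le_pow _ _ Fintype.card_pos
  obtain ⟨x, hx⟩ : ∃ x, Fintype.card F ^ (k + 1) = x + 1 := ⟨_, (Nat.sub_add_cancel h3).symm⟩
  rw [hx] at h ⊢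
  rw [Nat.add_sub_cancel]
  nlinarith

theorem two_le_card : 2 ≤ Fintype.card F := Fintype.one_lt_card

/-- Real form of the recursion. -/
theorem G_succ_real (n k : ℕ) : ((Fintype.card F : ℝ) ^ (k + 1) - 1) * G F (n + 1) (k + 1) =
    ((Fintype.card F : ℝ) ^ (n + 1) - 1) * G F n k := by
  have h := G_succ (F := F) n k
  have h3 : ∀ k : ℕ, 1 ≤ Fintype.card F ^ k := fun k => Nat.one_le_pow _ _ Fintype.card_pos
  have e : (((Fintype.card F ^ (k + 1) - 1) * G F (n + 1) (k + 1) : ℕ) : ℝ) =
    (((Fintype.card F ^ (n + 1) - 1) * G F n k : ℕ) : ℝ) := by rw [h]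
  rw [Nat.cast_mul, Nat.cast_mul, Nat.cast_sub (h3 _), Nat.cast_sub (h3 _)] at e
  push_cast at e
  exact e

theorem card_pow_gt (k : ℕ) : 0 < (Fintype.card F : ℝ) ^ (k + 1) - 1 := by
  have h : (2 : ℝ) ≤ Fintype.card F := by exact_mod_cast two_le_card
  have : (1 : ℝ) < (Fintype.card F : ℝ) ^ (k + 1) := one_lt_pow₀ (by linarith) (by omega)
  linarith

/-- Adding one dimension to the space and to the subspaces. -/
theorem G_step (a k : ℕ) : (G F (a + k) k : ℝ) * (Fintype.card F : ℝ) ^ a ≤
    G F (a + (k + 1)) (k + 1) := by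
  have h := G_succ_real (F := F) (a + k) k
  have h1 := card_pow_gt (F := F) k
  have h2 := card_pow_gt (F := F) (a + k)
  have hq : (1 : ℝ) ≤ (Fintype.card F : ℝ) ^ a := by
    have h : (2 : ℝ) ≤ Fintype.card F := by exact_mod_cast two_le_card
    exact one_le_pow₀ (by linarith)
  have h3 : ((Fintype.card F : ℝ) ^ (k + 1) - 1) * (Fintype.card F : ℝ) ^ a ≤
      (Fintype.card F : ℝ) ^ (a + k + 1) - 1 := by
    have : (Fintype.card F : ℝ) ^ (a + k + 1) =
      (Fintype.card F : ℝ) ^ (k + 1) * (Fintype.card F : ℝ) ^ a := by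
      rw [← pow_add]
      congr 1
      ring
    rw [this]
    linarith
  have h4 : ((Fintype.card F : ℝ) ^ (k + 1) - 1) *
      ((G F (a + k) k : ℝ) * (Fintype.card F : ℝ) ^ a) ≤
      ((Fintype.card F : ℝ) ^ (k + 1) - 1) * G F (a + (k + 1)) (k + 1) := by
    have e : a + (k + 1) = a + k + 1 := by ring
    rw [e, h]
    calc ((Fintype.card F : ℝ) ^ (k + 1) - 1) *
        ((G F (a + k) k : ℝ) * (Fintype.card F : ℝ) ^ a) =
        (((Fintype.card F : ℝ) ^ (k + 1) - 1) * (Fintype.card F : ℝ) ^ a) *
          (G F (a + k) k : ℝ) := by ring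
      _ ≤ _ := mul_le_mul_of_nonneg_right h3 (Nat.cast_nonneg _)
  exact le_of_mul_le_mul_left h4 h1

theorem G_steps (a k d : ℕ) : (G F (a + k) k : ℝ) * (Fintype.card F : ℝ) ^ (a * d) ≤
    G F (a + (k + d)) (k + d) := by
  induction d with
  | zero => simp
  | succ d ih =>
    calc (G F (a + k) k : ℝ) * (Fintype.card F : ℝ) ^ (a * (d + 1)) =
        ((G F (a + k) k : ℝ) * (Fintype.card F : ℝ) ^ (a * d)) * (Fintype.card F : ℝ) ^ a := by
          rw [mul_add, mul_one, pow_add]
          ring
      _ ≤ G F (a + (k + d)) (k + d) * (Fintype.card F : ℝ) ^ a :=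
          mul_le_mul_of_nonneg_right ih (by positivity)
      _ ≤ _ := G_step a (k + d)

/-- Few subspaces are contained in a fixed one. -/
theorem G_below (c : ℕ) : ∀ h k : ℕ, (G F h k : ℝ) * (Fintype.card F : ℝ) ^ (k * c) ≤
    G F (h + c) k := by
  intro h k
  induction k generalizing h with
  | zero => simp [G_zero_right]
  | succ k ih =>
    rcases h with _ | h
    · rw [G_eq_zero (by omega)]
      simp
    · have e1 := G_succ_real (F := F) h k
      have e2 := G_succ_real (F := F) (h + c) k
      have h1 := card_pow_gt (F := F) k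
      have hq : (1 : ℝ) ≤ (Fintype.card F : ℝ) ^ c := by
        have h : (2 : ℝ) ≤ Fintype.card F := by exact_mod_cast two_le_card
        exact one_le_pow₀ (by linarith)
      have h3 : ((Fintype.card F : ℝ) ^ (h + 1) - 1) * (Fintype.card F : ℝ) ^ c ≤
          (Fintype.card F : ℝ) ^ (h + c + 1) - 1 := by
        have : (Fintype.card F : ℝ) ^ (h + c + 1) =
          (Fintype.card F : ℝ) ^ (h + 1) * (Fintype.card F : ℝ) ^ c := by
          rw [← pow_add]
          congr 1
          ring
        rw [this]
        linarith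
      have h4 : ((Fintype.card F : ℝ) ^ (k + 1) - 1) *
          ((G F (h + 1) (k + 1) : ℝ) * (Fintype.card F : ℝ) ^ ((k + 1) * c)) ≤
          ((Fintype.card F : ℝ) ^ (k + 1) - 1) * G F (h + c + 1) (k + 1) := by
        rw [e2]
        calc ((Fintype.card F : ℝ) ^ (k + 1) - 1) *
            ((G F (h + 1) (k + 1) : ℝ) * (Fintype.card F : ℝ) ^ ((k + 1) * c)) =
            (((Fintype.card F : ℝ) ^ (k + 1) - 1) * (G F (h + 1) (k + 1) : ℝ)) *
              (Fintype.card F : ℝ) ^ ((k + 1) * c) := by ring
          _ = (((Fintype.card F : ℝ) ^ (h + 1) - 1) * (Fintype.card F : ℝ) ^ c) *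
              ((G F h k : ℝ) * (Fintype.card F : ℝ) ^ (k * c)) := by
              rw [e1, add_mul, one_mul, pow_add]
              ring
          _ ≤ ((Fintype.card F : ℝ) ^ (h + c + 1) - 1) * G F (h + c) k :=
              mul_le_mul h3 (ih h) (by positivity) (card_pow_gt (F := F) (h + c)).le
      have := le_of_mul_le_mul_left h4 h1
      have e : h + 1 + c = h + c + 1 := by ring
      rw [e]
      exact this

theorem G_le (s : ℕ) : ∀ r, (G F s r : ℝ) ≤ (Fintype.card F : ℝ) ^ (s * r) := by
  intro r
  induction r generalizing s with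
  | zero => simp [G_zero_right]
  | succ r ih =>
    rcases s with _ | s
    · rw [G_eq_zero (by omega)]
      simp
    · have e1 := G_succ_real (F := F) s r
      have hq2 : (2 : ℝ) ≤ Fintype.card F := by exact_mod_cast two_le_card
      have h1 : (1 : ℝ) ≤ (Fintype.card F : ℝ) ^ (r + 1) - 1 := by
        have : (2 : ℝ) ≤ (Fintype.card F : ℝ) ^ (r + 1) := by
          calc (2 : ℝ) ≤ Fintype.card F := hq2
            _ = (Fintype.card F : ℝ) ^ 1 := (pow_one _).symm
            _ ≤ _ := pow_le_pow_right₀ (by linarith) (by omega)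
        linarith
      calc (G F (s + 1) (r + 1) : ℝ) ≤
          ((Fintype.card F : ℝ) ^ (r + 1) - 1) * G F (s + 1) (r + 1) :=
            le_mul_of_one_le_left (Nat.cast_nonneg _) h1
        _ = ((Fintype.card F : ℝ) ^ (s + 1) - 1) * G F s r := e1
        _ ≤ (Fintype.card F : ℝ) ^ (s + 1) * (Fintype.card F : ℝ) ^ (s * r) :=
            mul_le_mul (by linarith) (ih s) (Nat.cast_nonneg _) (by positivity)
        _ ≤ (Fintype.card F : ℝ) ^ ((s + 1) * (r + 1)) := by
            rw [← pow_add]
            exact pow_le_pow_right₀ (by linarith) (by ring_nf; omega)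

theorem G_pos {n k : ℕ} (h : k ≤ n) : 0 < G F n k := by
  obtain ⟨a, rfl⟩ : ∃ a, n = a + k := ⟨n - k, by omega⟩
  have h1 := G_steps (F := F) a 0 k
  rw [add_zero, zero_add, G_zero_right] at h1
  have : (0 : ℝ) < G F (a + k) k := by
    refine lt_of_lt_of_le ?_ h1
    have h : (2 : ℝ) ≤ Fintype.card F := by exact_mod_cast two_le_card
    positivity
  exact_mod_cast this

end

end Pool.Agent.Q227.RC
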