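import Pool.Agent.Q227.RC.Gr

/-!
# Counting invariant subspaces of a linear map
-/

set_option autoImplicit false
set_option linter.unusedSectionVars false
set_option linter.style.haveILetI false

namespace Pool.Agent.Q227.RC

open Module

variable {F : Type} [Field F] [Fintype F] {V : Type} [AddCommGroup V] [Module F V] [Finite V]

/-- The number of `k`-dimensional subspaces `C ≥ D` with `T C ≤ C`. -/
noncomputable def inv (T : V →ₗ[F] V) (k : ℕ) (D : Submodule F V) : ℕ :=
  cnt fun C => (finrank F C = k ∧ C.map T ≤ C) ∧ D ≤ C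

theorem one_le_q : (1 : ℝ) ≤ Fintype.card F := by
  have h : (2 : ℝ) ≤ Fintype.card F := by exact_mod_cast two_le_card
  linarith

theorem above_le {a k : ℕ} (hV : finrank F V = a + k) (D : Submodule F V) :
    (cnt (fun C : Submodule F V => finrank F C = k ∧ D ≤ C) : ℝ) *
      (Fintype.card F : ℝ) ^ (a * finrank F D) ≤ G F (a + k) k := by
  haveI : FiniteDimensional F V := Module.Finite.of_finite
  by_cases h : finrank F D ≤ k
  · obtain ⟨j, hj⟩ : ∃ j, k = j + finrank F D := ⟨k - finrank F D, by omega⟩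
    have h1 := cnt_above D j
    rw [← hj, hV] at h1
    have e : a + k - finrank F D = a + j := by omega
    rw [h1, e]
    have h2 := G_steps (F := F) a j (finrank F D)
    rwa [← hj] at h2
  · have : cnt (fun C : Submodule F V => finrank F C = k ∧ D ≤ C) = 0 := by
      rw [cnt, Nat.card_eq_zero]
      left
      refine ⟨fun C => h ?_⟩
      rw [← C.2.1]
      exact Submodule.finrank_mono C.2.2
    rw [this]
    simp

theorem below_le {n k c : ℕ} (hV : finrank F V = n) (H : Submodule F V)
    (hH : finrank F H + c ≤ n) :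
    (cnt (fun C : Submodule F V => finrank F C = k ∧ C ≤ H) : ℝ) *
      (Fintype.card F : ℝ) ^ (k * c) ≤ G F n k := by
  rw [cnt_below]
  have h := G_below (F := F) (n - finrank F H) (finrank F H) k
  have e : finrank F H + (n - finrank F H) = n := by omega
  rw [e] at h
  refine le_trans ?_ h
  refine mul_le_mul_of_nonneg_left ?_ (Nat.cast_nonneg _)
  exact pow_le_pow_right₀ one_le_q (Nat.mul_le_mul_left _ (by omega))

/-! ### Maps close to a scalar -/

/-- If `T - c` has rank `s`, which is small, then few subspaces are invariant. -/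
theorem caseA {a k s μ : ℕ} (hV : finrank F V = a + k) (T : V →ₗ[F] V) (c : F)
    (hs : finrank F (LinearMap.range (T - c • LinearMap.id)) = s) (ha : s + 4 * μ ≤ a)
    (hk : s + 4 * μ ≤ k) :
    (inv T k ⊥ : ℝ) * (Fintype.card F : ℝ) ^ (2 * μ * s) ≤ (s + 1) * G F (a + k) k := by
  classical
  haveI : FiniteDimensional F V := Module.Finite.of_finite
  set N := T - c • LinearMap.id with hN
  have hq : (0 : ℝ) < Fintype.card F := lt_of_lt_of_le one_pos one_le_q
  letI : Fintype (Submodule F V) := Fintype.ofFinite _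
  have hmap : ∀ C : Submodule F V, C.map T ≤ C → C.map N ≤ C := by
    intro C hC
    rintro _ ⟨x, hx, rfl⟩
    have h1 : T x ∈ C := hC ⟨x, hx, rfl⟩
    have h2 : N x = T x - c • x := by simp [hN]
    rw [h2]
    exact C.sub_mem h1 (C.smul_mem c hx)
  have h1 : inv T k ⊥ ≤ ∑ r ∈ Finset.range (s + 1),
      ∑ W ∈ Finset.univ.filter (fun W : Submodule F V =>
        finrank F W = r ∧ W ≤ LinearMap.range N),
        cnt (fun C : Submodule F V => finrank F C = k ∧ W ≤ C ∧ C ≤ W.comap N) := by
    have h2 := cnt_exists_le (p := fun C : Submodule F V => (finrank F C = k ∧ C.map T ≤ C) ∧ ⊥ ≤ C)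
      ((Finset.range (s + 1)).sigma fun r => Finset.univ.filter (fun W : Submodule F V =>
        finrank F W = r ∧ W ≤ LinearMap.range N))
      (fun x C => finrank F C = k ∧ x.2 ≤ C ∧ C ≤ x.2.comap N) (by
        rintro C ⟨⟨hC1, hC2⟩, -⟩
        refine ⟨⟨finrank F (C.map N), C.map N⟩, ?_, hC1, hmap C hC2, Submodule.le_comap_map N C⟩
        simp only [Finset.mem_sigma, Finset.mem_range, Finset.mem_filter, Finset.mem_univ,
          true_and]
        have h3 : C.map N ≤ LinearMap.range N := LinearMap.map_le_range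
        exact ⟨Nat.lt_succ_of_le (hs ▸ Submodule.finrank_mono h3), h3⟩)
    rwa [Finset.sum_sigma] at h2
  have h2 : ∀ r ∈ Finset.range (s + 1), ∀ W ∈ Finset.univ.filter (fun W : Submodule F V =>
        finrank F W = r ∧ W ≤ LinearMap.range N),
      (cnt (fun C : Submodule F V => finrank F C = k ∧ W ≤ C ∧ C ≤ W.comap N) : ℝ) *
        (Fintype.card F : ℝ) ^ (s * r + 2 * μ * s) ≤ G F (a + k) k := by
    intro r hr W hW
    simp only [Finset.mem_range, Finset.mem_filter, Finset.mem_univ, true_and] at hr hW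
    rcases le_or_gt s (2 * r) with h | h
    · have h3 := above_le hV W
      rw [hW.1] at h3
      refine le_trans ?_ h3
      refine mul_le_mul ?_ (pow_le_pow_right₀ one_le_q ?_) (by positivity) (by positivity)
      · exact Nat.cast_le.2 (cnt_mono fun C hC => ⟨hC.1, hC.2.1⟩)
      · calc s * r + 2 * μ * s ≤ s * r + 2 * μ * (2 * r) :=
            Nat.add_le_add_left (Nat.mul_le_mul_left _ h) _
          _ = (s + 4 * μ) * r := by ring
          _ ≤ a * r := Nat.mul_le_mul_right _ ha
    · have h4 := finrank_comap_le N W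
      have h5 := LinearMap.finrank_range_add_finrank_ker N
      rw [hs, hV] at h5
      have h3 := below_le (k := k) (c := s - r) hV (W.comap N) (by omega)
      refine le_trans ?_ h3
      refine mul_le_mul ?_ (pow_le_pow_right₀ one_le_q ?_) (by positivity) (by positivity)
      · exact Nat.cast_le.2 (cnt_mono fun C hC => ⟨hC.1, hC.2.2⟩)
      · obtain ⟨t, ht⟩ : ∃ t, s = r + t := ⟨s - r, by omega⟩
        have e : s - r = t := by omega
        rw [e]
        have hrt : r ≤ t := by omega
        calc s * r + 2 * μ * s ≤ s * t + 2 * μ * (2 * t) :=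
              Nat.add_le_add (Nat.mul_le_mul_left _ hrt) (Nat.mul_le_mul_left _ (by omega))
          _ = (s + 4 * μ) * t := by ring
          _ ≤ k * t := Nat.mul_le_mul_right _ hk
  have h3 : ∀ r, ((Finset.univ.filter (fun W : Submodule F V =>
        finrank F W = r ∧ W ≤ LinearMap.range N)).card : ℝ) ≤
        (Fintype.card F : ℝ) ^ (s * r) := by
    intro r
    have h4 := cnt_below (LinearMap.range N) r
    rw [hs] at h4
    have h5 := G_le (F := F) s r
    rw [← h4, cnt_eq] at h5
    convert h5
  have h4 : (inv T k ⊥ : ℝ) ≤ ∑ r ∈ Finset.range (s + 1), (G F (a + k) k : ℝ) *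
      ((Fintype.card F : ℝ) ^ (2 * μ * s))⁻¹ := by
    refine le_trans (Nat.cast_le.2 h1) ?_
    rw [Nat.cast_sum]
    refine Finset.sum_le_sum fun r hr => ?_
    rw [Nat.cast_sum]
    have h5 : ∀ W ∈ Finset.univ.filter (fun W : Submodule F V =>
        finrank F W = r ∧ W ≤ LinearMap.range N),
        (cnt (fun C : Submodule F V => finrank F C = k ∧ W ≤ C ∧ C ≤ W.comap N) : ℝ) ≤
          (G F (a + k) k : ℝ) * ((Fintype.card F : ℝ) ^ (s * r + 2 * μ * s))⁻¹ := by
      intro W hW
      rw [← div_eq_mul_inv, le_div_iff₀ (by positivity)]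
      exact h2 r hr W hW
    refine le_trans (Finset.sum_le_sum h5) ?_
    rw [Finset.sum_const, nsmul_eq_mul]
    calc ((Finset.univ.filter (fun W : Submodule F V =>
          finrank F W = r ∧ W ≤ LinearMap.range N)).card : ℝ) *
          ((G F (a + k) k : ℝ) * ((Fintype.card F : ℝ) ^ (s * r + 2 * μ * s))⁻¹) ≤
          (Fintype.card F : ℝ) ^ (s * r) *
          ((G F (a + k) k : ℝ) * ((Fintype.card F : ℝ) ^ (s * r + 2 * μ * s))⁻¹) :=
          mul_le_mul_of_nonneg_right (h3 r) (by positivity)
      _ = (G F (a + k) k : ℝ) * ((Fintype.card F : ℝ) ^ (2 * μ * s))⁻¹ := by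
          rw [pow_add]
          field_simp
  rw [Finset.sum_const, Finset.card_range, nsmul_eq_mul] at h4
  have hp : (0 : ℝ) < (Fintype.card F : ℝ) ^ (2 * μ * s) := by positivity
  calc (inv T k ⊥ : ℝ) * (Fintype.card F : ℝ) ^ (2 * μ * s) ≤
        (((s + 1 : ℕ) : ℝ) * ((G F (a + k) k : ℝ) *
          ((Fintype.card F : ℝ) ^ (2 * μ * s))⁻¹)) * (Fintype.card F : ℝ) ^ (2 * μ * s) :=
        mul_le_mul_of_nonneg_right h4 hp.le
    _ = (s + 1) * G F (a + k) k := by
        push_cast
        field_simp

/-! ### Maps far from all scalars -/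

theorem card_filter_mem [Fintype V] (D : Submodule F V) [DecidablePred fun g : V => g ∈ D] :
    (Finset.univ.filter (fun g : V => g ∈ D)).card = Fintype.card F ^ finrank F D := by
  rw [← card_sub, Nat.card_eq_fintype_card, Fintype.card_subtype]

/-- One step of the exposure of a random invariant subspace. -/
theorem stepB {a k s : ℕ} (hV : finrank F V = a + k) (T : V →ₗ[F] V)
    (hs : ∀ c : F, s ≤ finrank F (LinearMap.range (T - c • LinearMap.id)))
    (D : Submodule F V) {M : ℝ} (hM : 0 ≤ M)
    (h : ∀ D' : Submodule F V, D ≤ D' → finrank F D' ≤ finrank F D + 2 →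
      (inv T k D' : ℝ) * (Fintype.card F : ℝ) ^ (a * finrank F D') ≤ M) :
    (inv T k D : ℝ) * (Fintype.card F : ℝ) ^ (a * finrank F D) ≤
      (((Fintype.card F : ℝ) ^ a)⁻¹ +
        (Fintype.card F : ℝ) ^ (finrank F D + 1) * ((Fintype.card F : ℝ) ^ s)⁻¹ +
        2 * ((Fintype.card F : ℝ) ^ finrank F D * ((Fintype.card F : ℝ) ^ k)⁻¹)) * M := by
  classical
  haveI : FiniteDimensional F V := Module.Finite.of_finite
  letI : Fintype V := Fintype.ofFinite _
  obtain ⟨q, hqdef⟩ : ∃ q : ℝ, q = Fintype.card F := ⟨_, rfl⟩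
  have hq1 : 1 ≤ q := hqdef ▸ one_le_q
  have hq0 : 0 < q := lt_of_lt_of_le one_pos hq1
  set d := finrank F D with hd
  let E : V → Submodule F V := fun g => D ⊔ Submodule.span F {g, T g}
  have hE1 : ∀ g, D ≤ E g := fun g => le_sup_left
  have hE2 : ∀ g, finrank F (E g) ≤ d + 2 := by
    intro g
    refine (Submodule.finrank_add_le_finrank_add_finrank _ _).trans ?_
    have : finrank F (Submodule.span F ({g, T g} : Set V)) ≤ 2 := by
      have h2 := finrank_span_finset_le_card (R := F) ({g, T g} : Finset V)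
      have h3 : ({g, T g} : Finset V).card ≤ 2 := Finset.card_le_two
      rw [Finset.coe_pair] at h2
      exact h2.trans h3
    omega
  have hg : ∀ g, g ∈ E g := fun g =>
    (le_sup_right : _ ≤ E g) (Submodule.subset_span (by simp))
  have hTg : ∀ g, T g ∈ E g := fun g =>
    (le_sup_right : _ ≤ E g) (Submodule.subset_span (by simp))
  -- double counting
  have h1 : inv T k D * Fintype.card F ^ k ≤ ∑ g : V, inv T k (E g) := by
    rw [inv, double_count (k := k) (fun C hC => hC.1.1)]
    refine Finset.sum_le_sum fun g _ => cnt_mono ?_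
    rintro C ⟨⟨⟨h1, h2⟩, h3⟩, h4⟩
    refine ⟨⟨h1, h2⟩, sup_le h3 ?_⟩
    rw [Submodule.span_le]
    rintro x (rfl | rfl)
    · exact h4
    · exact h2 ⟨g, h4, rfl⟩
  -- the exceptional vectors
  have hc1 : (Finset.univ.filter (fun g : V => finrank F (E g) ≤ d)).card ≤
      Fintype.card F ^ d := by
    rw [hd, ← card_filter_mem D]
    refine Finset.card_le_card fun g hgm => ?_
    simp only [Finset.mem_filter, Finset.mem_univ, true_and] at hgm ⊢
    have := Submodule.eq_of_le_of_finrank_le (hE1 g) hgm
    rw [this]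
    exact hg g
  have hc2 : (Finset.univ.filter (fun g : V => finrank F (E g) ≤ d + 1)).card ≤
      Fintype.card F * Fintype.card F ^ (a + k - s + d) + Fintype.card F ^ d := by
    have hsub : Finset.univ.filter (fun g : V => finrank F (E g) ≤ d + 1) ⊆
        (Finset.univ.biUnion fun c : F =>
          Finset.univ.filter (fun g : V => g ∈ D.comap (T - c • LinearMap.id))) ∪
          Finset.univ.filter (fun g : V => g ∈ D) := by
      intro g hgm
      simp only [Finset.mem_filter, Finset.mem_univ, true_and] at hgm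
      rw [Finset.mem_union]
      by_cases hgD : g ∈ D
      · right
        simpa using hgD
      · left
        have h3 : D ⊔ Submodule.span F {g} ≤ E g := by
          refine sup_le (hE1 g) ?_
          rw [Submodule.span_singleton_le_iff_mem]
          exact hg g
        have h4 : d < finrank F ↥(D ⊔ Submodule.span F {g}) := by
          refine Submodule.finrank_lt_finrank_of_lt (lt_of_le_of_ne le_sup_left ?_)
          intro h5
          apply hgD
          rw [h5]
          exact (le_sup_right : Submodule.span F {g} ≤ _) (Submodule.mem_span_singleton_self g)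
        have h5 := Submodule.eq_of_le_of_finrank_le h3 (by omega)
        have h6 := hTg g
        rw [← h5, Submodule.mem_sup] at h6
        obtain ⟨y, hy, z, hz, hyz⟩ := h6
        obtain ⟨c, rfl⟩ := Submodule.mem_span_singleton.1 hz
        simp only [Finset.mem_biUnion, Finset.mem_filter, Finset.mem_univ, true_and,
          Submodule.mem_comap]
        refine ⟨c, ?_⟩
        have : (T - c • (LinearMap.id : V →ₗ[F] V)) g = y := by
          simp [← hyz]
        rw [this]
        exact hy
    refine (Finset.card_le_card hsub).trans ((Finset.card_union_le _ _).trans ?_)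
    refine Nat.add_le_add ?_ (card_filter_mem D).le
    refine Finset.card_biUnion_le.trans ?_
    have : ∀ c ∈ (Finset.univ : Finset F),
        (Finset.univ.filter (fun g : V => g ∈ D.comap (T - c • LinearMap.id))).card ≤
          Fintype.card F ^ (a + k - s + d) := by
      intro c _
      rw [card_filter_mem]
      refine Nat.pow_le_pow_right Fintype.card_pos ?_
      refine (finrank_comap_le _ _).trans ?_
      have h5 := LinearMap.finrank_range_add_finrank_ker (T - c • LinearMap.id)
      have h6 := hs c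
      omega
    refine (Finset.sum_le_sum this).trans ?_
    rw [Finset.sum_const, Finset.card_univ, smul_eq_mul]
  -- the weights
  have hw : ∀ g, (inv T k (E g) : ℝ) * q ^ (a * d) ≤
      M * ((q ^ (2 * a))⁻¹ + (if finrank F (E g) ≤ d + 1 then (q ^ a)⁻¹ else 0) +
        (if finrank F (E g) ≤ d then 1 else 0)) := by
    intro g
    have h2 := h (E g) (hE1 g) (hE2 g)
    rw [← hqdef] at h2
    have h3 : d ≤ finrank F (E g) := Submodule.finrank_mono (hE1 g)
    obtain ⟨e, he⟩ : ∃ e, finrank F (E g) = d + e := ⟨_, (Nat.add_sub_cancel' h3).symm⟩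
    have he2 : e ≤ 2 := by
      have := hE2 g
      omega
    rw [he, mul_add, pow_add, ← mul_assoc] at h2
    have h4 : (inv T k (E g) : ℝ) * q ^ (a * d) ≤ M * (q ^ (a * e))⁻¹ := by
      rw [← div_eq_mul_inv, le_div_iff₀ (by positivity)]
      exact h2
    refine h4.trans (mul_le_mul_of_nonneg_left ?_ hM)
    rw [he]
    have hp1 : (0 : ℝ) ≤ (q ^ (2 * a))⁻¹ := by positivity
    have hp2 : (0 : ℝ) ≤ (q ^ a)⁻¹ := by positivity
    interval_cases e
    · rw [if_pos (by omega), if_pos (by omega), Nat.mul_zero, pow_zero, inv_one]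
      linarith
    · rw [if_pos (by omega), if_neg (by omega), Nat.mul_one]
      linarith
    · have e1 : a * 2 = 2 * a := by ring
      rw [if_neg (by omega), if_neg (by omega), e1]
      linarith
  -- summing up
  have hsum : (inv T k D : ℝ) * q ^ k * q ^ (a * d) ≤
      M * (q ^ (a + k) * (q ^ (2 * a))⁻¹ + (q * q ^ (a + k - s + d) + q ^ d) * (q ^ a)⁻¹ +
        q ^ d) := by
    have h2 : (inv T k D : ℝ) * q ^ k ≤ ∑ g : V, (inv T k (E g) : ℝ) := by
      rw [hqdef]
      exact_mod_cast h1
    calc (inv T k D : ℝ) * q ^ k * q ^ (a * d) ≤ (∑ g : V, (inv T k (E g) : ℝ)) * q ^ (a * d) :=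
          mul_le_mul_of_nonneg_right h2 (by positivity)
      _ = ∑ g : V, (inv T k (E g) : ℝ) * q ^ (a * d) := Finset.sum_mul _ _ _
      _ ≤ ∑ g : V, M * ((q ^ (2 * a))⁻¹ +
          (if finrank F (E g) ≤ d + 1 then (q ^ a)⁻¹ else 0) +
          (if finrank F (E g) ≤ d then 1 else 0)) := Finset.sum_le_sum fun g _ => hw g
      _ = M * ((Fintype.card V : ℝ) * (q ^ (2 * a))⁻¹ +
          ((Finset.univ.filter (fun g : V => finrank F (E g) ≤ d + 1)).card : ℝ) * (q ^ a)⁻¹ +
          ((Finset.univ.filter (fun g : V => finrank F (E g) ≤ d)).card : ℝ)) := by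
          rw [← Finset.mul_sum, Finset.sum_add_distrib, Finset.sum_add_distrib,
            Finset.sum_const, Finset.card_univ, nsmul_eq_mul, ← Finset.sum_filter,
            Finset.sum_const, nsmul_eq_mul, ← Finset.sum_filter, Finset.sum_const,
            nsmul_eq_mul, mul_one]
      _ ≤ _ := by
          refine mul_le_mul_of_nonneg_left ?_ hM
          refine add_le_add (add_le_add ?_ ?_) ?_
          · rw [Module.card_eq_pow_finrank (K := F) (V := V), hV, hqdef]
            push_cast
            exact le_rfl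
          · refine mul_le_mul_of_nonneg_right ?_ (by positivity)
            rw [hqdef]
            exact_mod_cast hc2
          · rw [hqdef]
            exact_mod_cast hc1
  have hsn : s ≤ a + k := by
    have h5 := LinearMap.finrank_range_add_finrank_ker (T - (0 : F) • LinearMap.id)
    have h6 := hs 0
    omega
  have hk0 : (0 : ℝ) < q ^ k := by positivity
  rw [← hqdef]
  have e1 : q ^ (a + k - s + d) = q ^ a * q ^ k * (q ^ s)⁻¹ * q ^ d := by
    rw [eq_comm, ← pow_add, pow_add _ (a + k - s) d]
    congr 1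
    rw [← div_eq_mul_inv, div_eq_iff (by positivity), ← pow_add]
    congr 1
    omega
  rw [e1] at hsum
  have e2 : M * (q ^ (a + k) * (q ^ (2 * a))⁻¹ +
      (q * (q ^ a * q ^ k * (q ^ s)⁻¹ * q ^ d) + q ^ d) * (q ^ a)⁻¹ + q ^ d) =
      ((q ^ a)⁻¹ + q ^ (d + 1) * (q ^ s)⁻¹ + q ^ d * (q ^ k)⁻¹ * (q ^ a)⁻¹ +
        q ^ d * (q ^ k)⁻¹) * M * q ^ k := by
    rw [pow_add, two_mul, pow_add, pow_succ]
    field_simp
    ring
  rw [e2] at hsum
  have h7 : (inv T k D : ℝ) * q ^ (a * d) ≤
      ((q ^ a)⁻¹ + q ^ (d + 1) * (q ^ s)⁻¹ + q ^ d * (q ^ k)⁻¹ * (q ^ a)⁻¹ +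
        q ^ d * (q ^ k)⁻¹) * M := by
    refine le_of_mul_le_mul_right ?_ hk0
    calc (inv T k D : ℝ) * q ^ (a * d) * q ^ k = (inv T k D : ℝ) * q ^ k * q ^ (a * d) := by ring
      _ ≤ _ := hsum
  refine h7.trans (mul_le_mul_of_nonneg_right ?_ hM)
  have h8 : q ^ d * (q ^ k)⁻¹ * (q ^ a)⁻¹ ≤ q ^ d * (q ^ k)⁻¹ := by
    refine mul_le_of_le_one_right (by positivity) ?_
    exact inv_le_one_of_one_le₀ (one_le_pow₀ hq1)
  linarith

/-- If `T - c` has large rank for all `c`, then very few subspaces are invariant. -/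
theorem caseB {a k s J : ℕ} (hV : finrank F V = a + k) (T : V →ₗ[F] V)
    (hs : ∀ c : F, s ≤ finrank F (LinearMap.range (T - c • LinearMap.id))) {θ : ℝ}
    (hθ : ((Fintype.card F : ℝ) ^ a)⁻¹ +
        (Fintype.card F : ℝ) ^ (2 * J + 1) * ((Fintype.card F : ℝ) ^ s)⁻¹ +
        2 * ((Fintype.card F : ℝ) ^ (2 * J) * ((Fintype.card F : ℝ) ^ k)⁻¹) ≤ θ) :
    (inv T k ⊥ : ℝ) ≤ θ ^ J * G F (a + k) k := by
  have hq1 : (1 : ℝ) ≤ Fintype.card F := one_le_q
  have hθ0 : 0 ≤ θ := le_trans (by positivity) hθ
  have key : ∀ j, ∀ D : Submodule F V, finrank F D + 2 * j ≤ 2 * J →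
      (inv T k D : ℝ) * (Fintype.card F : ℝ) ^ (a * finrank F D) ≤ θ ^ j * G F (a + k) k := by
    intro j
    induction j with
    | zero =>
      intro D _
      rw [pow_zero, one_mul]
      refine le_trans ?_ (above_le hV D)
      refine mul_le_mul_of_nonneg_right ?_ (by positivity)
      exact Nat.cast_le.2 (cnt_mono fun C hC => ⟨hC.1.1, hC.2⟩)
    | succ j ih =>
      intro D hD
      refine (stepB hV T hs D (M := θ ^ j * G F (a + k) k) (by positivity)
        fun D' _ h2 => ih D' (by omega)).trans ?_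
      have e : θ ^ (j + 1) * (G F (a + k) k : ℝ) = θ * (θ ^ j * G F (a + k) k) := by
        rw [pow_succ]
        ring
      rw [e]
      refine mul_le_mul_of_nonneg_right (le_trans ?_ hθ) (by positivity)
      refine add_le_add (add_le_add le_rfl ?_) ?_
      · refine mul_le_mul_of_nonneg_right ?_ (by positivity)
        exact pow_le_pow_right₀ hq1 (by omega)
      · refine mul_le_mul_of_nonneg_left ?_ (by norm_num)
        refine mul_le_mul_of_nonneg_right ?_ (by positivity)
        exact pow_le_pow_right₀ hq1 (by omega)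
  have := key J ⊥ (by simp)
  simpa using this

end Pool.Agent.Q227.RC
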