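import Pool.Agent.Q227.RC.TRC

/-!
Project RC of helper120, job LOX: laws of the limit, construction.
-/

set_option autoImplicit false

namespace Pool.Agent.Q227.RC

open Finset MeasureTheory Filter Pool.Agent.Q120.ET Pool.Agent.Q120.ME Pool.Agent.Q120.RC
open Pool.Agent.Q120.LW (J_MIX)
open scoped Topology ENNReal

/-- The lower and upper cutoffs. -/
noncomputable def lc (n : ℕ) : ℝ := Real.log n ^ (-(1 / 2) : ℝ)
noncomputable def uc (κ : ℝ) (n : ℕ) : ℝ := Real.log n ^ (κ / 4)

/-- The multipliers. -/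
noncomputable def va (κ : ℝ) (n₁ : ℕ) (a : ℝ) (n : ℕ) : ℝ :=
  if n₁ ≤ n then max (lc n) (min (a / (κ + 1)) (uc κ n)) else 1

theorem uc_sq_p {κ c : ℝ} {p : ℕ → ℝ} (hκ : 0 < κ) (hM : Mod κ c p) :
    Tendsto (fun n : ℕ => (uc κ n ^ 2 + 1) * p n) atTop (𝓝 0) := by
  have h1 : Tendsto (fun n : ℕ => Real.log n ^ (κ / 2)) atTop atTop :=
    (tendsto_rpow_atTop (by linarith)).comp log_top
  have h2 := (hM.lim.div_atTop h1).add (p_zero hκ hM)
  rw [add_zero] at h2
  refine h2.congr' ?_
  filter_upwards [log_top.eventually_gt_atTop 0] with n hn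
  have e1 : uc κ n ^ 2 = Real.log n ^ (κ / 2) := by
    unfold uc
    rw [← Real.rpow_natCast, ← Real.rpow_mul hn.le]
    congr 1
    push_cast
    ring
  have e2 : Real.log n ^ κ = Real.log n ^ (κ / 2) * Real.log n ^ (κ / 2) := by
    rw [← Real.rpow_add hn]
    congr 1
    ring
  have e3 : 0 < Real.log n ^ (κ / 2) := Real.rpow_pos_of_pos hn _
  rw [e1, e2]
  field_simp

/-- Job LOX. -/
theorem t_LOX (hSEQ : J_SEQ) (hCRE : J_CRE) (hABU : J_ABU) (hASY : J_ASY) (hTRC : J_TRC)
    (hKLB : J_KLB) (hMIX : J_MIX) : J_LOX := by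
  classical
  intro κ c p δ hκ hc hM hδ ν _ hν hνδ
  have hp : ∀ n, 0 < p n ∧ p n < 1 := fun n => ⟨hM.pos n, hM.lt_one n⟩
  have hK0 : 0 < κ + 1 := by linarith
  set b : ℕ → ℝ := fun n => 2 * b0 κ c n with hb
  -- the starting point
  have hev : ∀ᶠ n : ℕ in atTop, 1 ≤ Real.log n ∧ p n < 1 / 2 ∧ (uc κ n ^ 2 + 1) * p n < 1 / 2 := by
    filter_upwards [log_top.eventually_ge_atTop 1,
      (p_zero hκ hM).eventually (gt_mem_nhds (show (0 : ℝ) < 1 / 2 by norm_num)),
      (uc_sq_p hκ hM).eventually (gt_mem_nhds (show (0 : ℝ) < 1 / 2 by norm_num))] with n h1 h2 h3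
    exact ⟨h1, h2, h3⟩
  obtain ⟨n₁, hn₁⟩ := eventually_atTop.1 hev
  have hlc : ∀ n, n₁ ≤ n → 0 < lc n ∧ lc n ≤ 1 := by
    intro n hn
    obtain ⟨h1, -, -⟩ := hn₁ n hn
    refine ⟨Real.rpow_pos_of_pos (by linarith) _, ?_⟩
    exact Real.rpow_le_one_of_one_le_of_nonpos h1 (by norm_num)
  have huc : ∀ n, n₁ ≤ n → 1 ≤ uc κ n := by
    intro n hn
    obtain ⟨h1, -, -⟩ := hn₁ n hn
    exact Real.one_le_rpow h1 (by positivity)
  set v : ℝ → ℕ → ℝ := fun a => va κ n₁ a with hvdef
  have hv1 : ∀ a n, n₁ ≤ n → v a n = max (lc n) (min (a / (κ + 1)) (uc κ n)) := fun a n hn =>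
    if_pos hn
  have hv2 : ∀ a n, ¬ n₁ ≤ n → v a n = 1 := fun a n hn => if_neg hn
  have hvlc : ∀ a n, n₁ ≤ n → lc n ≤ v a n := fun a n hn => by
    rw [hv1 a n hn]; exact le_max_left _ _
  have hvuc : ∀ a n, n₁ ≤ n → v a n ≤ uc κ n := fun a n hn => by
    rw [hv1 a n hn]
    exact max_le ((hlc n hn).2.trans (huc n hn)) (min_le_right _ _)
  have hTK : ∀ a, TiltOK p (v a) := by
    intro a
    refine ⟨fun n => ?_, fun n => ?_, ?_⟩
    · by_cases hn : n₁ ≤ n
      · exact lt_of_lt_of_le (hlc n hn).1 (hvlc a n hn)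
      · rw [hv2 a n hn]; exact one_pos
    · by_cases hn : n₁ ≤ n
      · obtain ⟨-, -, h3⟩ := hn₁ n hn
        have h4 := hvuc a n hn
        have h5 := huc n hn
        have h6 := mul_le_mul_of_nonneg_right h4 (hp n).1.le
        have h7 : uc κ n * p n ≤ (uc κ n ^ 2 + 1) * p n :=
          mul_le_mul_of_nonneg_right (by nlinarith) (hp n).1.le
        linarith
      · rw [hv2 a n hn, one_mul]; exact (hp n).2
    · filter_upwards [eventually_ge_atTop n₁] with n hn
      exact hvlc a n hn
  have hvlim : ∀ a, 0 ≤ a → Tendsto (v a) atTop (𝓝 (a / (κ + 1))) := by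
    intro a ha
    have h1 : Tendsto lc atTop (𝓝 0) :=
      (tendsto_rpow_neg_atTop (by norm_num : (0 : ℝ) < 1 / 2)).comp log_top
    have h2 : Tendsto (uc κ) atTop atTop :=
      (tendsto_rpow_atTop (by positivity)).comp log_top
    have h3 : Tendsto (fun n => max (lc n) (a / (κ + 1))) atTop (𝓝 (max 0 (a / (κ + 1)))) :=
      h1.max tendsto_const_nhds
    rw [max_eq_right (by positivity)] at h3
    refine h3.congr' ?_
    filter_upwards [eventually_ge_atTop n₁, h2.eventually_ge_atTop (a / (κ + 1))] with n hn hn2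
    rw [hv1 a n hn, min_eq_left hn2]
  -- the construction
  have hrm : ∀ n T, Measurable (fun a => tilt p b (v a) n T) := by
    intro n T
    by_cases h : up (T : Set ℕ) n ∧ (mx (T : Set ℕ) n : ℝ) ≤ b n
    · have e : (fun a => tilt p b (v a) n T) = fun a => v a n * p n := by
        funext a
        exact tilt_pos_eq h.1 h.2
      rw [e]
      by_cases hn : n₁ ≤ n
      · have e2 : (fun a => v a n * p n) = fun a =>
            max (lc n) (min (a / (κ + 1)) (uc κ n)) * p n := by
          funext a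
          rw [hv1 a n hn]
        rw [e2]
        exact (measurable_const.max ((measurable_id.div_const _).min measurable_const)).mul_const _
      · have e2 : (fun a => v a n * p n) = fun _ => 1 * p n := by
          funext a
          rw [hv2 a n hn]
        rw [e2]
        exact measurable_const
    · have e : (fun a => tilt p b (v a) n T) = fun _ => p n := by
        funext a
        exact tilt_neg_eq h
      rw [e]
      exact measurable_const
  obtain ⟨Ω', mΩ', μ', hμ', A, hmeas, hlaw⟩ := hSEQ ℝ (fun a => tilt p b (v a)) hrm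
    (fun a n T => tilt_bd hp (hTK a).pos (hTK a).lt_one n T)
  have hrand : ∀ a, IsRandomSet (A a) := fun a n => measurable_prodMk_left (hmeas n)
  have hTil : ∀ a, Tilted κ c p (v a) μ' (A a) := fun a => ⟨hrand a, fun N T hT => hlaw a N T hT⟩
  -- the bound for incb
  have hinc : ∀ᶠ x : ℕ in atTop, ∀ S : Set ℕ, incb p b S x ≤ (2 * (κ + 1) + 1) * Real.log x :=
    incb_ev hABU hASY hκ hc hM (by norm_num) one_pos
  have hinc0 : ∀ (S : Set ℕ) (x : ℕ), 0 ≤ incb p b S x := fun S x =>
    sum_nonneg fun n _ => (hp n).1.le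
  set E : ℝ → ℕ → ℝ := fun a x => ∑ T ∈ (range x).powerset, seqlaw (tilt p b (v a)) x T *
    incb p b (T : Set ℕ) x with hE
  have hr := fun a => tilt_bd (b := b) hp (hTK a).pos (hTK a).lt_one
  have hE0 : ∀ a x, 0 ≤ E a x := fun a x => sum_nonneg fun T _ =>
    mul_nonneg (seqlaw_nonneg (hr a) x T) (hinc0 _ _)
  have hsum1 : ∀ a x, ∑ T ∈ (range x).powerset, seqlaw (tilt p b (v a)) x T = 1 := fun a x =>
    sum_seqlaw (μ := μ') (hrand a) (fun T hT => hlaw a x T hT)
  have hEle : ∀ᶠ x : ℕ in atTop, ∀ a, E a x ≤ (2 * (κ + 1) + 1) * Real.log x := by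
    filter_upwards [hinc] with x hx a
    calc E a x ≤ ∑ T ∈ (range x).powerset, seqlaw (tilt p b (v a)) x T *
          ((2 * (κ + 1) + 1) * Real.log x) :=
          sum_le_sum fun T _ => mul_le_mul_of_nonneg_left (hx _) (seqlaw_nonneg (hr a) x T)
      _ = _ := by rw [← sum_mul, hsum1, one_mul]
  have hEm : ∀ x, Measurable (fun a => E a x) := by
    intro x
    refine Finset.measurable_fun_sum _ fun T _ => Measurable.mul_const ?_ _
    unfold seqlaw
    refine Finset.measurable_fun_prod _ fun n _ => ?_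
    by_cases hn : n ∈ T
    · simp only [if_pos hn]
      exact hrm n _
    · simp only [if_neg hn]
      exact measurable_const.sub (hrm n _)
  -- the function hfun
  have hfm : Measurable (fun a : ℝ => hfun (a / (κ + 1))) := by
    have h1 : Measurable hfun := by
      unfold hfun
      exact ((measurable_id.mul Real.measurable_log).sub measurable_id).add_const 1
    exact h1.comp (measurable_id.div_const _)
  have hae0 : ∀ᵐ a ∂ν, 0 ≤ a := by
    rw [ae_iff]
    have : {a : ℝ | ¬ 0 ≤ a} = Set.Iio 0 := by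
      ext a
      simp
    rw [this]
    exact hν
  have hf0 : ∀ a : ℝ, 0 ≤ a → 0 ≤ hfun (a / (κ + 1)) := fun a ha => hfun_nonneg (by positivity)
  have hKm : Measurable (hK κ) := by
    have : hK κ = fun a => (κ + 1) * hfun (a / (κ + 1)) := by
      funext a
      exact hK_eq κ a hκ
    rw [this]
    exact hfm.const_mul _
  have hKae : 0 ≤ᵐ[ν] hK κ := by
    filter_upwards [hae0] with a ha
    rw [hK_eq κ a hκ]
    exact mul_nonneg hK0.le (hf0 a ha)
  have hKint : Integrable (hK κ) ν := by
    refine ⟨hKm.aestronglyMeasurable, ?_⟩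
    rw [hasFiniteIntegral_iff_ofReal hKae]
    exact lt_of_le_of_lt hνδ ENNReal.ofReal_lt_top
  have hfint : Integrable (fun a => hfun (a / (κ + 1))) ν := by
    have h1 := hKint.const_mul (1 / (κ + 1))
    refine h1.congr (Eventually.of_forall fun a => ?_)
    show 1 / (κ + 1) * hK κ a = _
    rw [hK_eq κ a hκ]
    field_simp
  have hKδ : ∫ a, hK κ a ∂ν ≤ δ := by
    rw [integral_eq_lintegral_of_nonneg_ae hKae hKm.aestronglyMeasurable]
    refine ENNReal.toReal_le_of_le_ofReal hδ hνδ
  -- entropy of the fibres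
  have hcl : ∀ a, 0 ≤ a → ∀ n, n₁ ≤ n → hfun (v a n) ≤ hfun (a / (κ + 1)) := by
    intro a ha n hn
    have h1 := (hlc n hn)
    have h2 := huc n hn
    refine hfun_between ((hTK a).pos n) (by positivity) ?_
    rw [hv1 a n hn]
    rcases lt_or_ge (a / (κ + 1)) (lc n) with h3 | h3
    · rw [min_eq_left (by linarith), max_eq_left h3.le]
      exact mul_nonneg_of_nonpos_of_nonpos (by linarith)
        (Real.log_nonpos h1.1.le h1.2)
    · rcases lt_or_ge (uc κ n) (a / (κ + 1)) with h4 | h4
      · rw [min_eq_right h4.le, max_eq_right (by linarith)]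
        exact mul_nonneg (by linarith) (Real.log_nonneg h2)
      · rw [min_eq_left h4, max_eq_right h3]
        simp
  set g : ℕ → ℝ := fun n => if n₁ ≤ n then (uc κ n ^ 2 + 1) * p n else 0 with hg
  have hg0 : ∀ n, 0 ≤ g n := by
    intro n
    rw [hg]
    dsimp only
    split_ifs
    · have := (hp n).1
      positivity
    · exact le_rfl
  have hglim : Tendsto g atTop (𝓝 0) := by
    refine (uc_sq_p hκ hM).congr' ?_
    filter_upwards [eventually_ge_atTop n₁] with n hn
    rw [hg]
    dsimp only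
    rw [if_pos hn]
  have hklb : ∀ a, 0 ≤ a → ∀ n, kl (v a n * p n) (p n) ≤ hfun (a / (κ + 1)) * p n + g n * p n := by
    intro a ha n
    by_cases hn : n₁ ≤ n
    · obtain ⟨-, h2, -⟩ := hn₁ n hn
      have h3 := hKLB (v a n) (p n) ((hTK a).pos n).le (hp n).1 h2.le ((hTK a).lt_one n).le
      refine h3.trans ?_
      have h4 := mul_le_mul_of_nonneg_left (hcl a ha n hn) (hp n).1.le
      have h5 : v a n ^ 2 ≤ uc κ n ^ 2 := pow_le_pow_left₀ ((hTK a).pos n).le (hvuc a n hn) 2
      have h6 : (v a n ^ 2 + 1) * p n ^ 2 ≤ (uc κ n ^ 2 + 1) * p n ^ 2 :=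
        mul_le_mul_of_nonneg_right (by linarith) (by positivity)
      have h7 : g n = (uc κ n ^ 2 + 1) * p n := if_pos hn
      rw [h7]
      nlinarith
    · rw [hv2 a n hn, one_mul, kl_self (hp n).1 (hp n).2]
      exact add_nonneg (mul_nonneg (hf0 a ha) (hp n).1.le) (mul_nonneg (hg0 n) (hp n).1.le)
  have hbound : ∀ ε : ℝ, 0 < ε → ∀ᶠ x : ℕ in atTop, ∀ a, 0 ≤ a →
      relEnt p μ' (A a) (range x) ≤ hfun (a / (κ + 1)) * E a x + ε * Real.log x := by
    intro ε hε
    set K2 := 2 * (κ + 1) + 1 with hK2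
    have hK20 : 0 < K2 := by positivity
    obtain ⟨N, hN⟩ := eventually_atTop.1
      (hglim.eventually (gt_mem_nhds (show (0 : ℝ) < ε / (2 * K2) by positivity)))
    set C := ∑ n ∈ range N, g n * p n with hC
    have h5 : Tendsto (fun x : ℕ => C / Real.log x) atTop (𝓝 0) :=
      tendsto_const_nhds.div_atTop log_top
    have h6 := h5.eventually (gt_mem_nhds (show (0 : ℝ) < ε / 2 by linarith))
    filter_upwards [hinc, h6, log_top.eventually_gt_atTop 0] with x hx h6 hx0 a ha
    rw [div_lt_iff₀ hx0] at h6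
    rw [relEnt_eq hCRE hp (hTK a).pos (hTK a).lt_one μ' (A a) x (fun T hT => hlaw a x T hT)]
    have h7 : ∀ T : Finset ℕ, ∑ n ∈ Wf b (T : Set ℕ) x, kl (v a n * p n) (p n) ≤
        hfun (a / (κ + 1)) * incb p b (T : Set ℕ) x + ε * Real.log x := by
      intro T
      have h8 : ∑ n ∈ Wf b (T : Set ℕ) x, g n * p n ≤ C + ε / (2 * K2) * incb p b (T : Set ℕ) x := by
        rw [incb_eq, mul_sum]
        have h9 : ∀ n ∈ Wf b (T : Set ℕ) x, g n * p n ≤
            (if n < N then g n * p n else 0) + ε / (2 * K2) * p n := by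
          intro n _
          by_cases hn : n < N
          · rw [if_pos hn]
            have : 0 ≤ ε / (2 * K2) * p n := mul_nonneg (by positivity) (hp n).1.le
            linarith
          · rw [if_neg hn, zero_add]
            exact mul_le_mul_of_nonneg_right (hN n (not_lt.1 hn)).le (hp n).1.le
        refine (sum_le_sum h9).trans ?_
        rw [sum_add_distrib, add_le_add_iff_right, ← sum_filter, hC]
        refine sum_le_sum_of_subset_of_nonneg ?_ fun n _ _ => mul_nonneg (hg0 n) (hp n).1.le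
        intro n hn
        rw [mem_filter] at hn
        exact mem_range.2 hn.2
      have h10 : ε / (2 * K2) * incb p b (T : Set ℕ) x ≤ ε / 2 * Real.log x := by
        have h11 := mul_le_mul_of_nonneg_left (hx (T : Set ℕ))
          (show (0 : ℝ) ≤ ε / (2 * K2) by positivity)
        have h12 : ε / (2 * K2) * (K2 * Real.log x) = ε / 2 * Real.log x := by field_simp
        linarith
      calc ∑ n ∈ Wf b (T : Set ℕ) x, kl (v a n * p n) (p n)
          ≤ ∑ n ∈ Wf b (T : Set ℕ) x, (hfun (a / (κ + 1)) * p n + g n * p n) :=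
            sum_le_sum fun n _ => hklb a ha n
        _ = hfun (a / (κ + 1)) * incb p b (T : Set ℕ) x + ∑ n ∈ Wf b (T : Set ℕ) x, g n * p n := by
            rw [sum_add_distrib, incb_eq, mul_sum]
        _ ≤ _ := by linarith
    calc ∑ T ∈ (range x).powerset, seqlaw (tilt p b (v a)) x T *
          ∑ n ∈ Wf b (T : Set ℕ) x, kl (v a n * p n) (p n)
        ≤ ∑ T ∈ (range x).powerset, seqlaw (tilt p b (v a)) x T *
          (hfun (a / (κ + 1)) * incb p b (T : Set ℕ) x + ε * Real.log x) :=
          sum_le_sum fun T _ => mul_le_mul_of_nonneg_left (h7 T) (seqlaw_nonneg (hr a) x T)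
      _ = hfun (a / (κ + 1)) * E a x + ε * Real.log x *
            ∑ T ∈ (range x).powerset, seqlaw (tilt p b (v a)) x T := by
          rw [hE]
          dsimp only
          rw [mul_sum, mul_sum, ← sum_add_distrib]
          exact sum_congr rfl fun T _ => by ring
      _ = _ := by rw [hsum1, mul_one]
  -- limit of the means
  have hElim : ∀ a, 0 ≤ a → Tendsto (fun x : ℕ => E a x / Real.log x) atTop (𝓝 (κ + 1)) :=
    fun a ha => (hTRC κ c p (v a) (a / (κ + 1)) hκ hc hM (hTK a) (hvlim a ha) Ω' μ' (A a)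
      (hTil a)).2
  have hint : Tendsto (fun x : ℕ => ∫ a, hfun (a / (κ + 1)) * (E a x / Real.log x) ∂ν) atTop
      (𝓝 (∫ a, hfun (a / (κ + 1)) * (κ + 1) ∂ν)) := by
    refine tendsto_integral_filter_of_dominated_convergence
      (fun a => hfun (a / (κ + 1)) * (2 * (κ + 1) + 1)) ?_ ?_ (hfint.mul_const _) ?_
    · exact Eventually.of_forall fun x =>
        (hfm.mul ((hEm x).div_const _)).aestronglyMeasurable
    · filter_upwards [hEle, log_top.eventually_gt_atTop 0] with x hx hx0
      filter_upwards [hae0] with a ha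
      rw [Real.norm_eq_abs, abs_of_nonneg (mul_nonneg (hf0 a ha) (div_nonneg (hE0 a x) hx0.le))]
      refine mul_le_mul_of_nonneg_left ?_ (hf0 a ha)
      rw [div_le_iff₀ hx0]
      exact hx a
    · filter_upwards [hae0] with a ha
      exact (hElim a ha).const_mul _
  have hint2 : ∫ a, hfun (a / (κ + 1)) * (κ + 1) ∂ν ≤ δ := by
    refine le_trans (le_of_eq ?_) hKδ
    refine integral_congr_ae (Eventually.of_forall fun a => ?_)
    show hfun (a / (κ + 1)) * (κ + 1) = hK κ a
    rw [hK_eq κ a hκ]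
    ring
  refine ⟨ℝ × Ω', inferInstance, ν.prod μ', inferInstance, fun z => A z.1 z.2, Prod.fst, ⟨?_, ?_⟩,
    measurable_fst, measurePreserving_fst.map_eq, ?_⟩
  · exact fun n => hmeas n
  · intro ε hε
    have h1 := hbound (ε / 2) (by linarith)
    have h2 := hint.eventually (gt_mem_nhds (show ∫ a, hfun (a / (κ + 1)) * (κ + 1) ∂ν < δ + ε / 2 by
      linarith))
    filter_upwards [h1, h2, log_top.eventually_gt_atTop 0, hEle] with x h1 h2 hx0 h3
    obtain ⟨g1, g2⟩ := hMIX ℝ ν Ω' μ' A hmeas p (range x) (fun n _ => hp n)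
    refine g2.trans ?_
    have hI : Integrable (fun a => hfun (a / (κ + 1)) * E a x) ν := by
      refine Integrable.mono' (hfint.mul_const ((2 * (κ + 1) + 1) * Real.log x))
        (hfm.mul (hEm x)).aestronglyMeasurable ?_
      filter_upwards [hae0] with a ha
      rw [Real.norm_eq_abs, abs_of_nonneg (mul_nonneg (hf0 a ha) (hE0 a x))]
      exact mul_le_mul_of_nonneg_left (h3 a) (hf0 a ha)
    calc ∫ a, relEnt p μ' (A a) (range x) ∂ν
        ≤ ∫ a, (hfun (a / (κ + 1)) * E a x + ε / 2 * Real.log x) ∂ν := by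
          refine integral_mono_ae g1 (hI.add (integrable_const _)) ?_
          filter_upwards [hae0] with a ha
          exact h1 a ha
      _ = ∫ a, hfun (a / (κ + 1)) * E a x ∂ν + ε / 2 * Real.log x := by
          rw [integral_add hI (integrable_const _)]
          simp
      _ = (∫ a, hfun (a / (κ + 1)) * (E a x / Real.log x) ∂ν) * Real.log x +
            ε / 2 * Real.log x := by
          congr 1
          rw [← integral_mul_const]
          refine integral_congr_ae (Eventually.of_forall fun a => ?_)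
          show hfun (a / (κ + 1)) * E a x = hfun (a / (κ + 1)) * (E a x / Real.log x) * Real.log x
          field_simp
      _ ≤ (δ + ε) * Real.log x := by
          have := mul_le_mul_of_nonneg_right h2.le hx0.le
          linarith
  · have hm : MeasurableSet {z : ℝ × Ω' | Tendsto (fun x : ℕ =>
        (recS (A z.1 z.2) x : ℝ) / Real.log x) atTop (𝓝 z.1)} := by
      refine measurableSet_tendsto_fun (fun x => ?_) measurable_fst
      have e : (fun z : ℝ × Ω' => (recS (A z.1 z.2) x : ℝ) / Real.log x) = fun z =>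
          (fun T : Finset ℕ => (recS (T : Set ℕ) x : ℝ) / Real.log x)
            (tr (fun z : ℝ × Ω' => A z.1 z.2) (range x) z) := by
        funext z
        dsimp only
        rw [recS_congr (mem_tr_range (A := fun z : ℝ × Ω' => A z.1 z.2) (ω := z))]
      rw [e]
      exact (int_tr (ν.prod μ') (A := fun z : ℝ × Ω' => A z.1 z.2) hmeas (range x)
        (fun T : Finset ℕ => (recS (T : Set ℕ) x : ℝ) / Real.log x)).1
    rw [Measure.ae_prod_iff_ae_ae hm]
    filter_upwards [hae0] with a ha
    have h1 := (hTRC κ c p (v a) (a / (κ + 1)) hκ hc hM (hTK a) (hvlim a ha) Ω' μ' (A a)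
      (hTil a)).1
    have e : (κ + 1) * (a / (κ + 1)) = a := by field_simp
    rw [e] at h1
    exact h1

end Pool.Agent.Q227.RC
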