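import Pool.Agent.Q227.RC.Mono

/-!
# Random linear codes have only scalar monomial automorphisms
-/

set_option autoImplicit false
set_option linter.unusedSectionVars false
set_option linter.style.haveILetI false

namespace Pool.Agent.Q227.RC

open Module Filter Topology

variable {F : Type} [Field F] [Fintype F]

theorem inv_le_of_dif {a k n μ b : ℕ} (hn : n = a + k) (ha : 8 * μ ≤ a) (hk : 8 * μ ≤ k)
    (d : Fin n → Fˣ) (σ : Equiv.Perm (Fin n)) (c : Fˣ) (hb : (dif d σ c).card = b)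
    (hb2 : b ≤ 4 * μ) :
    (inv (mono d σ) k ⊥ : ℝ) ≤
      G F n k * ((Fintype.card F : ℝ) / (Fintype.card F : ℝ) ^ μ) ^ b := by
  subst hn
  obtain ⟨s, hs⟩ : ∃ s, s = finrank F (LinearMap.range (mono d σ - (c : F) • LinearMap.id)) :=
    ⟨_, rfl⟩
  have h1 := rank_le d σ c
  have h2 := dif_card_le d σ c
  rw [← hs, hb] at h1 h2
  have h3 := caseA (μ := μ) (by rw [Module.finrank_fin_fun]) (mono d σ) (c : F) hs.symm
    (by omega) (by omega)
  have hq : (1 : ℝ) ≤ Fintype.card F := one_le_q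
  have hq2 : (2 : ℝ) ≤ Fintype.card F := by exact_mod_cast two_le_card
  have h4 : (inv (mono d σ) k ⊥ : ℝ) * (Fintype.card F : ℝ) ^ (μ * b) ≤
      (Fintype.card F : ℝ) ^ b * G F (a + k) k := by
    calc (inv (mono d σ) k ⊥ : ℝ) * (Fintype.card F : ℝ) ^ (μ * b) ≤
        (inv (mono d σ) k ⊥ : ℝ) * (Fintype.card F : ℝ) ^ (2 * μ * s) := by
          refine mul_le_mul_of_nonneg_left (pow_le_pow_right₀ hq ?_) (Nat.cast_nonneg _)
          calc μ * b ≤ μ * (2 * s) := Nat.mul_le_mul_left _ h2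
            _ = 2 * μ * s := by ring
      _ ≤ (s + 1) * G F (a + k) k := h3
      _ ≤ (Fintype.card F : ℝ) ^ b * G F (a + k) k := by
          refine mul_le_mul_of_nonneg_right ?_ (Nat.cast_nonneg _)
          have h5 : ((s + 1 : ℕ) : ℝ) ≤ ((2 ^ s : ℕ) : ℝ) := Nat.cast_le.2 Nat.lt_two_pow_self
          push_cast at h5
          calc (s + 1 : ℝ) ≤ 2 ^ s := h5
            _ ≤ (Fintype.card F : ℝ) ^ s := pow_le_pow_left₀ (by norm_num) hq2 s
            _ ≤ _ := pow_le_pow_right₀ hq h1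
  have e : (G F (a + k) k : ℝ) * ((Fintype.card F : ℝ) / (Fintype.card F : ℝ) ^ μ) ^ b =
      ((Fintype.card F : ℝ) ^ b * G F (a + k) k) / (Fintype.card F : ℝ) ^ (μ * b) := by
    rw [div_pow, ← pow_mul]
    ring
  rw [e, le_div_iff₀ (by positivity)]
  exact h4

theorem inv_le_of_far {a k n μ J : ℕ} (hn : n = a + k) (ha : 8 * μ ≤ a) (hk : 8 * μ ≤ k)
    (hJ : 2 * J ≤ μ) (d : Fin n → Fˣ) (σ : Equiv.Perm (Fin n))
    (h : ∀ c, 4 * μ < (dif d σ c).card) :
    (inv (mono d σ) k ⊥ : ℝ) ≤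
      (4 * (Fintype.card F : ℝ) / (Fintype.card F : ℝ) ^ μ) ^ J * G F n k := by
  classical
  subst hn
  have hq : (1 : ℝ) ≤ Fintype.card F := one_le_q
  have hq0 : (0 : ℝ) < Fintype.card F := lt_of_lt_of_le one_pos hq
  refine caseB (s := 2 * μ) (by rw [Module.finrank_fin_fun]) (mono d σ) ?_ ?_
  · intro c
    by_cases hc : c = 0
    · subst hc
      rw [rank_zero]
      omega
    · have h2 := dif_card_le d σ (Units.mk0 c hc)
      have h3 := h (Units.mk0 c hc)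
      rw [Units.val_mk0] at h2
      omega
  · obtain ⟨q, hqd⟩ : ∃ q : ℝ, q = Fintype.card F := ⟨_, rfl⟩
    rw [← hqd] at hq hq0 ⊢
    have e1 : (q ^ a)⁻¹ ≤ q / q ^ μ := by
      rw [inv_eq_one_div]
      exact div_le_div₀ (by linarith) hq (by positivity)
        (pow_le_pow_right₀ hq (by omega))
    have e2 : q ^ (2 * J + 1) * (q ^ (2 * μ))⁻¹ ≤ q / q ^ μ := by
      rw [← div_eq_mul_inv, div_le_div_iff₀ (by positivity) (by positivity), ← pow_add,
        ← pow_succ']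
      exact pow_le_pow_right₀ hq (by omega)
    have e3 : q ^ (2 * J) * (q ^ k)⁻¹ ≤ q / q ^ μ := by
      rw [← div_eq_mul_inv, div_le_div_iff₀ (by positivity) (by positivity), ← pow_add,
        ← pow_succ']
      exact pow_le_pow_right₀ hq (by omega)
    calc (q ^ a)⁻¹ + q ^ (2 * J + 1) * (q ^ (2 * μ))⁻¹ + 2 * (q ^ (2 * J) * (q ^ k)⁻¹) ≤
        q / q ^ μ + q / q ^ μ + 2 * (q / q ^ μ) := by linarith
      _ = 4 * q / q ^ μ := by ring

theorem scalar_mem (n : ℕ) (C : Submodule F (Fin n → F)) : scalars F n ⊆ Aut C := by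
  rintro φ ⟨c, rfl⟩
  refine ⟨fun _ => c, 1, ?_, ?_⟩
  · refine LinearMap.ext fun x => funext fun i => ?_
    rw [mono_apply]
    simp
  · rw [Submodule.map_smul _ _ _ c.ne_zero, Submodule.map_id]

/-- The union bound. -/
theorem bad_le {a k n μ J : ℕ} (hn : n = a + k) (ha : 8 * μ ≤ a) (hk : 8 * μ ≤ k)
    (hJ : 2 * J ≤ μ)
    (hy : (n : ℝ) ^ 2 * (Fintype.card F : ℝ) ^ 2 / (Fintype.card F : ℝ) ^ μ ≤ 1) :
    (cnt (fun C : Submodule F (Fin n → F) => finrank F C = k ∧ Aut C ≠ scalars F n) : ℝ) ≤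
      (Fintype.card F * (n * ((n : ℝ) ^ 2 * (Fintype.card F : ℝ) ^ 2 /
        (Fintype.card F : ℝ) ^ μ)) +
        (Fintype.card F * (n : ℝ)) ^ n *
          (4 * (Fintype.card F : ℝ) / (Fintype.card F : ℝ) ^ μ) ^ J) * G F n k := by
  classical
  obtain ⟨y, hyd⟩ : ∃ y : ℝ, y = (n : ℝ) ^ 2 * (Fintype.card F : ℝ) ^ 2 /
    (Fintype.card F : ℝ) ^ μ := ⟨_, rfl⟩
  have hq : (1 : ℝ) ≤ Fintype.card F := one_le_q
  have hy0 : 0 ≤ y := by
    rw [hyd]
    positivity
  rw [← hyd] at hy ⊢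
  let f : ((Fin n → Fˣ) × Equiv.Perm (Fin n)) → Submodule F (Fin n → F) → Prop :=
    fun p C => (finrank F C = k ∧ C.map (mono p.1 p.2) ≤ C) ∧ ⊥ ≤ C
  let SA : Finset (Σ _ : Fˣ × ℕ, (Fin n → Fˣ) × Equiv.Perm (Fin n)) :=
    ((Finset.univ : Finset Fˣ) ×ˢ Finset.Icc 1 (4 * μ)).sigma fun x =>
      Finset.univ.filter fun p => (dif p.1 p.2 x.1).card = x.2
  let SB : Finset ((Fin n → Fˣ) × Equiv.Perm (Fin n)) :=
    Finset.univ.filter fun p => ∀ c, 4 * μ < (dif p.1 p.2 c).card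
  have h0 : ∀ C : Submodule F (Fin n → F), finrank F C = k ∧ Aut C ≠ scalars F n →
      (∃ x ∈ SA, f x.2 C) ∨ ∃ p ∈ SB, f p C := by
    rintro C ⟨hC, hA⟩
    have h1 : ∃ φ ∈ Aut C, φ ∉ scalars F n := by
      by_contra hcon
      push Not at hcon
      exact hA (Set.Subset.antisymm hcon (scalar_mem n C))
    obtain ⟨φ, ⟨d, σ, rfl, hmap⟩, hφ⟩ := h1
    by_cases h2 : ∀ c, 4 * μ < (dif d σ c).card
    · right
      exact ⟨(d, σ), by simpa [SB] using h2, ⟨hC, hmap.le⟩, bot_le⟩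
    · left
      push Not at h2
      obtain ⟨c, hc⟩ := h2
      refine ⟨⟨(c, (dif d σ c).card), (d, σ)⟩, ?_, ⟨hC, hmap.le⟩, bot_le⟩
      simp only [SA, Finset.mem_sigma, Finset.mem_product, Finset.mem_univ, true_and,
        Finset.mem_Icc, Finset.mem_filter, and_true]
      refine ⟨?_, hc⟩
      rw [Nat.one_le_iff_ne_zero]
      intro h3
      exact hφ ⟨c, eq_scalar (Finset.card_eq_zero.1 h3)⟩
  have h1 : cnt (fun C : Submodule F (Fin n → F) => finrank F C = k ∧ Aut C ≠ scalars F n) ≤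
      cnt (fun C => ∃ x ∈ SA, f x.2 C) + cnt (fun C => ∃ p ∈ SB, f p C) := by
    have h2 := cnt_exists_le (Finset.univ : Finset Bool)
      (p := fun C : Submodule F (Fin n → F) => finrank F C = k ∧ Aut C ≠ scalars F n)
      (fun b C => if b then ∃ x ∈ SA, f x.2 C else ∃ p ∈ SB, f p C) (by
        intro C hC
        rcases h0 C hC with h | h
        · exact ⟨true, Finset.mem_univ _, by simpa using h⟩
        · exact ⟨false, Finset.mem_univ _, by simpa using h⟩)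
    simpa using h2
  have hA : (cnt (fun C => ∃ x ∈ SA, f x.2 C) : ℝ) ≤ (Fintype.card F * (n * y)) * G F n k := by
    have h2 : cnt (fun C => ∃ x ∈ SA, f x.2 C) ≤ ∑ x ∈ SA, inv (mono x.2.1 x.2.2) k ⊥ :=
      cnt_exists_le SA (fun x => f x.2) fun C h => h
    have h3 : (cnt (fun C => ∃ x ∈ SA, f x.2 C) : ℝ) ≤
        ∑ x ∈ SA, (G F n k * ((Fintype.card F : ℝ) / (Fintype.card F : ℝ) ^ μ) ^ x.1.2) := by
      refine (Nat.cast_le.2 h2).trans ?_
      rw [Nat.cast_sum]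
      refine Finset.sum_le_sum ?_
      rintro ⟨⟨c, b⟩, ⟨d, σ⟩⟩ hx
      simp only [SA, Finset.mem_sigma, Finset.mem_product, Finset.mem_univ, true_and,
        Finset.mem_Icc, Finset.mem_filter] at hx
      exact inv_le_of_dif hn ha hk d σ c hx.2 hx.1.2
    rw [Finset.sum_sigma] at h3
    refine h3.trans ?_
    have h4 : ∀ x ∈ (Finset.univ : Finset Fˣ) ×ˢ Finset.Icc 1 (4 * μ),
        ∑ _p ∈ Finset.univ.filter (fun p : (Fin n → Fˣ) × Equiv.Perm (Fin n) =>
          (dif p.1 p.2 x.1).card = x.2),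
          ((G F n k : ℝ) * ((Fintype.card F : ℝ) / (Fintype.card F : ℝ) ^ μ) ^ x.2) ≤
        G F n k * y := by
      rintro ⟨c, b⟩ hx
      simp only [Finset.mem_product, Finset.mem_univ, true_and, Finset.mem_Icc] at hx
      rw [Finset.sum_const, nsmul_eq_mul]
      have h5 := card_dif (F := F) (n := n) c b
      have h6 : ((Finset.univ.filter (fun p : (Fin n → Fˣ) × Equiv.Perm (Fin n) =>
          (dif p.1 p.2 c).card = b)).card : ℝ) ≤
          ((n : ℝ) ^ 2 * Fintype.card F) ^ b := by exact_mod_cast h5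
      calc ((Finset.univ.filter (fun p : (Fin n → Fˣ) × Equiv.Perm (Fin n) =>
          (dif p.1 p.2 c).card = b)).card : ℝ) *
          ((G F n k : ℝ) * ((Fintype.card F : ℝ) / (Fintype.card F : ℝ) ^ μ) ^ b) ≤
          ((n : ℝ) ^ 2 * Fintype.card F) ^ b *
          ((G F n k : ℝ) * ((Fintype.card F : ℝ) / (Fintype.card F : ℝ) ^ μ) ^ b) :=
            mul_le_mul_of_nonneg_right h6 (by positivity)
        _ = G F n k * y ^ b := by
            have e : y = ((n : ℝ) ^ 2 * Fintype.card F) *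
                ((Fintype.card F : ℝ) / (Fintype.card F : ℝ) ^ μ) := by
              rw [hyd]
              ring
            rw [e, mul_pow]
            ring
        _ ≤ G F n k * y := by
            refine mul_le_mul_of_nonneg_left ?_ (Nat.cast_nonneg _)
            calc y ^ b ≤ y ^ 1 := pow_le_pow_of_le_one hy0 hy hx.1
              _ = y := pow_one y
    refine (Finset.sum_le_sum h4).trans ?_
    rw [Finset.sum_const, nsmul_eq_mul, Finset.card_product, Nat.card_Icc, Finset.card_univ]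
    have h5 : ((Fintype.card Fˣ * (4 * μ + 1 - 1) : ℕ) : ℝ) ≤ Fintype.card F * n := by
      have h6 : Fintype.card Fˣ ≤ Fintype.card F :=
        Fintype.card_le_of_injective (fun u : Fˣ => (u : F)) Units.val_injective
      have h7 : Fintype.card Fˣ * (4 * μ + 1 - 1) ≤ Fintype.card F * n :=
        Nat.mul_le_mul h6 (by omega)
      exact_mod_cast h7
    calc ((Fintype.card Fˣ * (4 * μ + 1 - 1) : ℕ) : ℝ) * (G F n k * y) ≤
        (Fintype.card F * n) * (G F n k * y) :=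
          mul_le_mul_of_nonneg_right h5 (by positivity)
      _ = _ := by ring
  have hB : (cnt (fun C => ∃ p ∈ SB, f p C) : ℝ) ≤
      ((Fintype.card F * (n : ℝ)) ^ n *
          (4 * (Fintype.card F : ℝ) / (Fintype.card F : ℝ) ^ μ) ^ J) * G F n k := by
    have h2 : cnt (fun C => ∃ p ∈ SB, f p C) ≤ ∑ p ∈ SB, inv (mono p.1 p.2) k ⊥ :=
      cnt_exists_le SB f fun C h => h
    have h3 : (cnt (fun C => ∃ p ∈ SB, f p C) : ℝ) ≤
        ∑ _p ∈ SB, ((4 * (Fintype.card F : ℝ) / (Fintype.card F : ℝ) ^ μ) ^ J * G F n k) := by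
      refine (Nat.cast_le.2 h2).trans ?_
      rw [Nat.cast_sum]
      refine Finset.sum_le_sum ?_
      rintro ⟨d, σ⟩ hx
      simp only [SB, Finset.mem_filter, Finset.mem_univ, true_and] at hx
      exact inv_le_of_far hn ha hk hJ d σ hx
    refine h3.trans ?_
    rw [Finset.sum_const, nsmul_eq_mul, mul_assoc]
    refine mul_le_mul_of_nonneg_right ?_ (by positivity)
    have h4 : SB.card ≤ (Fintype.card F * n) ^ n :=
      (Finset.card_le_univ _).trans card_mono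
    exact_mod_cast h4
  calc (cnt (fun C : Submodule F (Fin n → F) => finrank F C = k ∧ Aut C ≠ scalars F n) : ℝ) ≤
        cnt (fun C => ∃ x ∈ SA, f x.2 C) + cnt (fun C => ∃ p ∈ SB, f p C) := by
        exact_mod_cast h1
    _ ≤ _ := by
        rw [add_mul]
        exact add_le_add hA hB

/-- The fraction of the bad codes tends to zero. -/
theorem tendsto_bad {R : ℝ} (hR : 0 < R) (hR1 : R < 1) :
    Tendsto (fun n : ℕ => (cnt (fun C : Submodule F (Fin n → F) =>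
      finrank F C = ⌊R * n⌋₊ ∧ Aut C ≠ scalars F n) : ℝ) / G F n ⌊R * n⌋₊) atTop (𝓝 0) := by
  obtain ⟨q, hqd⟩ : ∃ q : ℝ, q = Fintype.card F := ⟨_, rfl⟩
  have hq2 : (2 : ℝ) ≤ q := by
    rw [hqd]
    exact_mod_cast two_le_card
  have hq1 : (1 : ℝ) < q := by linarith
  have hq0 : (0 : ℝ) < q := by linarith
  obtain ⟨c, hc⟩ : ∃ c, c = min R (1 - R) / 16 := ⟨_, rfl⟩
  have hc0 : 0 < c := by
    rw [hc]
    have : 0 < min R (1 - R) := lt_min hR (by linarith)
    positivity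
  have hcR : 16 * c ≤ R := by
    rw [hc]
    have := min_le_left R (1 - R)
    linarith
  have hcR' : 16 * c ≤ 1 - R := by
    rw [hc]
    have := min_le_right R (1 - R)
    linarith
  obtain ⟨r, hr⟩ : ∃ r : ℝ, r = q ^ (c / 2) := ⟨_, rfl⟩
  have hr1 : 1 < r := by
    rw [hr]
    exact Real.one_lt_rpow hq1 (by positivity)
  have hr0 : 0 < r := by linarith
  obtain ⟨ρ, hρ⟩ : ∃ ρ : ℝ, ρ = r ^ (c / 8) := ⟨_, rfl⟩
  have hρ1 : 1 < ρ := by
    rw [hρ]
    exact Real.one_lt_rpow hr1 (by positivity)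
  have hρ0 : 0 < ρ := by linarith
  -- the bounding sequence
  have t1 : Tendsto (fun n : ℕ => q ^ 3 * ((n : ℝ) ^ 3 / r ^ n) + (1 / 2 : ℝ) ^ n) atTop
      (𝓝 0) := by
    have h1 := (tendsto_pow_const_div_const_pow_of_one_lt 3 hr1).const_mul (q ^ 3)
    have h2 := tendsto_pow_atTop_nhds_zero_of_lt_one (r := (1 / 2 : ℝ)) (by norm_num)
      (by norm_num)
    simpa using h1.add h2
  have t2 : ∀ᶠ n : ℕ in atTop, (n : ℝ) ^ 2 / r ^ n < 1 / q ^ 2 :=
    (tendsto_pow_const_div_const_pow_of_one_lt 2 hr1).eventually_lt_const (by positivity)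
  have t3 : ∀ᶠ n : ℕ in atTop, (n : ℝ) ^ 1 / ρ ^ n < 1 / (8 * q ^ 2) :=
    (tendsto_pow_const_div_const_pow_of_one_lt 1 hρ1).eventually_lt_const (by positivity)
  have t4 : ∀ᶠ n : ℕ in atTop, 100 / c ≤ (n : ℝ) :=
    tendsto_natCast_atTop_atTop.eventually_ge_atTop _
  refine squeeze_zero' (Eventually.of_forall fun n => by positivity) ?_ t1
  filter_upwards [t2, t3, t4, eventually_ge_atTop 1] with n h2 h3 h4 h5
  have hn0 : (0 : ℝ) < n := by exact_mod_cast h5
  have hcn : 100 ≤ c * n := by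
    rw [div_le_iff₀ hc0] at h4
    linarith
  obtain ⟨k, hk⟩ : ∃ k, k = ⌊R * n⌋₊ := ⟨_, rfl⟩
  rw [← hk]
  have hkn : k ≤ n := by
    have : (k : ℝ) ≤ n := by
      rw [hk]
      refine (Nat.floor_le (by positivity)).trans ?_
      nlinarith
    exact_mod_cast this
  obtain ⟨a, ha⟩ : ∃ a, n = a + k := ⟨n - k, by omega⟩
  obtain ⟨μ, hμ⟩ : ∃ μ, μ = ⌊c * n⌋₊ := ⟨_, rfl⟩
  have hμ1 : (μ : ℝ) ≤ c * n := by
    rw [hμ]
    exact Nat.floor_le (by positivity)
  have hμ2 : c * n < μ + 1 := by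
    rw [hμ]
    exact Nat.lt_floor_add_one _
  have hk1 : (k : ℝ) ≤ R * n := by
    rw [hk]
    exact Nat.floor_le (by positivity)
  have hk2 : R * n < k + 1 := by
    rw [hk]
    exact Nat.lt_floor_add_one _
  have har : (n : ℝ) = a + k := by exact_mod_cast ha
  have h6 : 8 * μ ≤ k := by
    have : (8 * μ : ℝ) ≤ k := by nlinarith
    exact_mod_cast this
  have h7 : 8 * μ ≤ a := by
    have : (8 * μ : ℝ) ≤ a := by nlinarith
    exact_mod_cast this
  obtain ⟨J, hJ⟩ : ∃ J, J = μ / 2 := ⟨_, rfl⟩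
  have hJ2 : 2 * J ≤ μ := by omega
  have hJ3 : (μ : ℝ) ≤ 2 * J + 1 := by
    have : μ ≤ 2 * J + 1 := by omega
    exact_mod_cast this
  have hJn : J ≤ n := by omega
  -- powers
  have p1 : r ^ n ≤ q ^ μ := by
    rw [hr, ← Real.rpow_natCast, ← Real.rpow_natCast q μ, ← Real.rpow_mul hq0.le]
    exact Real.rpow_le_rpow_of_exponent_le hq1.le (by nlinarith)
  have p2 : ρ ^ n ≤ r ^ J := by
    rw [hρ, ← Real.rpow_natCast, ← Real.rpow_natCast r J, ← Real.rpow_mul hr0.le]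
    exact Real.rpow_le_rpow_of_exponent_le hr1.le (by nlinarith)
  have hrn : (0 : ℝ) < r ^ n := by positivity
  have hy1 : (n : ℝ) ^ 2 * q ^ 2 / q ^ μ ≤ (n : ℝ) ^ 2 * q ^ 2 / r ^ n :=
    div_le_div_of_nonneg_left (by positivity) hrn p1
  have hy : (n : ℝ) ^ 2 * q ^ 2 / q ^ μ ≤ 1 := by
    refine hy1.trans ?_
    rw [lt_div_iff₀ (by positivity)] at h2
    calc (n : ℝ) ^ 2 * q ^ 2 / r ^ n = (n : ℝ) ^ 2 / r ^ n * q ^ 2 := by ring
      _ ≤ 1 := h2.le
  have hbad := bad_le (F := F) ha h7 h6 hJ2 (by rw [← hqd]; exact hy)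
  rw [← hqd] at hbad
  have hG : (0 : ℝ) < G F n k := by exact_mod_cast G_pos hkn
  rw [div_le_iff₀ hG]
  refine hbad.trans (mul_le_mul_of_nonneg_right ?_ hG.le)
  refine add_le_add ?_ ?_
  · calc q * (n * ((n : ℝ) ^ 2 * q ^ 2 / q ^ μ)) ≤ q * (n * ((n : ℝ) ^ 2 * q ^ 2 / r ^ n)) := by
          refine mul_le_mul_of_nonneg_left (mul_le_mul_of_nonneg_left hy1 hn0.le) hq0.le
      _ = q ^ 3 * ((n : ℝ) ^ 3 / r ^ n) := by ring
  · have e1 : (4 * q / q ^ μ) ^ J ≤ (4 * q) ^ n / (ρ ^ n) ^ n := by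
      rw [div_pow]
      refine div_le_div₀ (by positivity) ?_ (by positivity) ?_
      · exact pow_le_pow_right₀ (by linarith) hJn
      · calc (ρ ^ n) ^ n ≤ (r ^ J) ^ n := pow_le_pow_left₀ (by positivity) p2 n
          _ = (r ^ n) ^ J := by rw [← pow_mul, ← pow_mul, mul_comm]
          _ ≤ (q ^ μ) ^ J := pow_le_pow_left₀ hrn.le p1 J
    calc (q * (n : ℝ)) ^ n * (4 * q / q ^ μ) ^ J ≤
        (q * (n : ℝ)) ^ n * ((4 * q) ^ n / (ρ ^ n) ^ n) :=
          mul_le_mul_of_nonneg_left e1 (by positivity)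
      _ = (4 * q ^ 2 * (n / ρ ^ n)) ^ n := by
          rw [← div_pow, ← mul_pow]
          congr 1
          ring
      _ ≤ (1 / 2) ^ n := by
          refine pow_le_pow_left₀ (by positivity) ?_ n
          rw [pow_one, lt_div_iff₀ (by positivity)] at h3
          calc 4 * q ^ 2 * (n / ρ ^ n) = (n / ρ ^ n * (8 * q ^ 2)) / 2 := by ring
            _ ≤ 1 / 2 := by linarith

end Pool.Agent.Q227.RC
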