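import Pool.Agent.Q227.RC.Defs
import Pool.Agent.Q227.RC.Inv

/-!
# Monomial maps: ranks and counting
-/

set_option autoImplicit false
set_option linter.unusedSectionVars false
set_option linter.style.haveILetI false

namespace Pool.Agent.Q227.RC

open Module

variable {F : Type} [Field F] {n : ℕ}

theorem mono_apply (d : Fin n → Fˣ) (σ : Equiv.Perm (Fin n)) (x : Fin n → F) (i : Fin n) :
    mono d σ x i = (d i : F) * x (σ⁻¹ i) := rfl

theorem mono_apply' (d : Fin n → Fˣ) (σ : Equiv.Perm (Fin n)) (x : Fin n → F) (i : Fin n) :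
    mono d σ x (σ i) = (d (σ i) : F) * x i := by
  rw [mono_apply]
  simp

open scoped Classical in
/-- The places where the monomial map differs from the scalar `c`. -/
noncomputable def dif (d : Fin n → Fˣ) (σ : Equiv.Perm (Fin n)) (c : Fˣ) : Finset (Fin n) :=
  Finset.univ.filter fun j => σ j ≠ j ∨ d j ≠ c

theorem mem_dif {d : Fin n → Fˣ} {σ : Equiv.Perm (Fin n)} {c : Fˣ} {j : Fin n} :
    j ∈ dif d σ c ↔ σ j ≠ j ∨ d j ≠ c := by
  simp [dif]

theorem rank_ge {V' : Type} [AddCommGroup V'] [Module F V'] (N : (Fin n → F) →ₗ[F] V')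
    (B : Finset (Fin n))
    (h : ∀ x : Fin n → F, (∀ i, i ∉ B → x i = 0) → N x = 0 → x = 0) :
    B.card ≤ finrank F (LinearMap.range N) := by
  classical
  let L : (B → F) →ₗ[F] (Fin n → F) :=
    { toFun := fun g i => if hi : i ∈ B then g ⟨i, hi⟩ else 0
      map_add' := fun x y => by
        funext i
        by_cases hi : i ∈ B <;> simp [hi]
      map_smul' := fun c x => by
        funext i
        by_cases hi : i ∈ B <;> simp [hi] }
  have hL : ∀ (g : B → F) i (hi : i ∈ B), L g i = g ⟨i, hi⟩ := fun g i hi => by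
    show (if hi : i ∈ B then g ⟨i, hi⟩ else 0) = _
    rw [dif_pos hi]
  have hL' : ∀ (g : B → F) i, i ∉ B → L g i = 0 := fun g i hi => by
    show (if hi : i ∈ B then g ⟨i, hi⟩ else 0) = _
    rw [dif_neg hi]
  have hinj : Function.Injective (N.comp L) := by
    rw [← LinearMap.ker_eq_bot, LinearMap.ker_eq_bot']
    intro g hg
    have := h (L g) (hL' g) hg
    funext i
    rw [← hL g i.1 i.2, this]
    rfl
  have h1 := LinearMap.finrank_range_of_inj hinj
  rw [Module.finrank_fintype_fun_eq_card, Fintype.card_coe] at h1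
  rw [← h1]
  exact Submodule.finrank_mono (LinearMap.range_comp_le_range L N)

theorem rank_le (d : Fin n → Fˣ) (σ : Equiv.Perm (Fin n)) (c : Fˣ) :
    finrank F (LinearMap.range (mono d σ - (c : F) • LinearMap.id)) ≤ (dif d σ c).card := by
  classical
  set N := mono d σ - (c : F) • (LinearMap.id : (Fin n → F) →ₗ[F] (Fin n → F)) with hN
  have h1 : LinearMap.range N ≤ Submodule.span F
      (((dif d σ c).image fun j => N (Pi.single j 1) : Finset (Fin n → F)) :
        Set (Fin n → F)) := by
    rintro _ ⟨x, rfl⟩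
    have hx : x = ∑ j, x j • (Pi.single j (1 : F) : Fin n → F) := by
      funext i
      simp [Finset.sum_apply, Pi.single_apply]
    rw [hx, map_sum]
    refine Submodule.sum_mem _ fun j _ => ?_
    rw [map_smul]
    by_cases hj : j ∈ dif d σ c
    · exact Submodule.smul_mem _ _ (Submodule.subset_span (by
        rw [Finset.mem_coe, Finset.mem_image]
        exact ⟨j, hj, rfl⟩))
    · rw [mem_dif] at hj
      push Not at hj
      have : N (Pi.single j (1 : F)) = 0 := by
        funext i
        simp only [hN, LinearMap.sub_apply, LinearMap.smul_apply, LinearMap.id_apply,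
          Pi.sub_apply, Pi.smul_apply, mono_apply, smul_eq_mul, Pi.zero_apply]
        by_cases hij : i = j
        · subst hij
          have h2 : σ⁻¹ i = i := by
            rw [Equiv.Perm.inv_eq_iff_eq]
            exact hj.1.symm
          rw [h2, hj.2, sub_self]
        · have h2 : σ⁻¹ i ≠ j := by
            intro h
            apply hij
            rw [Equiv.Perm.inv_eq_iff_eq] at h
            rw [h, hj.1]
          rw [Pi.single_eq_of_ne h2, Pi.single_eq_of_ne hij]
          ring
      rw [this, smul_zero]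
      exact Submodule.zero_mem _
  refine (Submodule.finrank_mono h1).trans ?_
  exact (finrank_span_finset_le_card _).trans Finset.card_image_le

theorem dif_card_le (d : Fin n → Fˣ) (σ : Equiv.Perm (Fin n)) (c : Fˣ) :
    (dif d σ c).card ≤ 2 * finrank F (LinearMap.range (mono d σ - (c : F) • LinearMap.id)) := by
  classical
  set N := mono d σ - (c : F) • (LinearMap.id : (Fin n → F) →ₗ[F] (Fin n → F)) with hN
  have hNa : ∀ x i, N x i = (d i : F) * x (σ⁻¹ i) - (c : F) * x i := fun x i => rfl
  have h1 : ((dif d σ c).filter fun j => j ≤ σ j).card ≤ finrank F (LinearMap.range N) := by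
    refine rank_ge N _ fun x hx hNx => ?_
    by_contra hne
    obtain ⟨i0, hi0⟩ : ∃ i, x i ≠ 0 := by
      by_contra hcon
      push Not at hcon
      exact hne (funext hcon)
    let P := Finset.univ.filter fun i => x i ≠ 0
    have hP : P.Nonempty := ⟨i0, by simp [P, hi0]⟩
    obtain ⟨i, hiP, hmax⟩ := P.exists_max_image id hP
    have hi : x i ≠ 0 := by simpa [P] using hiP
    have hiB : i ∈ (dif d σ c).filter fun j => j ≤ σ j := by
      by_contra hcon
      exact hi (hx i hcon)
    rw [Finset.mem_filter, mem_dif] at hiB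
    have h2 := congrFun hNx (σ i)
    have e0 : σ⁻¹ (σ i) = i := by simp
    rw [hNa, e0, Pi.zero_apply] at h2
    rcases eq_or_lt_of_le hiB.2 with h3 | h3
    · rcases hiB.1 with h4 | h4
      · exact h4 h3.symm
      · rw [← h3] at h2
        have h5 : ((d i : F) - (c : F)) * x i = 0 := by
          rw [sub_mul]
          exact h2
        rcases mul_eq_zero.1 h5 with h6 | h6
        · exact h4 (Units.ext (sub_eq_zero.1 h6))
        · exact hi h6
    · have h4 : x (σ i) = 0 := by
        by_contra h5
        have := hmax (σ i) (by simp [P, h5])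
        exact absurd this (not_le.2 h3)
      rw [h4, mul_zero, sub_zero] at h2
      rcases mul_eq_zero.1 h2 with h6 | h6
      · exact (d (σ i)).ne_zero h6
      · exact hi h6
  have h2 : ((dif d σ c).filter fun j => σ j ≤ j).card ≤ finrank F (LinearMap.range N) := by
    refine rank_ge N _ fun x hx hNx => ?_
    by_contra hne
    obtain ⟨i0, hi0⟩ : ∃ i, x i ≠ 0 := by
      by_contra hcon
      push Not at hcon
      exact hne (funext hcon)
    let P := Finset.univ.filter fun i => x i ≠ 0
    have hP : P.Nonempty := ⟨i0, by simp [P, hi0]⟩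
    obtain ⟨i, hiP, hmax⟩ := P.exists_max_image id hP
    have hi : x i ≠ 0 := by simpa [P] using hiP
    have h2 := congrFun hNx i
    rw [hNa] at h2
    simp only [Pi.zero_apply] at h2
    have h3 : x (σ⁻¹ i) ≠ 0 := by
      intro h4
      rw [h4, mul_zero, zero_sub, neg_eq_zero] at h2
      rcases mul_eq_zero.1 h2 with h6 | h6
      · exact c.ne_zero h6
      · exact hi h6
    have h4 : σ⁻¹ i ≤ i := hmax _ (Finset.mem_filter.2 ⟨Finset.mem_univ _, h3⟩)
    have hiB : σ⁻¹ i ∈ (dif d σ c).filter fun j => σ j ≤ j := by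
      by_contra hcon
      exact h3 (hx _ hcon)
    rw [Finset.mem_filter, mem_dif] at hiB
    have e1 : σ (σ⁻¹ i) = i := by simp
    have h5 : i ≤ σ⁻¹ i := by
      have := hiB.2
      rwa [e1] at this
    have h6 : σ⁻¹ i = i := le_antisymm h4 h5
    rw [h6] at h2 hiB
    have h7 : σ i = i := by
      rw [Equiv.Perm.inv_eq_iff_eq] at h6
      exact h6.symm
    rcases hiB.1 with h8 | h8
    · exact h8 h7
    · have h5 : ((d i : F) - (c : F)) * x i = 0 := by
        rw [sub_mul]
        exact h2
      rcases mul_eq_zero.1 h5 with h6 | h6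
      · exact h8 (Units.ext (sub_eq_zero.1 h6))
      · exact hi h6
  have h3 : (dif d σ c).card ≤ ((dif d σ c).filter fun j => j ≤ σ j).card +
      ((dif d σ c).filter fun j => σ j ≤ j).card := by
    refine le_trans (Finset.card_le_card ?_) (Finset.card_union_le _ _)
    intro j hj
    rw [Finset.mem_union, Finset.mem_filter, Finset.mem_filter]
    rcases le_total j (σ j) with h | h
    · exact Or.inl ⟨hj, h⟩
    · exact Or.inr ⟨hj, h⟩
  omega

theorem rank_zero (d : Fin n → Fˣ) (σ : Equiv.Perm (Fin n)) :
    finrank F (LinearMap.range (mono d σ - (0 : F) • LinearMap.id)) = n := by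
  have hinj : Function.Injective
      (mono d σ - (0 : F) • (LinearMap.id : (Fin n → F) →ₗ[F] (Fin n → F))) := by
    rw [← LinearMap.ker_eq_bot, LinearMap.ker_eq_bot']
    intro x hx
    funext i
    have := congrFun hx (σ i)
    simp only [zero_smul, sub_zero, mono_apply', Pi.zero_apply] at this
    rcases mul_eq_zero.1 this with h | h
    · exact absurd h (d (σ i)).ne_zero
    · exact h
  rw [LinearMap.finrank_range_of_inj hinj, Module.finrank_fin_fun]

/-- There are few monomial maps that differ from `c` in `b` places. -/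
theorem card_dif [Fintype F] [DecidableEq F] (c : Fˣ) (b : ℕ) :
    ((Finset.univ : Finset ((Fin n → Fˣ) × Equiv.Perm (Fin n))).filter
      fun p => (dif p.1 p.2 c).card = b).card ≤ (n ^ 2 * Fintype.card F) ^ b := by
  classical
  let f : {p : (Fin n → Fˣ) × Equiv.Perm (Fin n) // (dif p.1 p.2 c).card = b} →
      (Fin b → Fin n × Fin n × F) := fun p i =>
    ((dif p.1.1 p.1.2 c).orderEmbOfFin p.2 i,
      p.1.2 ((dif p.1.1 p.1.2 c).orderEmbOfFin p.2 i),
      (p.1.1 ((dif p.1.1 p.1.2 c).orderEmbOfFin p.2 i) : F))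
  have hf : Function.Injective f := by
    rintro ⟨⟨d, σ⟩, h1⟩ ⟨⟨d', σ'⟩, h2⟩ hff
    have hmem : ∀ (d d' : Fin n → Fˣ) (σ σ' : Equiv.Perm (Fin n)) (h1 : (dif d σ c).card = b)
        (h2 : (dif d' σ' c).card = b), f ⟨⟨d, σ⟩, h1⟩ = f ⟨⟨d', σ'⟩, h2⟩ →
        ∀ j ∈ dif d σ c, j ∈ dif d' σ' c ∧ σ j = σ' j ∧ d j = d' j := by
      intro d d' σ σ' h1 h2 hff j hj
      obtain ⟨i, hi⟩ : ∃ i, (dif d σ c).orderEmbOfFin h1 i = j := by
        have : j ∈ Set.range ((dif d σ c).orderEmbOfFin h1) := by
          rw [Finset.range_orderEmbOfFin]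
          exact hj
        exact this
      have h3 := congrFun hff i
      simp only [f, Prod.mk.injEq] at h3
      obtain ⟨h4, h5, h6⟩ := h3
      rw [← h4] at h5 h6
      rw [hi] at h4 h5 h6
      refine ⟨?_, h5, Units.ext h6⟩
      rw [h4]
      exact Finset.orderEmbOfFin_mem _ _ _
    have hA : dif d σ c = dif d' σ' c := by
      ext j
      exact ⟨fun hj => (hmem _ _ _ _ h1 h2 hff j hj).1,
        fun hj => (hmem _ _ _ _ h2 h1 hff.symm j hj).1⟩
    have hall : ∀ j, σ j = σ' j ∧ d j = d' j := by
      intro j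
      by_cases hj : j ∈ dif d σ c
      · exact (hmem _ _ _ _ h1 h2 hff j hj).2
      · have hj' := hj
        rw [hA] at hj'
        rw [mem_dif] at hj hj'
        push Not at hj hj'
        exact ⟨hj.1.trans hj'.1.symm, hj.2.trans hj'.2.symm⟩
    have e1 : d = d' := funext fun j => (hall j).2
    have e2 : σ = σ' := Equiv.ext fun j => (hall j).1
    subst e1 e2
    rfl
  have h := Fintype.card_le_of_injective f hf
  rw [Fintype.card_subtype, Fintype.card_fun, Fintype.card_prod, Fintype.card_prod,
    Fintype.card_fin, Fintype.card_fin] at h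
  refine h.trans (le_of_eq ?_)
  congr 1
  ring

/-- The number of all monomial maps. -/
theorem card_mono [Fintype F] [DecidableEq F] :
    Fintype.card ((Fin n → Fˣ) × Equiv.Perm (Fin n)) ≤ (Fintype.card F * n) ^ n := by
  classical
  rw [Fintype.card_prod, Fintype.card_fun, Fintype.card_fin, Fintype.card_perm, Fintype.card_fin,
    mul_pow]
  refine Nat.mul_le_mul (Nat.pow_le_pow_left ?_ n) (Nat.factorial_le_pow n)
  exact Fintype.card_le_of_injective (fun u : Fˣ => (u : F)) Units.val_injective

/-- A monomial map which does not differ from `c` is the scalar `c`. -/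
theorem eq_scalar {d : Fin n → Fˣ} {σ : Equiv.Perm (Fin n)} {c : Fˣ} (h : dif d σ c = ∅) :
    mono d σ = (c : F) • LinearMap.id := by
  have h1 : ∀ j, σ j = j ∧ d j = c := by
    intro j
    have : j ∉ dif d σ c := by simp [h]
    rw [mem_dif] at this
    push Not at this
    exact this
  refine LinearMap.ext fun x => funext fun i => ?_
  have h2 : σ⁻¹ i = i := by
    rw [Equiv.Perm.inv_eq_iff_eq]
    exact (h1 i).1.symm
  rw [mono_apply, h2, (h1 i).2]
  rfl

end Pool.Agent.Q227.RC
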