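import Pool.Agent.Q120.RC.Stm
import Pool.Agent.Q285.ME.Constr

/-!
Project RC of helper120, job SEQ: the sequential construction.
-/

set_option autoImplicit false

namespace Pool.Agent.Q227.RC

open Finset MeasureTheory Filter Pool.Agent.Q120.ET Pool.Agent.Q120.ME Pool.Agent.Q120.RC
open Pool.Agent.Q285.ME (uni PP PP_cyl)
open scoped Topology

open Classical in
/-- The random set below `n`, given the uniform variables `u`. -/
noncomputable def Bq (r : ℕ → Finset ℕ → ℝ) (u : ℕ → ℝ) : ℕ → Finset ℕ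
  | 0 => ∅
  | n + 1 => if u n < r n (Bq r u n) then insert n (Bq r u n) else Bq r u n

theorem Bq_sub (r : ℕ → Finset ℕ → ℝ) (u : ℕ → ℝ) (n : ℕ) : Bq r u n ⊆ range n := by
  classical
  induction n with
  | zero => simp [Bq]
  | succ n ih =>
    rw [Bq]
    split_ifs
    · intro j hj
      rw [mem_insert] at hj
      rw [mem_range]
      rcases hj with rfl | hj
      · omega
      · have := mem_range.1 (ih hj)
        omega
    · exact ih.trans (range_mono (Nat.le_succ n))

theorem pre_succ (T : Finset ℕ) (n : ℕ) :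
    (n ∈ T → pre T (n + 1) = insert n (pre T n)) ∧ (n ∉ T → pre T (n + 1) = pre T n) := by
  classical
  constructor
  · intro h
    ext j
    rw [mem_insert, mem_pre, mem_pre]
    constructor
    · rintro ⟨h1, h2⟩
      rcases Nat.lt_succ_iff_lt_or_eq.1 h2 with h3 | h3
      · exact Or.inr ⟨h1, h3⟩
      · exact Or.inl h3
    · rintro (rfl | ⟨h1, h2⟩)
      · exact ⟨h, Nat.lt_succ_self _⟩
      · exact ⟨h1, by omega⟩
  · intro h
    ext j
    rw [mem_pre, mem_pre]
    constructor
    · rintro ⟨h1, h2⟩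
      rcases Nat.lt_succ_iff_lt_or_eq.1 h2 with h3 | h3
      · exact ⟨h1, h3⟩
      · exact absurd (h3 ▸ h1) h
    · rintro ⟨h1, h2⟩
      exact ⟨h1, by omega⟩

theorem Bq_eq_pre (r : ℕ → Finset ℕ → ℝ) (u : ℕ → ℝ) (T : Finset ℕ) (k : ℕ)
    (h : ∀ n < k, (u n < r n (Bq r u n) ↔ n ∈ T)) : Bq r u k = pre T k := by
  classical
  induction k with
  | zero =>
    ext j
    simp [Bq, mem_pre]
  | succ k ih =>
    have h1 := ih (fun n hn => h n (by omega))
    have h2 := h k (by omega)
    rw [Bq]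
    by_cases hk : k ∈ T
    · rw [if_pos (h2.2 hk), h1, (pre_succ T k).1 hk]
    · rw [if_neg (fun h3 => hk (h2.1 h3)), h1, (pre_succ T k).2 hk]

theorem Bq_eq_pre2 (r : ℕ → Finset ℕ → ℝ) (u : ℕ → ℝ) (T : Finset ℕ) (k : ℕ)
    (h : ∀ n < k, (u n < r n (pre T n) ↔ n ∈ T)) : Bq r u k = pre T k := by
  classical
  induction k with
  | zero =>
    ext j
    simp [Bq, mem_pre]
  | succ k ih =>
    have h1 := ih (fun n hn => h n (by omega))
    have h2 := h k (by omega)
    rw [Bq, h1]
    by_cases hk : k ∈ T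
    · rw [if_pos (h2.2 hk), (pre_succ T k).1 hk]
    · rw [if_neg (fun h3 => hk (h2.1 h3)), (pre_succ T k).2 hk]

/-- The random set. -/
def Aq (r : ℕ → Finset ℕ → ℝ) (u : ℕ → ℝ) : Set ℕ := {n | u n < r n (Bq r u n)}

theorem law_iff (r : ℕ → Finset ℕ → ℝ) (u : ℕ → ℝ) (N : ℕ) (T : Finset ℕ) :
    (∀ n ∈ range N, (n ∈ Aq r u ↔ n ∈ T)) ↔ ∀ n ∈ range N, (u n < r n (pre T n) ↔ n ∈ T) := by
  simp only [mem_range]
  constructor
  · intro h n hn
    have := Bq_eq_pre r u T n (fun k hk => h k (by omega))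
    rw [← this]
    exact h n hn
  · intro h n hn
    have := Bq_eq_pre2 r u T n (fun k hk => h k (by omega))
    show u n < r n (Bq r u n) ↔ _
    rw [this]
    exact h n hn

/-- Job SEQ. -/
theorem t_SEQ : J_SEQ := by
  classical
  intro X _ r hr hr01
  have hmB : ∀ n : ℕ, ∀ T : Finset ℕ,
      MeasurableSet {z : X × (ℕ → ℝ) | Bq (r z.1) z.2 n = T} := by
    intro n
    induction n with
    | zero =>
      intro T
      simp only [Bq]
      exact MeasurableSet.const _
    | succ n ih =>
      intro T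
      have e : {z : X × (ℕ → ℝ) | Bq (r z.1) z.2 (n + 1) = T} =
          ⋃ S ∈ (range n).powerset, ({z : X × (ℕ → ℝ) | Bq (r z.1) z.2 n = S} ∩
            (({z : X × (ℕ → ℝ) | z.2 n < r z.1 n S} ∩ {_z | insert n S = T}) ∪
              ({z : X × (ℕ → ℝ) | z.2 n < r z.1 n S}ᶜ ∩ {_z | S = T}))) := by
        ext z
        simp only [Set.mem_ofPred_eq, Set.mem_iUnion, exists_prop, Set.mem_inter_iff,
          Set.mem_union, Set.mem_compl_iff, mem_powerset]
        constructor
        · intro h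
          refine ⟨Bq (r z.1) z.2 n, Bq_sub _ _ _, rfl, ?_⟩
          rw [Bq] at h
          by_cases h1 : z.2 n < r z.1 n (Bq (r z.1) z.2 n)
          · rw [if_pos h1] at h
            exact Or.inl ⟨h1, h⟩
          · rw [if_neg h1] at h
            exact Or.inr ⟨h1, h⟩
        · rintro ⟨S, hS, h1, h2⟩
          rw [Bq, h1]
          rcases h2 with ⟨h2, h3⟩ | ⟨h2, h3⟩
          · rw [if_pos h2]; exact h3
          · rw [if_neg h2]; exact h3
      rw [e]
      refine Finset.measurableSet_biUnion _ fun S _ => (ih S).inter ?_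
      have hm : MeasurableSet {z : X × (ℕ → ℝ) | z.2 n < r z.1 n S} :=
        measurableSet_lt ((measurable_pi_apply n).comp measurable_snd)
          ((hr n S).comp measurable_fst)
      exact (hm.inter (MeasurableSet.const _)).union (hm.compl.inter (MeasurableSet.const _))
  refine ⟨ℕ → ℝ, inferInstance, PP, inferInstance, fun x u => Aq (r x) u, ?_, ?_⟩
  · intro n
    have e : {z : X × (ℕ → ℝ) | n ∈ Aq (r z.1) z.2} =
        ⋃ S ∈ (range n).powerset, ({z : X × (ℕ → ℝ) | Bq (r z.1) z.2 n = S} ∩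
          {z : X × (ℕ → ℝ) | z.2 n < r z.1 n S}) := by
      ext z
      simp only [Set.mem_ofPred_eq, Set.mem_iUnion, exists_prop, Set.mem_inter_iff, mem_powerset,
        Aq]
      constructor
      · intro h
        exact ⟨_, Bq_sub _ _ _, rfl, h⟩
      · rintro ⟨S, -, h1, h2⟩
        rw [h1]
        exact h2
    rw [e]
    refine Finset.measurableSet_biUnion _ fun S _ => (hmB n S).inter ?_
    exact measurableSet_lt ((measurable_pi_apply n).comp measurable_snd)
      ((hr n S).comp measurable_fst)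
  · intro x N T _
    unfold lawOn
    have e : {u : ℕ → ℝ | ∀ n ∈ range N, (n ∈ Aq (r x) u ↔ n ∈ T)} =
        {u : ℕ → ℝ | ∀ n ∈ range N, (u n < (fun n => r x n (pre T n)) n ↔ n ∈ T)} := by
      ext u
      exact law_iff (r x) u N T
    rw [e, Measure.real, PP_cyl _ (fun n => (hr01 x n _).1) (fun n => (hr01 x n _).2),
      ENNReal.toReal_ofReal]
    · rfl
    · exact Pool.Agent.Q285.ME.bern_nonneg _ (fun n => (hr01 x n _).1)
        (fun n => (hr01 x n _).2) _ _

end Pool.Agent.Q227.RC
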