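import Pool.Agent.Q227.RC.Til

/-!
Project RC of helper120, job TRC: the number of record gaps for the tilted laws.
-/

set_option autoImplicit false

namespace Pool.Agent.Q227.RC

open Finset MeasureTheory Filter Pool.Agent.Q120.ET Pool.Agent.Q120.ME Pool.Agent.Q120.RC
open scoped Topology ENNReal

theorem sum_union_le {α : Type} [DecidableEq α] {f : α → ℝ} (hf : ∀ n, 0 ≤ f n) (s t : Finset α) :
    ∑ n ∈ s ∪ t, f n ≤ ∑ n ∈ s, f n + ∑ n ∈ t, f n := by
  have h := Finset.sum_union_inter (s₁ := s) (s₂ := t) (f := f)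
  have h2 : 0 ≤ ∑ n ∈ s ∩ t, f n := sum_nonneg fun n _ => hf n
  linarith

section Det

variable {κ c : ℝ} {p : ℕ → ℝ}

/-- Deterministic part: the sum over the `up` steps. -/
theorem incb_tendsto (hABU : J_ABU) (hABL : J_ABL) (hASY : J_ASY) (hκ : 0 < κ) (hc : 0 < c)
    (hM : Mod κ c p) (S : Set ℕ)
    (hlo : ∀ j : ℕ, ∀ᶠ n : ℕ in atTop, (1 - 1 / ((j : ℝ) + 1)) * b0 κ c n ≤ mx S n)
    (hup : ∀ j : ℕ, ∀ᶠ n : ℕ in atTop, (mx S n : ℝ) ≤ (1 + 1 / ((j : ℝ) + 1)) * b0 κ c n) :
    Tendsto (fun x : ℕ => incb p (fun n => 2 * b0 κ c n) S x / Real.log x) atTop (𝓝 (κ + 1)) := by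
  classical
  rw [Metric.tendsto_atTop]
  intro ε hε
  have hK : 0 < κ + 1 := by linarith
  -- choice of j
  obtain ⟨j, hj⟩ := exists_nat_gt ((κ + 1 + 1) / (ε / 2))
  set e : ℝ := 1 / ((j : ℝ) + 1) with he
  have hj0 : (0 : ℝ) < (j : ℝ) + 1 := by positivity
  have he0 : 0 < e := by positivity
  have he1 : e ≤ 1 := by
    rw [he, div_le_one hj0]
    have : (0 : ℝ) ≤ j := by positivity
    linarith
  have he2 : e * (κ + 1 + 1) < ε / 2 := by
    rw [he, div_mul_eq_mul_div, one_mul, div_lt_iff₀ hj0]
    rw [div_lt_iff₀ (by linarith)] at hj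
    nlinarith
  obtain ⟨N, hN⟩ := eventually_atTop.1 (hup j)
  set CN := ∑ n ∈ range N, p n with hCN
  -- upper
  have h1 : ∀ x, incb p (fun n => 2 * b0 κ c n) S x ≤
      incb p (fun n => (1 + e) * b0 κ c n) S x + CN := by
    intro x
    rw [incb_eq, incb_eq, hCN]
    have hsub : Wf (fun n => 2 * b0 κ c n) S x ⊆
        Wf (fun n => (1 + e) * b0 κ c n) S x ∪ range N := by
      intro n hn
      rw [mem_Wf] at hn
      rw [mem_union, mem_range, mem_Wf]
      by_cases h : n < N
      · exact Or.inr h
      · exact Or.inl ⟨hn.1, hn.2.1, hN n (not_lt.1 h)⟩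
    refine (sum_le_sum_of_subset_of_nonneg hsub fun n _ _ => (hM.pos n).le).trans ?_
    exact sum_union_le (fun n => (hM.pos n).le) _ _
  have h2 : ∀ x, inc p S x ≤ incb p (fun n => 2 * b0 κ c n) S x + CN := by
    intro x
    rw [incb_eq, hCN]
    have hsub : (range x).filter (fun n => up S n) ⊆ Wf (fun n => 2 * b0 κ c n) S x ∪ range N := by
      intro n hn
      rw [mem_filter, mem_range] at hn
      rw [mem_union, mem_range, mem_Wf]
      by_cases h : n < N
      · exact Or.inr h
      · refine Or.inl ⟨hn.1, hn.2, (hN n (not_lt.1 h)).trans ?_⟩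
        exact mul_le_mul_of_nonneg_right (by linarith) (b0_nonneg hc n)
    unfold inc
    refine (sum_le_sum_of_subset_of_nonneg hsub fun n _ _ => (hM.pos n).le).trans ?_
    exact sum_union_le (fun n => (hM.pos n).le) _ _
  have h3 := incb_ev hABU hASY hκ hc hM (show (0 : ℝ) ≤ 1 + e by linarith) he0
  have h4 := inc_ev hABL hASY hκ hc hM (show (0 : ℝ) ≤ 1 - e by linarith) S (hlo j) he0
  have h5 : Tendsto (fun x : ℕ => CN / Real.log x) atTop (𝓝 0) :=
    tendsto_const_nhds.div_atTop log_top
  have h6 := h5.eventually (gt_mem_nhds (show (0 : ℝ) < ε / 2 by linarith))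
  have h7 : ∀ᶠ x : ℕ in atTop, dist (incb p (fun n => 2 * b0 κ c n) S x / Real.log x) (κ + 1) < ε := by
    filter_upwards [h3, h4, h6, log_top.eventually_gt_atTop 0] with x h3 h4 h6 hx
    rw [div_lt_iff₀ hx] at h6
    have h8 := h1 x
    have h9 := h2 x
    have h10 := h3 S
    rw [Real.dist_eq, abs_lt]
    constructor
    · rw [lt_sub_iff_add_lt, lt_div_iff₀ hx]
      nlinarith
    · rw [sub_lt_iff_lt_add, div_lt_iff₀ hx]
      nlinarith
  exact eventually_atTop.1 h7

/-- The weighted sums. -/
theorem incq_tendsto {b v : ℕ → ℝ} {V K' : ℝ} (hp : ∀ n, 0 < p n) (hv : Tendsto v atTop (𝓝 V))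
    (S : Set ℕ) (h : Tendsto (fun x : ℕ => incb p b S x / Real.log x) atTop (𝓝 K')) :
    Tendsto (fun x : ℕ => incb (fun n => v n * p n) b S x / Real.log x) atTop (𝓝 (V * K')) := by
  have h1 : Tendsto (fun x : ℕ => (incb (fun n => v n * p n) b S x - V * incb p b S x) /
      Real.log x) atTop (𝓝 0) := by
    rw [Metric.tendsto_atTop]
    intro ε hε
    set K1 := |K'| + 1 with hK1
    have hK1p : 0 < K1 := by positivity
    have h2 := Metric.tendsto_atTop.1 hv (ε / (2 * K1)) (by positivity)
    obtain ⟨N, hN⟩ := h2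
    set C := ∑ n ∈ range N, |v n - V| * p n with hC
    have h3 : ∀ x, |incb (fun n => v n * p n) b S x - V * incb p b S x| ≤
        C + ε / (2 * K1) * incb p b S x := by
      intro x
      rw [incb_eq, incb_eq, mul_sum, mul_sum, ← sum_sub_distrib]
      refine (abs_sum_le_sum_abs _ _).trans ?_
      have h4 : ∀ n ∈ Wf b S x, |v n * p n - V * p n| ≤
          (if n < N then |v n - V| * p n else 0) + ε / (2 * K1) * p n := by
        intro n _
        have e1 : v n * p n - V * p n = (v n - V) * p n := by ring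
        rw [e1, abs_mul, abs_of_pos (hp n)]
        by_cases hn : n < N
        · rw [if_pos hn]
          have : 0 ≤ ε / (2 * K1) * p n := mul_nonneg (by positivity) (hp n).le
          linarith
        · rw [if_neg hn, zero_add]
          have := hN n (not_lt.1 hn)
          rw [Real.dist_eq] at this
          exact mul_le_mul_of_nonneg_right this.le (hp n).le
      refine (sum_le_sum h4).trans ?_
      rw [sum_add_distrib, add_le_add_iff_right, ← sum_filter, hC]
      refine sum_le_sum_of_subset_of_nonneg ?_ fun n _ _ => mul_nonneg (abs_nonneg _) (hp n).le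
      intro n hn
      rw [mem_filter] at hn
      exact mem_range.2 hn.2
    have h5 : Tendsto (fun x : ℕ => C / Real.log x) atTop (𝓝 0) :=
      tendsto_const_nhds.div_atTop log_top
    have h6 := h5.eventually (gt_mem_nhds (show (0 : ℝ) < ε / 2 by linarith))
    have h7 := h.eventually (gt_mem_nhds (show K' < K1 by
      have := le_abs_self K'
      linarith))
    refine eventually_atTop.1 ?_
    filter_upwards [h6, h7, log_top.eventually_gt_atTop 0] with x h6 h7 hx
    rw [Real.dist_eq, sub_zero, abs_div, abs_of_pos hx, div_lt_iff₀ hx]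
    rw [div_lt_iff₀ hx] at h6 h7
    have h8 := h3 x
    have h9 : ε / (2 * K1) * incb p b S x ≤ ε / (2 * K1) * (K1 * Real.log x) :=
      mul_le_mul_of_nonneg_left h7.le (by positivity)
    have h10 : ε / (2 * K1) * (K1 * Real.log x) = ε / 2 * Real.log x := by field_simp
    nlinarith
  have h2 := h1.add (h.const_mul V)
  rw [zero_add] at h2
  refine h2.congr fun x => ?_
  ring

end Det

/-- Job TRC. -/
theorem t_TRC (hSUP : J_SUP) (hCRE : J_CRE) (hABU : J_ABU) (hABL : J_ABL) (hASY : J_ASY)
    (hMLO : J_MLO) (hTUP : J_TUP) (hKLB : J_KLB) : J_TRC := by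
  classical
  intro κ c p v V hκ hc hM hT hv Ω _ μ _ A hA
  have hp : ∀ n, 0 < p n ∧ p n < 1 := fun n => ⟨hM.pos n, hM.lt_one n⟩
  have hK : 0 < κ + 1 := by linarith
  set b : ℕ → ℝ := fun n => 2 * b0 κ c n with hb
  set K := κ + 1 with hKdef
  have hlaw : ∀ N T, T ⊆ range N → lawOn μ A (range N) T = seqlaw (tilt p b v) N T := hA.law
  have hr := tilt_bd (b := b) hp hT.pos hT.lt_one
  -- bound for v
  obtain ⟨Cv, hCv⟩ : ∃ Cv : ℝ, ∀ n, v n ≤ Cv := by
    obtain ⟨Cv, hCv⟩ := hv.bddAbove_range
    exact ⟨Cv, fun n => hCv ⟨n, rfl⟩⟩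
  have hCv0 : 0 < Cv := lt_of_lt_of_le (hT.pos 0) (hCv 0)
  -- the eventual bound for incb
  have hinc : ∀ᶠ x : ℕ in atTop, ∀ S : Set ℕ, incb p b S x ≤ (2 * K + 1) * Real.log x :=
    incb_ev hABU hASY hκ hc hM (by norm_num) one_pos
  -- entropy
  have hent : ∀ᶠ x : ℕ in atTop, relEnt p μ A (range x) ≤ Real.log x ^ 2 := by
    have hp0 := (p_zero hκ hM).eventually (gt_mem_nhds (show (0 : ℝ) < 1 / 2 by norm_num))
    obtain ⟨N0, hN0⟩ := eventually_atTop.1 hp0
    set C1 := ∑ n ∈ range N0, |kl (v n * p n) (p n)| with hC1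
    set C2 := 2 * Cv ^ 2 + 2 with hC2
    have hC20 : 0 < C2 := by positivity
    have h1 : ∀ (T : Finset ℕ) (x : ℕ), ∑ n ∈ Wf b (T : Set ℕ) x, kl (v n * p n) (p n) ≤
        C1 + C2 * incb p b (T : Set ℕ) x := by
      intro T x
      rw [incb_eq, mul_sum]
      have h2 : ∀ n ∈ Wf b (T : Set ℕ) x, kl (v n * p n) (p n) ≤
          (if n < N0 then |kl (v n * p n) (p n)| else 0) + C2 * p n := by
        intro n _
        by_cases hn : n < N0
        · rw [if_pos hn]
          have := le_abs_self (kl (v n * p n) (p n))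
          have := mul_nonneg hC20.le (hp n).1.le
          linarith
        · rw [if_neg hn, zero_add]
          have hpn := (hN0 n (not_lt.1 hn)).le
          have h3 := hKLB (v n) (p n) (hT.pos n).le (hp n).1 hpn (hT.lt_one n).le
          refine h3.trans ?_
          have h4 := hfun_le_sq (hT.pos n).le
          have h5 : v n ^ 2 ≤ Cv ^ 2 := pow_le_pow_left₀ (hT.pos n).le (hCv n) 2
          have h6 : hfun (v n) ≤ Cv ^ 2 + 1 := by
            have := (hT.pos n).le
            nlinarith
          have h7 : p n * hfun (v n) ≤ p n * (Cv ^ 2 + 1) :=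
            mul_le_mul_of_nonneg_left h6 (hp n).1.le
          have h8 : (v n ^ 2 + 1) * p n ^ 2 ≤ (Cv ^ 2 + 1) * p n := by
            have h9 : p n ^ 2 ≤ p n := by
              have := (hp n).2
              have := (hp n).1
              nlinarith
            exact mul_le_mul (by linarith) h9 (by positivity) (by positivity)
          rw [hC2]
          nlinarith
      refine (sum_le_sum h2).trans ?_
      rw [sum_add_distrib, add_le_add_iff_right, ← sum_filter, hC1]
      refine sum_le_sum_of_subset_of_nonneg ?_ fun n _ _ => abs_nonneg _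
      intro n hn
      rw [mem_filter] at hn
      exact mem_range.2 hn.2
    have h2 : ∀ᶠ x : ℕ in atTop, relEnt p μ A (range x) ≤ C1 + C2 * (2 * K + 1) * Real.log x := by
      filter_upwards [hinc] with x hx
      rw [relEnt_eq hCRE hp hT.pos hT.lt_one μ A x (hlaw x)]
      calc ∑ T ∈ (range x).powerset, seqlaw (tilt p b v) x T *
            ∑ n ∈ Wf b (T : Set ℕ) x, kl (v n * p n) (p n)
          ≤ ∑ T ∈ (range x).powerset, seqlaw (tilt p b v) x T *
              (C1 + C2 * (2 * K + 1) * Real.log x) := by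
            refine sum_le_sum fun T _ => mul_le_mul_of_nonneg_left ?_ (seqlaw_nonneg hr x T)
            refine (h1 T x).trans ?_
            have := mul_le_mul_of_nonneg_left (hx (T : Set ℕ)) hC20.le
            linarith
        _ = C1 + C2 * (2 * K + 1) * Real.log x := by
            rw [← sum_mul, sum_seqlaw (μ := μ) hA.rand (hlaw x), one_mul]
    have hC10 : 0 ≤ C1 := sum_nonneg fun _ _ => abs_nonneg _
    filter_upwards [h2, log_top.eventually_ge_atTop (C1 + C2 * (2 * K + 1)),
      log_top.eventually_ge_atTop 1] with x h2 h3 h4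
    refine h2.trans ?_
    nlinarith
  -- the longest run
  have hlo : ∀ᵐ ω ∂μ, ∀ j : ℕ, ∀ᶠ n : ℕ in atTop,
      (1 - 1 / ((j : ℝ) + 1)) * b0 κ c n ≤ mx (A ω) n := by
    rw [ae_all_iff]
    intro j
    exact hMLO κ c p hκ hc hM Ω μ A hA.rand hent _ (by positivity)
  have hup : ∀ᵐ ω ∂μ, ∀ j : ℕ, ∀ᶠ n : ℕ in atTop,
      (mx (A ω) n : ℝ) ≤ (1 + 1 / ((j : ℝ) + 1)) * b0 κ c n := by
    rw [ae_all_iff]
    intro j
    exact hTUP κ c p v hκ hc hM hT Ω μ A hA _ (by positivity)
  have hincT : ∀ᵐ ω ∂μ, Tendsto (fun x : ℕ => incb p b (A ω) x / Real.log x) atTop (𝓝 K) := by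
    filter_upwards [hlo, hup] with ω h1 h2
    exact incb_tendsto hABU hABL hASY hκ hc hM (A ω) h1 h2
  have hinc0 : ∀ (S : Set ℕ) (x : ℕ), 0 ≤ incb p b S x := fun S x =>
    sum_nonneg fun n _ => (hp n).1.le
  have htr : ∀ ω x, incb p b (A ω) x = incb p b ((tr A (range x) ω : Finset ℕ) : Set ℕ) x :=
    fun ω x => incb_congr p b mem_tr_range
  refine ⟨?_, ?_⟩
  · -- almost sure limit
    set q : ℕ → ℝ := fun n => v n * p n with hq
    have hq0 : ∀ n, 0 ≤ q n := fun n => mul_nonneg (hT.pos n).le (hp n).1.le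
    have hY0 : ∀ (S : Set ℕ) (x : ℕ), 0 ≤ incb q b S x := fun S x => sum_nonneg fun n _ => hq0 n
    have hYle : ∀ (S : Set ℕ) (x : ℕ), incb q b S x ≤ Cv * incb p b S x := by
      intro S x
      rw [incb_eq, incb_eq, mul_sum]
      exact sum_le_sum fun n _ => mul_le_mul_of_nonneg_right (hCv n) (hp n).1.le
    set C' := Cv * (2 * K + 1) with hC'
    have hC'0 : 0 < C' := by positivity
    have hYev : ∀ᶠ x : ℕ in atTop, ∀ S : Set ℕ, incb q b S x ≤ C' * Real.log x := by
      filter_upwards [hinc] with x hx S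
      refine (hYle S x).trans ?_
      have := mul_le_mul_of_nonneg_left (hx S) hCv0.le
      rw [hC']
      linarith
    have hsup : ∀ s x, ∑ T ∈ (range x).powerset, seqlaw (tilt p b v) x T *
        Real.exp (s * recb b (T : Set ℕ) x - (Real.exp s - 1) * incb q b (T : Set ℕ) x) ≤ 1 :=
      fun s x => sup_b hSUP (tilt p b v) hr b q (fun n T h1 h2 => tilt_pos_eq h1 h2) s x
    -- the tail bound
    have htail : ∀ ε : ℝ, 0 < ε → ∃ θ : ℝ, 0 < θ ∧ ∀ᶠ x : ℕ in atTop,
        μ.real {ω | ε * Real.log x < |(recb b (A ω) x : ℝ) - incb q b (A ω) x|} ≤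
          2 * Real.exp (-(θ * Real.log x)) := by
      intro ε hε
      set σ : ℝ := min 1 (ε / (2 * C')) with hσ
      have hσ0 : 0 < σ := lt_min one_pos (by positivity)
      have hσ1 : σ ≤ 1 := min_le_left _ _
      have hσ2 : σ * C' ≤ ε / 2 := by
        have := min_le_right 1 (ε / (2 * C'))
        rw [← hσ, le_div_iff₀ (by positivity)] at this
        linarith
      have hexp : ∀ s : ℝ, |s| ≤ σ → |Real.exp s - 1 - s| * C' ≤ σ * (ε / 2) := by
        intro s hs
        have h1 := Real.abs_exp_sub_one_sub_id_le (hs.trans hσ1)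
        have h2 : s ^ 2 ≤ σ ^ 2 := by
          rw [← sq_abs]
          exact pow_le_pow_left₀ (abs_nonneg _) hs 2
        calc |Real.exp s - 1 - s| * C' ≤ σ ^ 2 * C' :=
              mul_le_mul_of_nonneg_right (h1.trans h2) hC'0.le
          _ = σ * (σ * C') := by ring
          _ ≤ σ * (ε / 2) := mul_le_mul_of_nonneg_left hσ2 hσ0.le
      refine ⟨σ * (ε / 2), by positivity, ?_⟩
      filter_upwards [hYev, log_top.eventually_gt_atTop 0] with x hY hx
      have hone : ∀ s : ℝ, |s| = σ → ∑ T ∈ (range x).powerset.filter (fun T : Finset ℕ =>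
          σ * ε * Real.log x < s * ((recb b (T : Set ℕ) x : ℝ) - incb q b (T : Set ℕ) x)),
          seqlaw (tilt p b v) x T ≤ Real.exp (-(σ * (ε / 2) * Real.log x)) := by
        intro s hs
        have h1 : ∀ T ∈ (range x).powerset.filter (fun T : Finset ℕ =>
            σ * ε * Real.log x < s * ((recb b (T : Set ℕ) x : ℝ) - incb q b (T : Set ℕ) x)),
            seqlaw (tilt p b v) x T ≤ Real.exp (-(σ * (ε / 2) * Real.log x)) *
              (seqlaw (tilt p b v) x T * Real.exp (s * recb b (T : Set ℕ) x -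
                (Real.exp s - 1) * incb q b (T : Set ℕ) x)) := by
          intro T hT'
          rw [mem_filter] at hT'
          have h2 := hT'.2
          have h3 := hexp s hs.le
          have h4 : (Real.exp s - 1 - s) * incb q b (T : Set ℕ) x ≤
              σ * (ε / 2) * Real.log x := by
            calc (Real.exp s - 1 - s) * incb q b (T : Set ℕ) x
                ≤ |Real.exp s - 1 - s| * incb q b (T : Set ℕ) x :=
                  mul_le_mul_of_nonneg_right (le_abs_self _) (hY0 _ _)
              _ ≤ |Real.exp s - 1 - s| * (C' * Real.log x) :=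
                  mul_le_mul_of_nonneg_left (hY _) (abs_nonneg _)
              _ = |Real.exp s - 1 - s| * C' * Real.log x := by ring
              _ ≤ _ := mul_le_mul_of_nonneg_right h3 hx.le
          have h5 : σ * (ε / 2) * Real.log x ≤ s * recb b (T : Set ℕ) x -
              (Real.exp s - 1) * incb q b (T : Set ℕ) x := by
            have e1 : s * recb b (T : Set ℕ) x - (Real.exp s - 1) * incb q b (T : Set ℕ) x =
                s * ((recb b (T : Set ℕ) x : ℝ) - incb q b (T : Set ℕ) x) -
                  (Real.exp s - 1 - s) * incb q b (T : Set ℕ) x := by ring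
            rw [e1]
            nlinarith
          have h6 : 1 ≤ Real.exp (-(σ * (ε / 2) * Real.log x)) * Real.exp (s * recb b (T : Set ℕ) x -
              (Real.exp s - 1) * incb q b (T : Set ℕ) x) := by
            rw [← Real.exp_add]
            exact Real.one_le_exp (by linarith)
          have h7 := seqlaw_nonneg hr x T
          nlinarith
        refine (sum_le_sum h1).trans ?_
        rw [← mul_sum]
        have h8 : ∑ T ∈ (range x).powerset.filter (fun T : Finset ℕ =>
            σ * ε * Real.log x < s * ((recb b (T : Set ℕ) x : ℝ) - incb q b (T : Set ℕ) x)),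
            seqlaw (tilt p b v) x T * Real.exp (s * recb b (T : Set ℕ) x -
                (Real.exp s - 1) * incb q b (T : Set ℕ) x) ≤ 1 :=
          (sum_le_sum_of_subset_of_nonneg (filter_subset _ _) fun T _ _ =>
            mul_nonneg (seqlaw_nonneg hr x T) (Real.exp_pos _).le).trans (hsup s x)
        calc _ ≤ Real.exp (-(σ * (ε / 2) * Real.log x)) * 1 :=
              mul_le_mul_of_nonneg_left h8 (Real.exp_pos _).le
          _ = _ := mul_one _
      have e0 : {ω | ε * Real.log x < |(recb b (A ω) x : ℝ) - incb q b (A ω) x|} =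
          {ω | (fun T : Finset ℕ => ε * Real.log x <
            |(recb b (T : Set ℕ) x : ℝ) - incb q b (T : Set ℕ) x|) (tr A (range x) ω)} := by
        ext ω
        simp only [Set.mem_ofPred_eq]
        rw [recb_congr b (mem_tr_range (A := A) (ω := ω)),
          incb_congr q b (mem_tr_range (A := A) (ω := ω))]
      rw [e0, real_event hA.rand (range x) (fun T : Finset ℕ => ε * Real.log x <
            |(recb b (T : Set ℕ) x : ℝ) - incb q b (T : Set ℕ) x|)]
      have h1 := hone σ (abs_of_pos hσ0)
      have h2 := hone (-σ) (by rw [abs_neg, abs_of_pos hσ0])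
      calc ∑ T ∈ (range x).powerset.filter (fun T : Finset ℕ => ε * Real.log x <
            |(recb b (T : Set ℕ) x : ℝ) - incb q b (T : Set ℕ) x|), lawOn μ A (range x) T
          = ∑ T ∈ (range x).powerset.filter (fun T : Finset ℕ => ε * Real.log x <
            |(recb b (T : Set ℕ) x : ℝ) - incb q b (T : Set ℕ) x|), seqlaw (tilt p b v) x T :=
            sum_congr rfl fun T hT' => hlaw x T (mem_powerset.1 (mem_filter.1 hT').1)
        _ ≤ ∑ T ∈ ((range x).powerset.filter (fun T : Finset ℕ =>
              σ * ε * Real.log x < σ * ((recb b (T : Set ℕ) x : ℝ) - incb q b (T : Set ℕ) x))) ∪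
              ((range x).powerset.filter (fun T : Finset ℕ =>
              σ * ε * Real.log x < -σ * ((recb b (T : Set ℕ) x : ℝ) - incb q b (T : Set ℕ) x))),
              seqlaw (tilt p b v) x T := by
            refine sum_le_sum_of_subset_of_nonneg ?_ fun T _ _ => seqlaw_nonneg hr x T
            intro T hT'
            rw [mem_filter] at hT'
            rw [mem_union, mem_filter, mem_filter]
            rcases lt_abs.1 hT'.2 with h3 | h3
            · refine Or.inl ⟨hT'.1, ?_⟩
              have := mul_lt_mul_of_pos_left h3 hσ0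
              linarith
            · refine Or.inr ⟨hT'.1, ?_⟩
              have := mul_lt_mul_of_pos_left h3 hσ0
              linarith
        _ ≤ _ := sum_union_le (fun T => seqlaw_nonneg hr x T) _ _
        _ ≤ Real.exp (-(σ * (ε / 2) * Real.log x)) + Real.exp (-(σ * (ε / 2) * Real.log x)) :=
            add_le_add h1 h2
        _ = _ := by ring
    -- Borel-Cantelli along the powers of 2
    have hBC : ∀ᵐ ω ∂μ, ∀ j : ℕ, ∀ᶠ k : ℕ in atTop,
        |(recb b (A ω) (2 ^ k) : ℝ) - incb q b (A ω) (2 ^ k)| ≤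
          1 / ((j : ℝ) + 1) * Real.log ((2 ^ k : ℕ) : ℝ) := by
      rw [ae_all_iff]
      intro j
      obtain ⟨θ, hθ, hθ2⟩ := htail (1 / ((j : ℝ) + 1)) (by positivity)
      set s : ℕ → Set Ω := fun k => {ω | 1 / ((j : ℝ) + 1) * Real.log ((2 ^ k : ℕ) : ℝ) <
        |(recb b (A ω) (2 ^ k) : ℝ) - incb q b (A ω) (2 ^ k)|} with hs
      have hlog : ∀ k : ℕ, Real.log ((2 ^ k : ℕ) : ℝ) = k * Real.log 2 := by
        intro k
        push_cast
        rw [Real.log_pow]
      have h2k : Tendsto (fun k : ℕ => 2 ^ k) atTop (atTop : Filter ℕ) :=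
        tendsto_pow_atTop_atTop_of_one_lt (by norm_num)
      have hev := h2k.eventually hθ2
      obtain ⟨k0, hk0⟩ := eventually_atTop.1 hev
      have hfin : ∑' k, μ (s (k + k0)) ≠ ∞ := by
        have h1 : ∀ k, μ (s (k + k0)) ≤ ENNReal.ofReal (2 * (Real.exp (-(θ * Real.log 2))) ^ k) := by
          intro k
          have h2 := hk0 (k + k0) (Nat.le_add_left _ _)
          have h3 : μ (s (k + k0)) = ENNReal.ofReal (μ.real (s (k + k0))) :=
            (ofReal_measureReal).symm
          rw [h3]
          refine ENNReal.ofReal_le_ofReal (h2.trans ?_)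
          rw [hlog, ← Real.exp_nat_mul]
          refine mul_le_mul_of_nonneg_left (Real.exp_le_exp.2 ?_) (by norm_num)
          push_cast
          have hl2 : 0 < Real.log 2 := Real.log_pos (by norm_num)
          have : 0 ≤ θ * ((k0 : ℝ) * Real.log 2) := by positivity
          nlinarith
        have h4 : Summable (fun k : ℕ => 2 * (Real.exp (-(θ * Real.log 2))) ^ k) := by
          refine Summable.mul_left _ (summable_geometric_of_lt_one (Real.exp_pos _).le ?_)
          rw [Real.exp_lt_one_iff]
          have hl2 : 0 < Real.log 2 := Real.log_pos (by norm_num)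
          have := mul_pos hθ hl2
          linarith
        exact ne_top_of_le_ne_top h4.tsum_ofReal_ne_top (ENNReal.tsum_le_tsum h1)
      have h5 := ae_eventually_notMem hfin
      filter_upwards [h5] with ω hω
      have h6 : ∀ᶠ k : ℕ in atTop, ω ∉ s k := by
        have := (tendsto_sub_atTop_nat k0).eventually hω
        filter_upwards [this, eventually_ge_atTop k0] with k h7 h8
        rwa [Nat.sub_add_cancel h8] at h7
      filter_upwards [h6] with k hk
      exact not_lt.1 hk
    filter_upwards [hBC, hincT, hup] with ω h1 h2 h3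
    have h4 := incq_tendsto (fun n => (hp n).1) hv (A ω) h2
    have h2k : Tendsto (fun k : ℕ => 2 ^ k) atTop (atTop : Filter ℕ) :=
      tendsto_pow_atTop_atTop_of_one_lt (by norm_num)
    have h5 : Tendsto (fun k : ℕ => ((recb b (A ω) (2 ^ k) : ℝ) - incb q b (A ω) (2 ^ k)) /
        Real.log ((2 ^ k : ℕ) : ℝ)) atTop (𝓝 0) := by
      rw [Metric.tendsto_atTop]
      intro ε hε
      obtain ⟨j, hj⟩ := exists_nat_one_div_lt hε
      refine eventually_atTop.1 ?_
      have hlt := (log_top.comp h2k).eventually_gt_atTop 0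
      filter_upwards [h1 j, hlt] with k hk hk2
      have hk2' : 0 < Real.log ((2 ^ k : ℕ) : ℝ) := hk2
      rw [Real.dist_eq, sub_zero, abs_div, abs_of_pos hk2', div_lt_iff₀ hk2']
      exact lt_of_le_of_lt hk (mul_lt_mul_of_pos_right hj hk2')
    have h6 : Tendsto (fun k : ℕ => (recb b (A ω) (2 ^ k) : ℝ) / Real.log ((2 ^ k : ℕ) : ℝ)) atTop
        (𝓝 (V * K)) := by
      have h7 := h5.add (h4.comp h2k)
      rw [zero_add] at h7
      refine h7.congr fun k => ?_
      simp only [Function.comp]
      ring
    have h7 : Tendsto (fun x : ℕ => (recb b (A ω) x : ℝ) / Real.log x) atTop (𝓝 (V * K)) :=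
      dyadic (f := fun x => (recb b (A ω) x : ℝ))
        (fun x y h => Nat.cast_le.2 (recb_mono b (A ω) h)) (fun n => by positivity) h6
    -- recS
    obtain ⟨N, hN⟩ := eventually_atTop.1 (h3 0)
    have h8 : ∀ x, rece b (A ω) x ≤ N := by
      intro x
      unfold rece
      refine (card_le_card ?_).trans (card_range N).le
      intro n hn
      rw [mem_filter] at hn
      rw [mem_range]
      by_contra h9
      have h10 := hN n (not_lt.1 h9)
      have h11 := hn.2.2.2
      have h12 : (1 + 1 / (((0 : ℕ) : ℝ) + 1)) * b0 κ c n = b n := by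
        rw [hb]; norm_num
      rw [h12] at h10
      exact absurd h11 (not_lt.2 h10)
    have h9 : Tendsto (fun x : ℕ => (rece b (A ω) x : ℝ) / Real.log x) atTop (𝓝 0) := by
      refine squeeze_zero' ?_ ?_ (tendsto_const_nhds.div_atTop log_top : Tendsto
        (fun x : ℕ => (N : ℝ) / Real.log x) atTop (𝓝 0))
      · filter_upwards [log_top.eventually_gt_atTop 0] with x hx
        positivity
      · filter_upwards [log_top.eventually_gt_atTop 0] with x hx
        exact div_le_div_of_nonneg_right (by exact_mod_cast h8 x) hx.le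
    have h10 := h7.add h9
    rw [add_zero, mul_comm V K] at h10
    refine h10.congr fun x => ?_
    rw [recS_eq b (A ω) x]
    push_cast
    ring
  · -- the means
    have h1 : ∀ x : ℕ, (∑ T ∈ (range x).powerset, seqlaw (tilt p b v) x T *
        incb p b (T : Set ℕ) x) / Real.log x = ∫ ω, incb p b (A ω) x / Real.log x ∂μ := by
      intro x
      have h2 := (int_tr μ hA.rand (range x) (fun T => incb p b (T : Set ℕ) x / Real.log x)).2
      have h3 : (fun ω => incb p b (A ω) x / Real.log x) = fun ω =>
          (fun T : Finset ℕ => incb p b (T : Set ℕ) x / Real.log x) (tr A (range x) ω) := by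
        funext ω
        dsimp only
        rw [htr]
      rw [h3, h2, sum_div]
      refine sum_congr rfl fun T hT' => ?_
      rw [hlaw x T (mem_powerset.1 hT')]
      ring
    simp only [h1]
    have h2 : Tendsto (fun x : ℕ => ∫ ω, incb p b (A ω) x / Real.log x ∂μ) atTop
        (𝓝 (∫ _ω, K ∂μ)) := by
      refine tendsto_integral_filter_of_dominated_convergence (fun _ => 2 * K + 1) ?_ ?_
        (integrable_const _) hincT
      · refine Eventually.of_forall fun x => ?_
        have h3 : (fun ω => incb p b (A ω) x / Real.log x) = fun ω =>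
            (fun T : Finset ℕ => incb p b (T : Set ℕ) x / Real.log x) (tr A (range x) ω) := by
          funext ω
          dsimp only
          rw [htr]
        rw [h3]
        exact (int_tr μ hA.rand (range x)
          (fun T => incb p b (T : Set ℕ) x / Real.log x)).1.aestronglyMeasurable
      · filter_upwards [hinc, log_top.eventually_gt_atTop 0] with x h4 h5
        refine Eventually.of_forall fun ω => ?_
        rw [Real.norm_eq_abs, abs_of_nonneg (div_nonneg (hinc0 _ _) h5.le), div_le_iff₀ h5]
        exact h4 (A ω)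
    simpa using h2

end Pool.Agent.Q227.RC
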