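import Pool.Agent.Q227.RC.Com

/-!
Project RC of helper120, job UPR: laws of the limit, upper bound for the rate.
-/

set_option autoImplicit false

namespace Pool.Agent.Q227.RC

open Finset MeasureTheory Filter Pool.Agent.Q120.ET Pool.Agent.Q120.ME Pool.Agent.Q120.RC
open Pool.Agent.Q222.ME (th phi phi_nonneg phi_mono phi_cont lint_tr hfun_le)
open scoped Topology ENNReal

/-- The exponents. -/
noncomputable def Gi (p b : ℕ → ℝ) (θ : ℝ) (S : Set ℕ) (x : ℕ) : ℝ :=
  if 0 < θ then θ * recb b S x - (Real.exp θ - 1) * incb p b S x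
  else θ * recS S x - (Real.exp θ - 1) * inc p S x

/-- The maximum. -/
noncomputable def GG (p b : ℕ → ℝ) : ℕ → Set ℕ → ℕ → ℝ
  | 0, _, _ => 0
  | r + 1, S, x => max (GG p b r S x) (Gi p b (th r) S x)

theorem GG_nonneg (p b : ℕ → ℝ) (r : ℕ) (S : Set ℕ) (x : ℕ) : 0 ≤ GG p b r S x := by
  induction r with
  | zero => exact le_rfl
  | succ r ih => exact le_max_of_le_left ih

theorem GG_congr (p b : ℕ → ℝ) (r : ℕ) {S S' : Set ℕ} {x : ℕ} (h : ∀ j < x, (j ∈ S ↔ j ∈ S')) :
    GG p b r S x = GG p b r S' x := by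
  induction r with
  | zero => rfl
  | succ r ih =>
    simp only [GG, Gi]
    rw [ih, recb_congr b h, incb_congr p b h, recS_congr h, inc_congr p h]

theorem exp_GG (p b : ℕ → ℝ) (r : ℕ) (S : Set ℕ) (x : ℕ) :
    Real.exp (GG p b r S x) ≤ 1 + ∑ i ∈ range r, Real.exp (Gi p b (th i) S x) := by
  induction r with
  | zero => simp [GG]
  | succ r ih =>
    rw [sum_range_succ]
    have h1 : GG p b (r + 1) S x = max (GG p b r S x) (Gi p b (th r) S x) := rfl
    have h2 := Real.exp_pos (Gi p b (th r) S x)
    have h3 : 0 ≤ ∑ i ∈ range r, Real.exp (Gi p b (th i) S x) :=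
      sum_nonneg fun _ _ => (Real.exp_pos _).le
    rw [h1]
    rcases max_choice (GG p b r S x) (Gi p b (th r) S x) with h | h
    · rw [h]; linarith
    · rw [h]; linarith

theorem sum_bern_le (hSUP : J_SUP) (p : ℕ → ℝ) (hp : ∀ n, 0 ≤ p n ∧ p n ≤ 1) (x : ℕ) :
    ∑ T ∈ (range x).powerset, bern p (range x) T ≤ 1 := by
  have h := sup_S hSUP p hp 0 x
  simpa using h

theorem bern_pos {p : ℕ → ℝ} (hp : ∀ n, 0 < p n ∧ p n < 1) (F T : Finset ℕ) : 0 < bern p F T := by
  unfold bern
  refine prod_pos fun n _ => ?_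
  have := hp n
  split_ifs <;> linarith

theorem sum_exp_Gi (hSUP : J_SUP) (p b : ℕ → ℝ) (hp : ∀ n, 0 ≤ p n ∧ p n ≤ 1) (θ : ℝ) (x : ℕ) :
    ∑ T ∈ (range x).powerset, bern p (range x) T * Real.exp (Gi p b θ (T : Set ℕ) x) ≤ 1 := by
  by_cases h : 0 < θ
  · have h1 := sup_b hSUP (fun n _ => p n) (fun n _ => hp n) b p (fun _ _ _ _ => rfl) θ x
    simp only [seqlaw_const] at h1
    simp only [Gi, if_pos h]
    exact h1
  · have h1 := sup_S hSUP p hp θ x
    simp only [Gi, if_neg h]
    exact h1

theorem GG_mean (hDV : J_DV) (hSUP : J_SUP) (p b : ℕ → ℝ) (hp : ∀ n, 0 < p n ∧ p n < 1) {Ω : Type}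
    [MeasurableSpace Ω] (μ : Measure Ω) [IsProbabilityMeasure μ] {A : Ω → Set ℕ}
    (hA : IsRandomSet A) (r x : ℕ) :
    ∑ T ∈ (range x).powerset, lawOn μ A (range x) T * GG p b r (T : Set ℕ) x ≤
      relEnt p μ A (range x) + Real.log (r + 1) := by
  have hp' : ∀ n, 0 ≤ p n ∧ p n ≤ 1 := fun n => ⟨(hp n).1.le, (hp n).2.le⟩
  have h1 := hDV p (range x) (fun n _ => hp n) Ω μ A hA (fun T => GG p b r (T : Set ℕ) x)
  refine h1.trans ?_
  have h2 : ∑ T ∈ (range x).powerset, bern p (range x) T * Real.exp (GG p b r (T : Set ℕ) x) ≤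
      r + 1 := by
    calc ∑ T ∈ (range x).powerset, bern p (range x) T * Real.exp (GG p b r (T : Set ℕ) x)
        ≤ ∑ T ∈ (range x).powerset, (bern p (range x) T +
            ∑ i ∈ range r, bern p (range x) T * Real.exp (Gi p b (th i) (T : Set ℕ) x)) := by
          refine sum_le_sum fun T _ => ?_
          have h3 := mul_le_mul_of_nonneg_left (exp_GG p b r (T : Set ℕ) x)
            (bern_pos hp (range x) T).le
          rw [mul_add, mul_one, mul_sum] at h3
          exact h3
      _ = ∑ T ∈ (range x).powerset, bern p (range x) T + ∑ i ∈ range r,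
            ∑ T ∈ (range x).powerset, bern p (range x) T *
              Real.exp (Gi p b (th i) (T : Set ℕ) x) := by
          rw [sum_add_distrib, sum_comm]
      _ ≤ 1 + ∑ _i ∈ range r, (1 : ℝ) :=
          add_le_add (sum_bern_le hSUP p hp' x)
            (sum_le_sum fun i _ => sum_exp_Gi hSUP p b hp' (th i) x)
      _ = r + 1 := by
          rw [sum_const, card_range, nsmul_eq_mul]
          ring
  have h3 : 0 < ∑ T ∈ (range x).powerset, bern p (range x) T *
      Real.exp (GG p b r (T : Set ℕ) x) :=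
    sum_pos (fun T _ => mul_pos (bern_pos hp _ T) (Real.exp_pos _)) ⟨∅, by simp⟩
  have h4 := Real.log_le_log h3 h2
  linarith

/-- The pointwise bound. -/
theorem GG_ge (p b : ℕ → ℝ) (K ζ ℓ : ℝ) (hK : 0 < K) (hζ : 0 ≤ ζ) (hℓ : 0 < ℓ) (S : Set ℕ) (x : ℕ)
    (h1 : incb p b S x ≤ (K + ζ) * ℓ) (h2 : (K - ζ) * ℓ ≤ inc p S x) (r : ℕ) :
    K * phi r ((recS S x : ℝ) / ℓ / K) * ℓ - (∑ i ∈ range r, |Real.exp (th i) - 1|) * ζ * ℓ ≤
      GG p b r S x + (∑ i ∈ range r, |th i|) * rece b S x := by
  have hrece : (0 : ℝ) ≤ rece b S x := by positivity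
  have hrec : (recS S x : ℝ) = recb b S x + rece b S x := by
    rw [recS_eq b S x]; push_cast; rfl
  induction r with
  | zero => simp [phi, GG]
  | succ r ih =>
    rw [sum_range_succ, sum_range_succ]
    set E := ∑ i ∈ range r, |Real.exp (th i) - 1| with hE
    set Θ := ∑ i ∈ range r, |th i| with hΘ
    have hE0 : 0 ≤ E := sum_nonneg fun _ _ => abs_nonneg _
    have hΘ0 : 0 ≤ Θ := sum_nonneg fun _ _ => abs_nonneg _
    set θ := th r with hθ
    have hphi : phi (r + 1) ((recS S x : ℝ) / ℓ / K) =
        max (phi r ((recS S x : ℝ) / ℓ / K)) (θ * ((recS S x : ℝ) / ℓ / K) - (Real.exp θ - 1)) :=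
      rfl
    have hGG : GG p b (r + 1) S x = max (GG p b r S x) (Gi p b θ S x) := rfl
    have ha : 0 ≤ |θ| * (rece b S x : ℝ) := mul_nonneg (abs_nonneg _) hrece
    have hb : 0 ≤ |Real.exp θ - 1| * ζ * ℓ := by positivity
    rw [hphi, hGG]
    rcases max_choice (phi r ((recS S x : ℝ) / ℓ / K))
      (θ * ((recS S x : ℝ) / ℓ / K) - (Real.exp θ - 1)) with h | h
    · rw [h]
      have h3 := le_max_left (GG p b r S x) (Gi p b θ S x)
      nlinarith
    · rw [h]
      have h3 := le_max_right (GG p b r S x) (Gi p b θ S x)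
      have e1 : K * (θ * ((recS S x : ℝ) / ℓ / K) - (Real.exp θ - 1)) * ℓ =
          θ * recS S x - K * (Real.exp θ - 1) * ℓ := by
        field_simp
      rw [e1]
      have hEζ : 0 ≤ E * ζ * ℓ := by positivity
      have hΘr : 0 ≤ Θ * (rece b S x : ℝ) := mul_nonneg hΘ0 hrece
      by_cases hpos : 0 < θ
      · have hexp : 0 ≤ Real.exp θ - 1 := by
          have := Real.one_le_exp hpos.le
          linarith
        have e2 : Gi p b θ S x = θ * recb b S x - (Real.exp θ - 1) * incb p b S x := by
          simp only [Gi, if_pos hpos]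
        have e3 := mul_le_mul_of_nonneg_left h1 hexp
        rw [abs_of_pos hpos, abs_of_nonneg hexp] at *
        rw [hrec]
        have e4 : (E + (Real.exp θ - 1)) * ζ * ℓ = E * ζ * ℓ + (Real.exp θ - 1) * ζ * ℓ := by ring
        have e5 : (Θ + θ) * (rece b S x : ℝ) = Θ * rece b S x + θ * rece b S x := by ring
        rw [e4, e5]
        nlinarith
      · have hexp : Real.exp θ - 1 ≤ 0 := by
          have := Real.exp_le_one_iff.2 (not_lt.1 hpos)
          linarith
        have e2 : Gi p b θ S x = θ * recS S x - (Real.exp θ - 1) * inc p S x := by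
          simp only [Gi, if_neg hpos]
        have e3 := mul_le_mul_of_nonpos_left h2 hexp
        have e6 : |Real.exp θ - 1| = -(Real.exp θ - 1) := abs_of_nonpos hexp
        rw [e6]
        rw [e6] at hb
        have e4 : (E + -(Real.exp θ - 1)) * ζ * ℓ = E * ζ * ℓ - (Real.exp θ - 1) * ζ * ℓ := by ring
        have e5 : (Θ + |θ|) * (rece b S x : ℝ) = Θ * rece b S x + |θ| * rece b S x := by ring
        rw [e4, e5]
        nlinarith

/-- Job UPR. -/
theorem t_UPR (hDV : J_DV) (hSUP : J_SUP) (hABU : J_ABU) (hABL : J_ABL) (hASY : J_ASY)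
    (hELE : J_ELE) (hMLO : J_MLO) : J_UPR := by
  intro κ c p δ hκ hc hM hδ Ω _ μ _ A hcls L hL hlim
  obtain ⟨hA, hrel⟩ := hcls
  have hp : ∀ n, 0 < p n ∧ p n < 1 := fun n => ⟨hM.pos n, hM.lt_one n⟩
  have hp' : ∀ n, 0 ≤ p n ∧ p n ≤ 1 := fun n => ⟨(hp n).1.le, (hp n).2.le⟩
  have hK : 0 < κ + 1 := by linarith
  -- the lower bound for the longest run
  have hmlo := hMLO κ c p hκ hc hM Ω μ A hA (by
    have h1 := hrel 1 one_pos
    filter_upwards [h1, log_top.eventually_ge_atTop (δ + 1), log_top.eventually_gt_atTop 0]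
      with x h1 h2 h3
    refine h1.trans ?_
    rw [pow_two]
    exact mul_le_mul_of_nonneg_right h2 h3.le)
  have hF : ∀ r : ℕ, ∫⁻ ω, ENNReal.ofReal ((κ + 1) * phi r (L ω / (κ + 1))) ∂μ ≤
      ENNReal.ofReal δ := by
    intro r
    set E := ∑ i ∈ range r, |Real.exp (th i) - 1| with hE
    set Θ := ∑ i ∈ range r, |th i| with hΘ
    have hE0 : 0 ≤ E := sum_nonneg fun _ _ => abs_nonneg _
    have hΘ0 : 0 ≤ Θ := sum_nonneg fun _ _ => abs_nonneg _
    have key : ∀ ζ : ℝ, 0 < ζ → ∫⁻ ω, ENNReal.ofReal ((κ + 1) * phi r (L ω / (κ + 1)) - E * ζ) ∂μ ≤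
        ENNReal.ofReal δ := by
      intro ζ hζ
      set η : ℝ := min (ζ / (κ + 1 + 1)) (1 / 2) with hη
      have hη0 : 0 < η := lt_min (by positivity) (by norm_num)
      have hη1 : η ≤ 1 / 2 := min_le_right _ _
      have hη2 : η * (κ + 1 + 1) ≤ ζ := by
        have := min_le_left (ζ / (κ + 1 + 1)) (1 / 2)
        rwa [← hη, le_div_iff₀ (by linarith)] at this
      set b : ℕ → ℝ := fun n => (1 + η) * b0 κ c n with hb
      -- the means
      have hmean : ∀ ε : ℝ, 0 < ε → ∀ᶠ x : ℕ in atTop,
          ∫⁻ ω, ENNReal.ofReal ((GG p b r (A ω) x + Θ * rece b (A ω) x) / Real.log x) ∂μ ≤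
            ENNReal.ofReal (δ + ε) := by
        intro ε hε
        set t : ℝ := 4 * (Θ + 1) * (δ + ε) / ε with ht
        have ht0 : 0 < t := by positivity
        obtain ⟨C, hC⟩ := hELE κ c p hκ hc hM η t hη0 ht0.le
        have h1 := hrel (ε / 4) (by linarith)
        have h2 : Tendsto (fun x : ℕ => (Real.log (r + 1) + Θ / t * Real.log C) / Real.log x) atTop
            (𝓝 0) := tendsto_const_nhds.div_atTop log_top
        have h3 := h2.eventually (gt_mem_nhds (show (0 : ℝ) < ε / 2 by linarith))
        filter_upwards [h1, h3, log_top.eventually_gt_atTop 0] with x h1 h3 h4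
        rw [div_lt_iff₀ h4] at h3
        have e1 : ∀ ω, (GG p b r (A ω) x + Θ * rece b (A ω) x) / Real.log x =
            (fun T : Finset ℕ => (GG p b r (T : Set ℕ) x + Θ * rece b (T : Set ℕ) x) /
              Real.log x) (tr A (range x) ω) := by
          intro ω
          dsimp only
          rw [GG_congr p b r (mem_tr_range (A := A) (ω := ω)),
            rece_congr b (mem_tr_range (A := A) (ω := ω))]
        have e2 : ∀ T : Finset ℕ, 0 ≤ (GG p b r (T : Set ℕ) x + Θ * rece b (T : Set ℕ) x) /
            Real.log x := fun T => div_nonneg (add_nonneg (GG_nonneg _ _ _ _ _)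
              (mul_nonneg hΘ0 (by positivity))) h4.le
        have e3 : ∫⁻ ω, ENNReal.ofReal ((GG p b r (A ω) x + Θ * rece b (A ω) x) / Real.log x) ∂μ =
            ENNReal.ofReal (∑ T ∈ (range x).powerset, lawOn μ A (range x) T *
              ((GG p b r (T : Set ℕ) x + Θ * rece b (T : Set ℕ) x) / Real.log x)) := by
          simp only [e1]
          rw [(lint_tr μ hA (range x) (fun T => ENNReal.ofReal
            ((GG p b r (T : Set ℕ) x + Θ * rece b (T : Set ℕ) x) / Real.log x))).2,
            ENNReal.ofReal_sum_of_nonneg fun T _ => mul_nonneg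
              (show 0 ≤ lawOn μ A (range x) T from measureReal_nonneg) (e2 T)]
          refine sum_congr rfl fun T hT => ?_
          rw [mul_comm (lawOn μ A (range x) T), ENNReal.ofReal_mul (e2 T)]
          congr 1
          unfold lawOn
          rw [law_set_eq A (mem_powerset.1 hT), ofReal_measureReal]
        rw [e3]
        refine ENNReal.ofReal_le_ofReal ?_
        have e4 : ∑ T ∈ (range x).powerset, lawOn μ A (range x) T *
              ((GG p b r (T : Set ℕ) x + Θ * rece b (T : Set ℕ) x) / Real.log x) =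
            (∑ T ∈ (range x).powerset, lawOn μ A (range x) T * GG p b r (T : Set ℕ) x +
              Θ * ∑ T ∈ (range x).powerset, lawOn μ A (range x) T * rece b (T : Set ℕ) x) /
              Real.log x := by
          rw [mul_sum, ← sum_add_distrib, sum_div]
          refine sum_congr rfl fun T _ => ?_
          ring
        rw [e4, div_le_iff₀ h4]
        have e5 := GG_mean hDV hSUP p b hp μ hA r x
        have e6 := hDV p (range x) (fun n _ => hp n) Ω μ A hA (fun T => t * rece b (T : Set ℕ) x)
        have e7 : Real.log (∑ T ∈ (range x).powerset, bern p (range x) T *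
            Real.exp (t * rece b (T : Set ℕ) x)) ≤ Real.log C := by
          refine Real.log_le_log ?_ (hC x)
          exact sum_pos (fun T _ => mul_pos (bern_pos hp _ T) (Real.exp_pos _)) ⟨∅, by simp⟩
        have e8 : ∑ T ∈ (range x).powerset, lawOn μ A (range x) T * (t * rece b (T : Set ℕ) x) =
            t * ∑ T ∈ (range x).powerset, lawOn μ A (range x) T * rece b (T : Set ℕ) x := by
          rw [mul_sum]
          exact sum_congr rfl fun T _ => by ring
        rw [e8] at e6
        set M := ∑ T ∈ (range x).powerset, lawOn μ A (range x) T * (rece b (T : Set ℕ) x : ℝ)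
          with hMdef
        have e9 : Θ * M ≤ Θ / t * relEnt p μ A (range x) + Θ / t * Real.log C := by
          have : Θ / t * (t * M) ≤ Θ / t * (relEnt p μ A (range x) + Real.log C) :=
            mul_le_mul_of_nonneg_left (by linarith) (by positivity)
          have e10 : Θ / t * (t * M) = Θ * M := by field_simp
          linarith
        have e11 : Θ / t * relEnt p μ A (range x) ≤ ε / 4 * Real.log x := by
          have e12 : Θ / t * relEnt p μ A (range x) ≤ Θ / t * ((δ + ε / 4) * Real.log x) :=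
            mul_le_mul_of_nonneg_left h1 (by positivity)
          have e13 : Θ / t * (δ + ε / 4) ≤ ε / 4 := by
            rw [ht]
            have : Θ / (4 * (Θ + 1) * (δ + ε) / ε) * (δ + ε / 4) =
                (ε / 4) * (Θ / (Θ + 1)) * ((δ + ε / 4) / (δ + ε)) := by
              field_simp
            rw [this]
            have g1 : Θ / (Θ + 1) ≤ 1 := by
              rw [div_le_one (by linarith)]; linarith
            have g2 : (δ + ε / 4) / (δ + ε) ≤ 1 := by
              rw [div_le_one (by linarith)]; linarith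
            have g3 : 0 ≤ Θ / (Θ + 1) := by positivity
            have g4 : 0 ≤ (δ + ε / 4) / (δ + ε) := by positivity
            have g5 : Θ / (Θ + 1) * ((δ + ε / 4) / (δ + ε)) ≤ 1 := mul_le_one₀ g1 g4 g2
            nlinarith
          have e14 := mul_le_mul_of_nonneg_right e13 h4.le
          linarith
        linarith
      -- almost sure lower bound
      have hae : ∀ᵐ ω ∂μ, ENNReal.ofReal ((κ + 1) * phi r (L ω / (κ + 1)) - E * ζ) ≤
          liminf (fun x : ℕ => ENNReal.ofReal
            ((GG p b r (A ω) x + Θ * rece b (A ω) x) / Real.log x)) atTop := by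
        filter_upwards [hlim, hmlo η hη0] with ω hω hmx
        have h1 : Tendsto (fun x : ℕ => ENNReal.ofReal ((κ + 1) *
            phi r ((recS (A ω) x : ℝ) / Real.log x / (κ + 1)) - E * ζ)) atTop
            (𝓝 (ENNReal.ofReal ((κ + 1) * phi r (L ω / (κ + 1)) - E * ζ))) := by
          refine (ENNReal.continuous_ofReal.tendsto _).comp ?_
          refine Tendsto.sub_const (Tendsto.const_mul _ ?_) _
          exact ((phi_cont r).tendsto _).comp (hω.div_const _)
        rw [← h1.liminf_eq]
        refine liminf_le_liminf ?_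
        have h2 := incb_ev hABU hASY hκ hc hM (show (0 : ℝ) ≤ 1 + η by linarith) hη0
        have h3 := inc_ev hABL hASY hκ hc hM (show (0 : ℝ) ≤ 1 - η by linarith) (A ω) hmx hη0
        filter_upwards [h2, h3, log_top.eventually_gt_atTop 0] with x h2 h3 h4
        refine ENNReal.ofReal_le_ofReal ?_
        rw [le_div_iff₀ h4]
        have h5 := GG_ge p b (κ + 1) ζ (Real.log x) hK hζ.le h4 (A ω) x
          ((h2 (A ω)).trans (mul_le_mul_of_nonneg_right (by nlinarith) h4.le))
          (le_trans (mul_le_mul_of_nonneg_right (by nlinarith) h4.le) h3) r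
        rw [← hE, ← hΘ] at h5
        linarith
      refine (lintegral_mono_ae hae).trans ?_
      have hmeas : ∀ x : ℕ, Measurable (fun ω => ENNReal.ofReal
          ((GG p b r (A ω) x + Θ * rece b (A ω) x) / Real.log x)) := by
        intro x
        have e1 : (fun ω => ENNReal.ofReal
          ((GG p b r (A ω) x + Θ * rece b (A ω) x) / Real.log x)) = fun ω =>
            (fun T : Finset ℕ => ENNReal.ofReal ((GG p b r (T : Set ℕ) x +
              Θ * rece b (T : Set ℕ) x) / Real.log x)) (tr A (range x) ω) := by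
          funext ω
          dsimp only
          rw [GG_congr p b r (mem_tr_range (A := A) (ω := ω)),
            rece_congr b (mem_tr_range (A := A) (ω := ω))]
        rw [e1]
        exact (lint_tr μ hA (range x) (fun T : Finset ℕ => ENNReal.ofReal
          ((GG p b r (T : Set ℕ) x + Θ * rece b (T : Set ℕ) x) / Real.log x))).1
      have h2 := lintegral_liminf_le (μ := μ) (u := atTop) (f := fun (x : ℕ) ω => ENNReal.ofReal
          ((GG p b r (A ω) x + Θ * rece b (A ω) x) / Real.log x)) hmeas
      refine h2.trans ?_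
      refine ENNReal.le_of_forall_pos_le_add fun ε hε _ => ?_
      have h3 := hmean ε (by exact_mod_cast hε)
      have h4 : liminf (fun x : ℕ => ∫⁻ ω, ENNReal.ofReal
          ((GG p b r (A ω) x + Θ * rece b (A ω) x) / Real.log x) ∂μ) atTop ≤
          ENNReal.ofReal (δ + ε) := by
        apply liminf_le_of_frequently_le'
        exact h3.frequently
      refine h4.trans ?_
      rw [ENNReal.ofReal_add hδ (by positivity), ENNReal.ofReal_coe_nnreal]
    refine ENNReal.le_of_forall_pos_le_add fun ε hε _ => ?_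
    have hε' : (0 : ℝ) < ε := by exact_mod_cast hε
    have h1 := key (ε / (E + 1)) (by positivity)
    calc ∫⁻ ω, ENNReal.ofReal ((κ + 1) * phi r (L ω / (κ + 1))) ∂μ
        ≤ ∫⁻ ω, (ENNReal.ofReal ((κ + 1) * phi r (L ω / (κ + 1)) - E * (ε / (E + 1))) +
            ENNReal.ofReal ε) ∂μ := by
          refine lintegral_mono fun ω => ?_
          refine le_trans ?_ ENNReal.ofReal_add_le
          refine ENNReal.ofReal_le_ofReal ?_
          have : E * (ε / (E + 1)) ≤ ε := by
            rw [← mul_div_assoc, div_le_iff₀ (by linarith)]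
            nlinarith
          linarith
      _ = ∫⁻ ω, ENNReal.ofReal ((κ + 1) * phi r (L ω / (κ + 1)) - E * (ε / (E + 1))) ∂μ +
            ENNReal.ofReal ε := by
          rw [lintegral_add_right _ measurable_const]
          simp
      _ ≤ ENNReal.ofReal δ + ε := by
          refine add_le_add h1 ?_
          rw [ENNReal.ofReal_coe_nnreal]
  -- monotone convergence
  have hS : ∫⁻ ω, ⨆ r, ENNReal.ofReal ((κ + 1) * phi r (L ω / (κ + 1))) ∂μ ≤ ENNReal.ofReal δ := by
    rw [lintegral_iSup]
    · exact iSup_le hF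
    · intro r
      exact (((phi_cont r).measurable.comp (hL.div_const _)).const_mul _).ennreal_ofReal
    · intro r s hrs ω
      exact ENNReal.ofReal_le_ofReal (mul_le_mul_of_nonneg_left (phi_mono _ hrs) hK.le)
  refine le_trans (lintegral_mono_ae ?_) hS
  filter_upwards [hlim] with ω hω
  have hL0 : 0 ≤ L ω := by
    refine ge_of_tendsto hω ?_
    filter_upwards [log_top.eventually_gt_atTop 0] with x hx
    positivity
  rw [hK_eq κ (L ω) hκ, ENNReal.ofReal_mul hK.le]
  have h1 := hfun_le (L ω / (κ + 1)) (by positivity)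
  have h2 := mul_le_mul_right h1 (ENNReal.ofReal (κ + 1))
  refine h2.trans ?_
  rw [ENNReal.mul_iSup]
  refine iSup_mono fun r => ?_
  rw [ENNReal.ofReal_mul hK.le]

end Pool.Agent.Q227.RC
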